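import Mathlib

/-!
# Spread families are hit by random sets (minimum fragments)
-/

set_option linter.unusedSectionVars false

namespace Pool.Agent.V8H39.NP

open Finset

variable {U : Type} [Fintype U] [DecidableEq U]

/-- the elements marked in one round -/
def zs {D : ℕ} (w : U → Fin D) : Finset U := univ.filter fun e => (w e : ℕ) = 0

/-- the elements marked in `n` rounds -/
def noise {D n : ℕ} (ω : Fin n → U → Fin D) : Finset U :=
  univ.filter fun e => ∃ j, (ω j e : ℕ) = 0

theorem mem_zs {D : ℕ} (w : U → Fin D) (e : U) : e ∈ zs w ↔ (w e : ℕ) = 0 := by simp [zs]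

theorem mem_noise {D n : ℕ} (ω : Fin n → U → Fin D) (e : U) :
    e ∈ noise ω ↔ ∃ j, (ω j e : ℕ) = 0 := by simp [noise]

theorem noise_cons {D n : ℕ} (w : U → Fin D) (ω : Fin n → U → Fin D) :
    noise (Fin.cons w ω : Fin (n + 1) → U → Fin D) = zs w ∪ noise ω := by
  ext e
  rw [mem_noise, mem_union, mem_zs, mem_noise, Fin.exists_fin_succ]
  simp

/-- spread families -/
def Spread {ι : Type} (R N : ℕ) (G : Finset ι) (S : ι → Finset U) : Prop :=
  ∀ T : Finset U, R ^ T.card * (G.filter fun i => T ⊆ S i).card ≤ N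

theorem card_agree {D : ℕ} (T : Finset U) (w' : U → Fin D) :
    (univ.filter fun w : U → Fin D => ∀ e, e ∉ T → w e = w' e).card = D ^ T.card := by
  have h : (univ.filter fun w : U → Fin D => ∀ e, e ∉ T → w e = w' e) =
      Fintype.piFinset (fun e => if e ∈ T then (univ : Finset (Fin D)) else {w' e}) := by
    ext w
    simp only [mem_filter, mem_univ, true_and, Fintype.mem_piFinset]
    refine forall_congr' fun e => ?_
    by_cases he : e ∈ T
    · simp [he]
    · simp [he]
  rw [h, Fintype.card_piFinset]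
  have h2 : ∀ e : U, ((if e ∈ T then (univ : Finset (Fin D)) else {w' e}) : Finset (Fin D)).card =
      if e ∈ T then D else 1 := by
    intro e
    by_cases he : e ∈ T
    · simp [he]
    · simp [he]
  rw [Finset.prod_congr rfl (fun e _ => h2 e), Finset.prod_ite, Finset.prod_const_one, mul_one,
    Finset.prod_const]
  congr 2
  ext e; simp

theorem one_round {ι : Type} {D R N l : ℕ} (hD : 1 ≤ D) (hR : R = 16 * D) (G : Finset ι)
    (S : ι → Finset U) (hsp : Spread R N G S) (hl : ∀ i ∈ G, (S i).card ≤ l) :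
    ∃ (G' : (U → Fin D) → Finset ι) (S' : (U → Fin D) → ι → Finset U),
      (∀ w, G' w ⊆ G ∧ ∀ i ∈ G' w, S' w i ⊆ S i ∧ (S' w i).card ≤ l / 2 ∧
        ∃ j ∈ G, S j ⊆ zs w ∪ S' w i) ∧
      ∑ w, ((G.card : ℝ) - (G' w).card) ≤
        (D : ℝ) ^ Fintype.card U * N * ((1 / 2) ^ l / 4) := by
  classical
  -- fragments
  have hex : ∀ (w : U → Fin D) (i : ι), ∃ T : Finset U, i ∈ G →
      (T ⊆ S i ∧ Disjoint T (zs w) ∧ (∃ j ∈ G, S j ⊆ zs w ∪ T) ∧
        ∀ j ∈ G, S j ⊆ S i ∪ zs w → T.card ≤ (S j \ zs w).card) := by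
    intro w i
    by_cases hi : i ∈ G
    · have hne : (G.filter fun j => S j ⊆ S i ∪ zs w).Nonempty :=
        ⟨i, mem_filter.2 ⟨hi, subset_union_left⟩⟩
      obtain ⟨j, hj, hmin⟩ := exists_min_image _ (fun j => (S j \ zs w).card) hne
      rw [mem_filter] at hj
      refine ⟨S j \ zs w, fun _ => ⟨?_, sdiff_disjoint, ⟨j, hj.1, ?_⟩, ?_⟩⟩
      · intro e he
        rw [mem_sdiff] at he
        rcases mem_union.1 (hj.2 he.1) with h | h
        · exact h
        · exact absurd h he.2
      · intro e he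
        by_cases h : e ∈ zs w
        · exact mem_union_left _ h
        · exact mem_union_right _ (mem_sdiff.2 ⟨he, h⟩)
      · intro j' hj' hsub
        exact hmin j' (mem_filter.2 ⟨hj', hsub⟩)
    · exact ⟨∅, fun h => absurd h hi⟩
  choose fr hfr using hex
  refine ⟨fun w => G.filter fun i => (fr w i).card ≤ l / 2, fr, fun w => ⟨filter_subset _ _,
    fun i hi => ?_⟩, ?_⟩
  · rw [mem_filter] at hi
    obtain ⟨h1, h2, h3, _⟩ := hfr w i hi.1
    exact ⟨h1, hi.2, h3⟩
  -- the count
  set B : Finset ((U → Fin D) × ι) :=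
    (univ ×ˢ G).filter fun p => ¬ (fr p.1 p.2).card ≤ l / 2 with hB
  have hsum : ∑ w, ((G.card : ℝ) - ((G.filter fun i => (fr w i).card ≤ l / 2).card : ℝ)) =
      (B.card : ℝ) := by
    have h1 : ∀ w : U → Fin D, (G.card : ℝ) - ((G.filter fun i => (fr w i).card ≤ l / 2).card : ℝ)
        = ((G.filter fun i => ¬ (fr w i).card ≤ l / 2).card : ℝ) := by
      intro w
      have := Finset.card_filter_add_card_filter_not (s := G) (fun i => (fr w i).card ≤ l / 2)
      rw [← this]; push_cast; ring
    rw [Finset.sum_congr rfl (fun w _ => h1 w)]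
    rw [hB, Finset.card_filter, Finset.sum_product]
    push_cast
    refine Finset.sum_congr rfl fun w _ => ?_
    rw [Finset.card_filter]
    push_cast
    rfl
  rw [hsum]
  -- canonical members
  set can : (U → Fin D) → Finset U := fun w' =>
    if h : ∃ j ∈ G, S j ⊆ zs w' then S h.choose else ∅ with hcan
  have hcan1 : ∀ w' : U → Fin D, (∃ j ∈ G, S j ⊆ zs w') →
      ∃ j ∈ G, S j = can w' ∧ S j ⊆ zs w' := by
    intro w' h
    refine ⟨h.choose, h.choose_spec.1, ?_, h.choose_spec.2⟩
    rw [hcan]; simp only [h, dif_pos]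
  have hcan2 : ∀ w' : U → Fin D, (can w').card ≤ l := by
    intro w'
    rw [hcan]
    by_cases h : ∃ j ∈ G, S j ⊆ zs w'
    · simp only [h, dif_pos]
      exact hl _ h.choose_spec.1
    · simp [h]
  set F : (U → Fin D) → Finset (Finset U) := fun w' =>
    (can w').powerset.filter fun T => ¬ T.card ≤ l / 2 with hF
  set X : (U → Fin D) → Finset U → Finset ((U → Fin D) × ι) := fun w' T =>
    (univ.filter fun w : U → Fin D => ∀ e, e ∉ T → w e = w' e) ×ˢ
      (G.filter fun i => T ⊆ S i) with hX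
  have hcover : B ⊆ univ.biUnion fun w' => (F w').biUnion fun T => X w' T := by
    rintro ⟨w, i⟩ hp
    rw [hB, mem_filter, mem_product] at hp
    obtain ⟨⟨_, hi⟩, hbad⟩ := hp
    simp only at hi hbad
    obtain ⟨h1, h2, ⟨j, hj, hjs⟩, h4⟩ := hfr w i hi
    set T := fr w i with hT
    set w' : U → Fin D := fun e => if e ∈ T then ⟨0, hD⟩ else w e with hw'
    have hzs : zs w' = zs w ∪ T := by
      ext e
      rw [mem_zs, mem_union, mem_zs, hw']
      by_cases he : e ∈ T
      · simp [he]
      · simp [he]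
    have hc := hcan1 w' ⟨j, hj, by rw [hzs]; exact hjs⟩
    obtain ⟨j0, hj0, hj0c, hj0s⟩ := hc
    have hsub : S j0 ⊆ S i ∪ zs w := by
      intro e he
      have := hj0s he
      rw [hzs, mem_union] at this
      rcases this with h | h
      · exact mem_union_right _ h
      · exact mem_union_left _ (h1 h)
    have hmin := h4 j0 hj0 hsub
    have hsd : S j0 \ zs w ⊆ T := by
      intro e he
      rw [mem_sdiff] at he
      have := hj0s he.1
      rw [hzs, mem_union] at this
      rcases this with h | h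
      · exact absurd h he.2
      · exact h
    have heq : S j0 \ zs w = T := Finset.eq_of_subset_of_card_le hsd hmin
    have hTc : T ⊆ can w' := by
      rw [← hj0c, ← heq]; exact sdiff_subset
    rw [mem_biUnion]
    refine ⟨w', mem_univ _, ?_⟩
    rw [mem_biUnion]
    refine ⟨T, ?_, ?_⟩
    · rw [hF, mem_filter, mem_powerset]
      exact ⟨hTc, hbad⟩
    · rw [hX, mem_product, mem_filter, mem_filter]
      refine ⟨⟨mem_univ _, fun e he => ?_⟩, hi, h1⟩
      simp only [hw', if_neg he]
  have hXcard : ∀ w' T, T ∈ F w' → ((X w' T).card : ℝ) ≤ N * (1 / 4) ^ (l + 1) := by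
    intro w' T hT
    rw [hF, mem_filter] at hT
    have hcardT : l + 1 ≤ 2 * T.card := by omega
    have h1 := hsp T
    have h2 : (X w' T).card = D ^ T.card * (G.filter fun i => T ⊆ S i).card := by
      rw [hX]; simp only [card_product]; rw [card_agree]
    have hDR : (0 : ℝ) < D := by exact_mod_cast hD
    have h3 : (R : ℝ) ^ T.card * ((G.filter fun i => T ⊆ S i).card : ℝ) ≤ N := by exact_mod_cast h1
    rw [hR] at h3
    push_cast at h3
    rw [mul_pow] at h3
    have h4 : ((X w' T).card : ℝ) = (D : ℝ) ^ T.card * ((G.filter fun i => T ⊆ S i).card : ℝ) := by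
      rw [h2]; push_cast; ring
    have h5 : (16 : ℝ) ^ T.card * ((X w' T).card : ℝ) ≤ N := by
      rw [h4]; calc _ = 16 ^ T.card * (D : ℝ) ^ T.card *
            ((G.filter fun i => T ⊆ S i).card : ℝ) := by ring
        _ ≤ N := h3
    have h6 : (4 : ℝ) ^ (l + 1) ≤ 16 ^ T.card := by
      calc (4 : ℝ) ^ (l + 1) ≤ 4 ^ (2 * T.card) := pow_le_pow_right₀ (by norm_num) hcardT
        _ = 16 ^ T.card := by rw [pow_mul]; norm_num
    have h7 : (4 : ℝ) ^ (l + 1) * ((X w' T).card : ℝ) ≤ N :=
      le_trans (mul_le_mul_of_nonneg_right h6 (Nat.cast_nonneg _)) h5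
    rw [one_div, inv_pow, ← div_eq_mul_inv, le_div_iff₀ (by positivity)]
    linarith
  have hFcard : ∀ w', ((F w').card : ℝ) ≤ 2 ^ l := by
    intro w'
    have h1 : (F w').card ≤ 2 ^ (can w').card := by
      rw [hF, ← card_powerset]; exact card_filter_le _ _
    have h2 : 2 ^ (can w').card ≤ 2 ^ l := Nat.pow_le_pow_right (by norm_num) (hcan2 w')
    exact_mod_cast h1.trans h2
  calc (B.card : ℝ) ≤ ((univ.biUnion fun w' => (F w').biUnion fun T => X w' T).card : ℝ) := by
        exact_mod_cast card_le_card hcover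
    _ ≤ ∑ w' : U → Fin D, (((F w').biUnion fun T => X w' T).card : ℝ) := by
        exact_mod_cast card_biUnion_le
    _ ≤ ∑ w' : U → Fin D, ∑ T ∈ F w', ((X w' T).card : ℝ) := by
        refine Finset.sum_le_sum fun w' _ => ?_
        exact_mod_cast card_biUnion_le
    _ ≤ ∑ w' : U → Fin D, ∑ T ∈ F w', (N * (1 / 4 : ℝ) ^ (l + 1)) :=
        Finset.sum_le_sum fun w' _ => Finset.sum_le_sum fun T hT => hXcard w' T hT
    _ = ∑ w' : U → Fin D, ((F w').card : ℝ) * (N * (1 / 4 : ℝ) ^ (l + 1)) := by
        simp [Finset.sum_const]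
    _ ≤ ∑ w' : U → Fin D, (2 : ℝ) ^ l * (N * (1 / 4 : ℝ) ^ (l + 1)) :=
        Finset.sum_le_sum fun w' _ => mul_le_mul_of_nonneg_right (hFcard w') (by positivity)
    _ = (D : ℝ) ^ Fintype.card U * N * ((1 / 2) ^ l / 4) := by
        rw [Finset.sum_const, card_univ, Fintype.card_fun, Fintype.card_fin, nsmul_eq_mul]
        push_cast
        have : (2 : ℝ) ^ l * (1 / 4) ^ (l + 1) = (1 / 2) ^ l / 4 := by
          rw [pow_succ, ← mul_assoc, ← mul_pow]; norm_num
          ring
        calc _ = (D : ℝ) ^ Fintype.card U * N * ((2 : ℝ) ^ l * (1 / 4) ^ (l + 1)) := by ring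
          _ = _ := by rw [this]

theorem card_cons {α : Type} [Fintype α] [DecidableEq α] (n : ℕ) (P : (Fin (n + 1) → α) → Prop)
    [DecidablePred P] : (univ.filter P).card =
      ∑ w : α, (univ.filter fun ω : Fin n → α => P (Fin.cons w ω)).card := by
  simp_rw [Finset.card_filter]
  rw [← Fintype.sum_prod_type' (f := fun (w : α) (ω : Fin n → α) =>
    if P (Fin.cons w ω : Fin (n + 1) → α) then 1 else 0)]
  exact (Fintype.sum_equiv (Fin.consEquiv (fun _ => α)) _ _ (fun p => rfl)).symm

theorem rounds {ι : Type} {D R N : ℕ} (hD : 1 ≤ D) (hR : R = 16 * D) (hN : 0 < N) :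
    ∀ (n l : ℕ) (G : Finset ι) (S : ι → Finset U), l < 2 ^ n → Spread R N G S →
      (∀ i ∈ G, (S i).card ≤ l) →
      ((univ.filter fun ω : Fin n → U → Fin D => ¬ ∃ j ∈ G, S j ⊆ noise ω).card : ℝ) ≤
        ((D : ℝ) ^ Fintype.card U) ^ n *
          (1 - (G.card : ℝ) / N + 1 / 4 * (1 - (1 / 2) ^ l)) := by
  classical
  have hNR : (0 : ℝ) < N := by exact_mod_cast hN
  -- the case of empty sets
  have h0 : ∀ (n : ℕ) (G : Finset ι) (S : ι → Finset U), Spread R N G S →
      (∀ i ∈ G, (S i).card ≤ 0) →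
      ((univ.filter fun ω : Fin n → U → Fin D => ¬ ∃ j ∈ G, S j ⊆ noise ω).card : ℝ) ≤
        ((D : ℝ) ^ Fintype.card U) ^ n *
          (1 - (G.card : ℝ) / N + 1 / 4 * (1 - (1 / 2) ^ 0)) := by
    intro n G S hsp hl
    rcases G.eq_empty_or_nonempty with hG | ⟨j, hj⟩
    · subst hG
      simp only [notMem_empty, false_and, exists_false, not_false_eq_true, filter_true, card_empty,
        Nat.cast_zero, zero_div, sub_zero, pow_zero, sub_self, mul_zero, add_zero, mul_one]
      rw [card_univ, Fintype.card_fun, Fintype.card_fun, Fintype.card_fin, Fintype.card_fin]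
      push_cast
      exact le_rfl
    · have hS : S j = ∅ := by
        rw [← card_eq_zero]
        exact Nat.le_zero.1 (hl j hj)
      have h1 : (univ.filter fun ω : Fin n → U → Fin D => ¬ ∃ j ∈ G, S j ⊆ noise ω) = ∅ := by
        rw [filter_eq_empty_iff]
        intro ω _ h
        exact h ⟨j, hj, by rw [hS]; exact empty_subset _⟩
      rw [h1, card_empty]
      have h2 : (G.card : ℝ) ≤ N := by
        have := hsp ∅
        simp only [card_empty, pow_zero, empty_subset, filter_true, one_mul] at this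
        exact_mod_cast this
      have h3 : (G.card : ℝ) / N ≤ 1 := by rw [div_le_one hNR]; exact h2
      push_cast
      apply mul_nonneg (by positivity)
      simp only [pow_zero, sub_self, mul_zero, add_zero]
      linarith
  intro n
  induction n with
  | zero =>
    intro l G S hl hsp hcard
    have hl0 : l = 0 := by simpa using hl
    subst hl0
    exact h0 0 G S hsp hcard
  | succ n ih =>
    intro l G S hl hsp hcard
    rcases Nat.eq_zero_or_pos l with hl0 | hlpos
    · subst hl0
      exact h0 (n + 1) G S hsp hcard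
    obtain ⟨G', S', hG', hsum⟩ := one_round hD hR G S hsp hcard
    have hl2 : l / 2 < 2 ^ n := by
      rw [pow_succ] at hl; omega
    set P : ℝ := (D : ℝ) ^ Fintype.card U with hP
    have hP0 : 0 ≤ P := by positivity
    have hstep : ∀ w : U → Fin D,
        ((univ.filter fun ω : Fin n → U → Fin D =>
          ¬ ∃ j ∈ G, S j ⊆ noise (Fin.cons w ω : Fin (n + 1) → U → Fin D)).card : ℝ) ≤
        P ^ n * (1 - ((G' w).card : ℝ) / N + 1 / 4 * (1 - (1 / 2) ^ (l / 2))) := by
      intro w
      have hsp' : Spread R N (G' w) (S' w) := by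
        intro T
        refine le_trans (Nat.mul_le_mul_left _ (card_le_card ?_)) (hsp T)
        intro i hi
        rw [mem_filter] at hi ⊢
        exact ⟨(hG' w).1 hi.1, hi.2.trans ((hG' w).2 i hi.1).1⟩
      have hcard' : ∀ i ∈ G' w, (S' w i).card ≤ l / 2 := fun i hi => ((hG' w).2 i hi).2.1
      refine le_trans ?_ (ih (l / 2) (G' w) (S' w) hl2 hsp' hcard')
      norm_cast
      apply card_le_card
      intro ω hω
      rw [mem_filter] at hω ⊢
      refine ⟨mem_univ _, ?_⟩
      rintro ⟨i, hi, hsub⟩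
      apply hω.2
      obtain ⟨j, hj, hj2⟩ := ((hG' w).2 i hi).2.2
      refine ⟨j, hj, ?_⟩
      rw [noise_cons]
      exact hj2.trans (union_subset_union_right hsub)
    rw [card_cons]
    push_cast
    calc ∑ w : U → Fin D, ((univ.filter fun ω : Fin n → U → Fin D =>
          ¬ ∃ j ∈ G, S j ⊆ noise (Fin.cons w ω : Fin (n + 1) → U → Fin D)).card : ℝ)
        ≤ ∑ w : U → Fin D, P ^ n * (1 - ((G' w).card : ℝ) / N + 1 / 4 * (1 - (1 / 2) ^ (l / 2))) :=
          Finset.sum_le_sum fun w _ => hstep w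
      _ = P ^ n * (∑ w : U → Fin D, ((1 - (G.card : ℝ) / N + 1 / 4 * (1 - (1 / 2) ^ (l / 2))) +
            ((G.card : ℝ) - (G' w).card) / N)) := by
          rw [Finset.mul_sum]
          refine Finset.sum_congr rfl fun w _ => ?_
          ring
      _ = P ^ n * (P * (1 - (G.card : ℝ) / N + 1 / 4 * (1 - (1 / 2) ^ (l / 2))) +
            (∑ w : U → Fin D, ((G.card : ℝ) - (G' w).card)) / N) := by
          rw [Finset.sum_add_distrib, Finset.sum_const, card_univ, Fintype.card_fun,
            Fintype.card_fin, nsmul_eq_mul, Finset.sum_div]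
          push_cast
          rfl
      _ ≤ P ^ n * (P * (1 - (G.card : ℝ) / N + 1 / 4 * (1 - (1 / 2) ^ (l / 2))) +
            (P * N * ((1 / 2) ^ l / 4)) / N) := by
          apply mul_le_mul_of_nonneg_left _ (by positivity)
          apply add_le_add_right
          exact div_le_div_of_nonneg_right hsum hNR.le
      _ = P ^ (n + 1) * (1 - (G.card : ℝ) / N + 1 / 4 * (1 - (1 / 2) ^ (l / 2)) +
            (1 / 2) ^ l / 4) := by
          rw [pow_succ]
          field_simp
          try ring
      _ ≤ P ^ (n + 1) * (1 - (G.card : ℝ) / N + 1 / 4 * (1 - (1 / 2) ^ l)) := by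
          apply mul_le_mul_of_nonneg_left _ (by positivity)
          have h1 : (1 / 2 : ℝ) ^ (l - 1) ≤ (1 / 2) ^ (l / 2) :=
            pow_le_pow_of_le_one (by norm_num) (by norm_num) (by omega)
          have h2 : (1 / 2 : ℝ) ^ l = (1 / 2) ^ (l - 1) * (1 / 2) := by
            rw [← pow_succ]; congr 1; omega
          rw [h2]
          linarith

/-- the robust sunflower bound for a block of `n` rounds: at most a quarter fails -/
theorem block {ι : Type} {D R n l : ℕ} (hD : 1 ≤ D) (hR : R = 16 * D) (hl : l < 2 ^ n)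
    (G : Finset ι) (hG : G.Nonempty) (S : ι → Finset U) (hsp : Spread R G.card G S)
    (hcard : ∀ i ∈ G, (S i).card ≤ l) :
    4 * (univ.filter fun ω : Fin n → U → Fin D => ¬ ∃ j ∈ G, S j ⊆ noise ω).card ≤
      (D ^ Fintype.card U) ^ n := by
  have hN : 0 < G.card := hG.card_pos
  have h := rounds hD hR hN n l G S hl hsp hcard
  have hNR : (0 : ℝ) < G.card := by exact_mod_cast hN
  rw [div_self hNR.ne'] at h
  have h2 : (1 : ℝ) - 1 + 1 / 4 * (1 - (1 / 2) ^ l) ≤ 1 / 4 := by
    have : (0 : ℝ) ≤ (1 / 2) ^ l := by positivity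
    linarith
  have h3 : ((univ.filter fun ω : Fin n → U → Fin D => ¬ ∃ j ∈ G, S j ⊆ noise ω).card : ℝ) ≤
      ((D : ℝ) ^ Fintype.card U) ^ n * (1 / 4) :=
    h.trans (mul_le_mul_of_nonneg_left h2 (by positivity))
  have h4 : (4 : ℝ) * ((univ.filter fun ω : Fin n → U → Fin D =>
      ¬ ∃ j ∈ G, S j ⊆ noise ω).card : ℝ) ≤ ((D : ℝ) ^ Fintype.card U) ^ n := by linarith
  exact_mod_cast h4

/-- the elements marked in `r` blocks of `n` rounds -/
def noise2 {D n r : ℕ} (ω : Fin r → Fin n → U → Fin D) : Finset U :=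
  univ.filter fun e => ∃ j i, (ω j i e : ℕ) = 0

theorem noise_sub_noise2 {D n r : ℕ} (ω : Fin r → Fin n → U → Fin D) (j : Fin r) :
    noise (ω j) ⊆ noise2 ω := by
  intro e he
  rw [mem_noise] at he
  obtain ⟨i, hi⟩ := he
  simp only [noise2, mem_filter, mem_univ, true_and]
  exact ⟨j, i, hi⟩

/-- the robust sunflower bound -/
theorem blocks {ι : Type} {D R n l : ℕ} (r : ℕ) (hD : 1 ≤ D) (hR : R = 16 * D) (hl : l < 2 ^ n)
    (G : Finset ι) (hG : G.Nonempty) (S : ι → Finset U) (hsp : Spread R G.card G S)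
    (hcard : ∀ i ∈ G, (S i).card ≤ l) :
    4 ^ r * (univ.filter fun ω : Fin r → Fin n → U → Fin D =>
      ¬ ∃ j ∈ G, S j ⊆ noise2 ω).card ≤ Fintype.card (Fin r → Fin n → U → Fin D) := by
  classical
  have h1 : (univ.filter fun ω : Fin r → Fin n → U → Fin D => ¬ ∃ j ∈ G, S j ⊆ noise2 ω) ⊆
      Fintype.piFinset fun _ : Fin r =>
        univ.filter fun ω : Fin n → U → Fin D => ¬ ∃ j ∈ G, S j ⊆ noise ω := by
    intro ω hω
    rw [mem_filter] at hω
    rw [Fintype.mem_piFinset]
    intro t
    rw [mem_filter]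
    refine ⟨mem_univ _, ?_⟩
    rintro ⟨j, hj, hsub⟩
    exact hω.2 ⟨j, hj, hsub.trans (noise_sub_noise2 ω t)⟩
  have h2 := card_le_card h1
  rw [Fintype.card_piFinset, Finset.prod_const, card_univ, Fintype.card_fin] at h2
  have h3 := block hD hR hl G hG S hsp hcard
  calc _ ≤ 4 ^ r * (univ.filter fun ω : Fin n → U → Fin D =>
        ¬ ∃ j ∈ G, S j ⊆ noise ω).card ^ r := Nat.mul_le_mul_left _ h2
    _ = (4 * (univ.filter fun ω : Fin n → U → Fin D =>
        ¬ ∃ j ∈ G, S j ⊆ noise ω).card) ^ r := by rw [mul_pow]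
    _ ≤ ((D ^ Fintype.card U) ^ n) ^ r := Nat.pow_le_pow_left h3 r
    _ = _ := by
      rw [Fintype.card_fun, Fintype.card_fun, Fintype.card_fun, Fintype.card_fin,
        Fintype.card_fin, Fintype.card_fin]

/-- A family of more than `R ^ l` sets of size `l` contains the members of a spread link. -/
theorem link {R l : ℕ} (F : Finset (Finset U)) (hF : ∀ A ∈ F, A.card = l)
    (hcard : R ^ l < F.card) :
    ∃ T : Finset U, ∃ G : Finset (Finset U), G ⊆ F ∧ G.Nonempty ∧ (∀ A ∈ G, T ⊂ A) ∧
      Spread R G.card G (fun A => A \ T) := by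
  classical
  have hne : (univ.filter fun T : Finset U => T.card ≤ l ∧
      R ^ (l - T.card) < (F.filter fun A => T ⊆ A).card).Nonempty := by
    refine ⟨∅, ?_⟩
    rw [mem_filter]
    refine ⟨mem_univ _, by simp, ?_⟩
    simpa using hcard
  obtain ⟨T, hT, hmax⟩ := exists_max_image _ (fun T : Finset U => T.card) hne
  rw [mem_filter] at hT
  obtain ⟨-, hTl, hTF⟩ := hT
  refine ⟨T, F.filter fun A => T ⊆ A, filter_subset _ _, ?_, ?_, ?_⟩
  · rw [← card_pos]; omega
  · intro A hA
    rw [mem_filter] at hA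
    rw [Finset.ssubset_iff_subset_ne]
    refine ⟨hA.2, ?_⟩
    rintro rfl
    have h1 := hF T hA.1
    have h2 : (F.filter fun A => T ⊆ A) ⊆ {T} := by
      intro B hB
      rw [mem_filter] at hB
      rw [mem_singleton]
      exact (Finset.eq_of_subset_of_card_le hB.2 (by rw [hF B hB.1, h1])).symm
    have h3 := card_le_card h2
    rw [card_singleton] at h3
    rw [h1, Nat.sub_self, pow_zero] at hTF
    omega
  · intro T'
    by_cases hT' : T' = ∅
    · subst hT'
      simp
    by_cases hcase : ((F.filter fun A => T ⊆ A).filter fun A => T' ⊆ A \ T) = ∅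
    · rw [hcase]; simp
    obtain ⟨A, hA⟩ := Finset.nonempty_iff_ne_empty.2 hcase
    rw [mem_filter, mem_filter] at hA
    have hdisj : Disjoint T T' := by
      rw [Finset.disjoint_left]
      intro e he he'
      exact (mem_sdiff.1 (hA.2 he')).2 he
    have hun : T ∪ T' ⊆ A := union_subset hA.1.2 (hA.2.trans sdiff_subset)
    have hcu : (T ∪ T').card = T.card + T'.card := card_union_of_disjoint hdisj
    have hle : T.card + T'.card ≤ l := by
      rw [← hcu, ← hF A hA.1.1]; exact card_le_card hun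
    have hpos : 0 < T'.card := card_pos.2 (nonempty_iff_ne_empty.2 hT')
    have hsub : ((F.filter fun A => T ⊆ A).filter fun A => T' ⊆ A \ T) ⊆
        F.filter fun A => T ∪ T' ⊆ A := by
      intro B hB
      rw [mem_filter, mem_filter] at hB
      rw [mem_filter]
      exact ⟨hB.1.1, union_subset hB.1.2 (hB.2.trans sdiff_subset)⟩
    have hnot : ¬ (R ^ (l - (T ∪ T').card) < (F.filter fun A => T ∪ T' ⊆ A).card) := by
      intro h
      have := hmax (T ∪ T') (by
        rw [mem_filter]
        exact ⟨mem_univ _, by omega, h⟩)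
      omega
    have h5 := card_le_card hsub
    have h6 : R ^ T'.card * R ^ (l - (T ∪ T').card) = R ^ (l - T.card) := by
      rw [← pow_add]; congr 1; omega
    calc R ^ T'.card * ((F.filter fun A => T ⊆ A).filter fun A => T' ⊆ A \ T).card
        ≤ R ^ T'.card * R ^ (l - (T ∪ T').card) := Nat.mul_le_mul_left _ (by omega)
      _ = R ^ (l - T.card) := h6
      _ ≤ _ := hTF.le

end Pool.Agent.V8H39.NP
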