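import Pool.Agent.H520R2.Prog
import Pool.Agent.V8H39.NP.Frag

/-!
# The approximation method with closures
-/

set_option linter.unusedSectionVars false

namespace Pool.Agent.V8H39.NP

open Finset Pool.Agent.H520R2

variable {U : Type} [Fintype U] [DecidableEq U]

/-- some member of the family is contained in `x` -/
def Acc (A : Finset (Finset U)) (x : Finset U) : Prop := ∃ S ∈ A, S ⊆ x

theorem Acc.mono {A : Finset (Finset U)} {x y : Finset U} (h : Acc A x) (hxy : x ⊆ y) :
    Acc A y := by
  obtain ⟨S, hS, hx⟩ := h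
  exact ⟨S, hS, hx.trans hxy⟩

theorem Acc.mono_left {A B : Finset (Finset U)} {x : Finset U} (h : Acc A x) (hAB : A ⊆ B) :
    Acc B x := by
  obtain ⟨S, hS, hx⟩ := h
  exact ⟨S, hAB hS, hx⟩

section closure

variable {Ω : Type} [Fintype Ω] (N : Ω → Finset U) (c E R : ℕ)

open Classical in
/-- closed families -/
def Closed (A : Finset (Finset U)) : Prop :=
  ∀ B : Finset U, B.card ≤ c → (univ.filter fun ω => ¬ Acc A (B ∪ N ω)).card ≤ E → Acc A B

open Classical in
theorem exists_closure : ∀ (m : ℕ) (A : Finset (Finset U)), (∀ S ∈ A, S.card ≤ c) →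
    (((univ : Finset (Finset U)).filter fun S => S.card ≤ c) \ A).card ≤ m →
    ∃ A' : Finset (Finset U), A ⊆ A' ∧ (∀ S ∈ A', S.card ≤ c) ∧ Closed N c E A' ∧
      (univ.filter fun ω => Acc A' (N ω) ∧ ¬ Acc A (N ω)).card ≤ m * E := by
  intro m
  induction m with
  | zero =>
    intro A hA hm
    refine ⟨A, Subset.rfl, hA, ?_, ?_⟩
    · intro B hB _
      by_contra hn
      have hBA : B ∉ A := fun h => hn ⟨B, h, Subset.rfl⟩
      have : B ∈ ((univ : Finset (Finset U)).filter fun S => S.card ≤ c) \ A := by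
        rw [mem_sdiff, mem_filter]; exact ⟨⟨mem_univ _, hB⟩, hBA⟩
      have := card_pos.2 ⟨B, this⟩
      omega
    · have : (univ.filter fun ω => Acc A (N ω) ∧ ¬ Acc A (N ω)) = ∅ := by
        rw [filter_eq_empty_iff]; intro ω _ h; exact h.2 h.1
      rw [this]; simp
  | succ m ih =>
    intro A hA hm
    by_cases hcl : Closed N c E A
    · refine ⟨A, Subset.rfl, hA, hcl, ?_⟩
      have : (univ.filter fun ω => Acc A (N ω) ∧ ¬ Acc A (N ω)) = ∅ := by
        rw [filter_eq_empty_iff]; intro ω _ h; exact h.2 h.1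
      rw [this]; simp
    · unfold Closed at hcl
      push Not at hcl
      obtain ⟨B, hB, hE, hn⟩ := hcl
      have hBA : B ∉ A := fun h => hn ⟨B, h, Subset.rfl⟩
      have hBm : B ∈ ((univ : Finset (Finset U)).filter fun S => S.card ≤ c) \ A := by
        rw [mem_sdiff, mem_filter]; exact ⟨⟨mem_univ _, hB⟩, hBA⟩
      obtain ⟨A', h1, h2, h3, h4⟩ := ih (insert B A) (by
        intro S hS
        rcases mem_insert.1 hS with rfl | hS
        · exact hB
        · exact hA S hS) (by
        have hss : ((univ : Finset (Finset U)).filter fun S => S.card ≤ c) \ insert B A ⊆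
            (((univ : Finset (Finset U)).filter fun S => S.card ≤ c) \ A).erase B := by
          intro S hS
          rw [mem_sdiff, mem_insert] at hS
          rw [mem_erase, mem_sdiff]
          push Not at hS
          exact ⟨hS.2.1, hS.1, hS.2.2⟩
        have := card_le_card hss
        rw [card_erase_of_mem hBm] at this
        omega)
      refine ⟨A', (subset_insert _ _).trans h1, h2, h3, ?_⟩
      have hcov : (univ.filter fun ω => Acc A' (N ω) ∧ ¬ Acc A (N ω)) ⊆
          (univ.filter fun ω => Acc A' (N ω) ∧ ¬ Acc (insert B A) (N ω)) ∪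
          (univ.filter fun ω => ¬ Acc A (B ∪ N ω)) := by
        intro ω hω
        rw [mem_filter] at hω
        rw [mem_union, mem_filter, mem_filter]
        by_cases hi : Acc (insert B A) (N ω)
        · right
          refine ⟨mem_univ _, ?_⟩
          obtain ⟨S, hS, hSN⟩ := hi
          rcases mem_insert.1 hS with rfl | hS
          · rw [union_eq_right.2 hSN]; exact hω.2.2
          · exact absurd ⟨S, hS, hSN⟩ hω.2.2
        · exact Or.inl ⟨mem_univ _, hω.2.1, hi⟩
      calc _ ≤ _ := card_le_card hcov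
        _ ≤ _ := card_union_le _ _
        _ ≤ m * E + E := Nat.add_le_add h4 hE
        _ = (m + 1) * E := by ring

/-- minimal members -/
def mins (A : Finset (Finset U)) : Finset (Finset U) :=
  A.filter fun S => ∀ T ∈ A, T ⊆ S → T = S

theorem acc_mins {A : Finset (Finset U)} {x : Finset U} (h : Acc A x) : Acc (mins A) x := by
  obtain ⟨S, hS, hx⟩ := h
  have hne : (A.filter fun T => T ⊆ S).Nonempty := ⟨S, mem_filter.2 ⟨hS, Subset.rfl⟩⟩
  obtain ⟨T, hT, hmin⟩ := exists_min_image _ (fun T : Finset U => T.card) hne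
  rw [mem_filter] at hT
  refine ⟨T, ?_, hT.2.trans hx⟩
  rw [mins, mem_filter]
  refine ⟨hT.1, fun T' hT' hsub => ?_⟩
  exact Finset.eq_of_subset_of_card_le hsub
    (hmin T' (mem_filter.2 ⟨hT', hsub.trans hT.2⟩))

open Classical in
/-- The hypothesis on the noise: large families of `l`-sets have a good kernel. -/
def Good : Prop :=
  ∀ l, 1 ≤ l → l ≤ c → ∀ F : Finset (Finset U), (∀ A ∈ F, A.card = l) → R ^ l < F.card →
    ∃ T : Finset U, (∃ A ∈ F, T ⊂ A) ∧
      (univ.filter fun ω => ¬ ∃ A ∈ F, A ⊆ T ∪ N ω).card ≤ E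

open Classical in
theorem mins_card {A : Finset (Finset U)} (hA : ∀ S ∈ A, S.card ≤ c) (hcl : Closed N c E A)
    (hG : Good N c E R) (l : ℕ) (hl : 1 ≤ l) :
    ((mins A).filter fun S => S.card = l).card ≤ R ^ l := by
  by_contra hcon
  push Not at hcon
  have hlc : l ≤ c := by
    have : ((mins A).filter fun S => S.card = l).Nonempty := by
      rw [← card_pos]; omega
    obtain ⟨S, hS⟩ := this
    rw [mem_filter, mins, mem_filter] at hS
    rw [← hS.2]; exact hA S hS.1.1
  obtain ⟨T, ⟨S, hS, hTS⟩, hT⟩ := hG l hl hlc _ (by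
    intro S hS; exact (mem_filter.1 hS).2) hcon
  have hTc : T.card ≤ c := by
    have := card_lt_card hTS
    rw [mem_filter, mins, mem_filter] at hS
    have := hA S hS.1.1
    omega
  have hacc := hcl T hTc (le_trans (card_le_card (by
    intro ω hω
    rw [mem_filter] at hω ⊢
    refine ⟨mem_univ _, ?_⟩
    rintro ⟨B, hB, hBs⟩
    apply hω.2
    rw [mem_filter, mins, mem_filter] at hB
    exact ⟨B, hB.1.1, hBs⟩)) hT)
  obtain ⟨B, hB, hBT⟩ := hacc
  rw [mem_filter, mins, mem_filter] at hS
  have := hS.1.2 B hB (hBT.trans hTS.subset)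
  rw [this] at hBT
  exact absurd (Finset.Subset.antisymm hTS.subset hBT) (Finset.ssubset_iff_subset_ne.1 hTS).2

end closure

/-- sparse families of small sets -/
def Sparse (R h : ℕ) (A : Finset (Finset U)) : Prop :=
  (∀ S ∈ A, S.card ≤ h) ∧ ∀ l, 1 ≤ l → (A.filter fun S => S.card = l).card ≤ R ^ l

section gate

variable {Ω Po : Type} [Fintype Ω] [Fintype Po] (N : Ω → Finset U) (S : Po → Finset U)
  (h E R b Q : ℕ)

open Classical in
/-- the positive test inputs are spread -/
def PosSpread (c Q : ℕ) : Prop :=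
  ∀ A : Finset U, A.card ≤ c → Q ^ A.card * (univ.filter fun P => A ⊆ S P).card ≤ Fintype.card Po

open Classical in
/-- a union bound for the positive test inputs -/
theorem pos_bound {c : ℕ} (hS : PosSpread S c Q) (hb : 2 ≤ b) (hbR : b * R ≤ Q) (hR : 1 ≤ R)
    (k : ℕ) (A : Finset (Finset U)) (hA : ∀ T ∈ A, k < T.card ∧ T.card ≤ c)
    (hcard : ∀ l, 1 ≤ l → (A.filter fun T => T.card = l).card ≤ R ^ l) :
    ((univ.filter fun P => Acc A (S P)).card : ℝ) * (b : ℝ) ^ k * (b - 1) ≤ Fintype.card Po := by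
  have hbR1 : (1 : ℝ) < b := by
    have : (2 : ℝ) ≤ b := by exact_mod_cast hb
    linarith
  have hb0 : (0 : ℝ) < b := by linarith
  have hcov : (univ.filter fun P => Acc A (S P)) ⊆
      (Finset.Ioc k c).biUnion fun l => (A.filter fun T => T.card = l).biUnion fun T =>
        univ.filter fun P => T ⊆ S P := by
    intro P hP
    rw [mem_filter] at hP
    obtain ⟨T, hT, hTS⟩ := hP.2
    rw [mem_biUnion]
    refine ⟨T.card, mem_Ioc.2 (hA T hT), ?_⟩
    rw [mem_biUnion]
    exact ⟨T, mem_filter.2 ⟨hT, rfl⟩, mem_filter.2 ⟨mem_univ _, hTS⟩⟩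
  have hterm : ∀ l ∈ Finset.Ioc k c, ((((A.filter fun T => T.card = l).biUnion fun T =>
      univ.filter fun P => T ⊆ S P).card : ℕ) : ℝ) ≤ Fintype.card Po * (1 / (b : ℝ)) ^ l := by
    intro l hl
    rw [mem_Ioc] at hl
    have h1 : (((A.filter fun T => T.card = l).biUnion fun T =>
        univ.filter fun P => T ⊆ S P).card : ℝ) ≤
        ∑ T ∈ A.filter fun T => T.card = l, ((univ.filter fun P => T ⊆ S P).card : ℝ) := by
      exact_mod_cast card_biUnion_le
    have hQ0 : (0 : ℝ) < Q := by
      have : 0 < Q := lt_of_lt_of_le (by positivity) hbR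
      exact_mod_cast this
    have h2 : ∀ T ∈ A.filter fun T => T.card = l,
        ((univ.filter fun P => T ⊆ S P).card : ℝ) ≤ Fintype.card Po / (Q : ℝ) ^ l := by
      intro T hT
      rw [mem_filter] at hT
      have h3 := hS T (hA T hT.1).2
      rw [hT.2] at h3
      rw [le_div_iff₀ (by positivity), mul_comm]
      exact_mod_cast h3
    have h3 := Finset.sum_le_sum h2
    rw [Finset.sum_const, nsmul_eq_mul] at h3
    have h4 : (((A.filter fun T => T.card = l).card : ℕ) : ℝ) ≤ (R : ℝ) ^ l := by
      exact_mod_cast hcard l (by omega)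
    have h5 : (R : ℝ) ^ l * (Fintype.card Po / (Q : ℝ) ^ l) ≤
        Fintype.card Po * (1 / (b : ℝ)) ^ l := by
      have h6 : ((b : ℝ) * R) ^ l ≤ (Q : ℝ) ^ l := by
        apply pow_le_pow_left₀ (by positivity)
        exact_mod_cast hbR
      rw [mul_pow] at h6
      rw [one_div, inv_pow, ← mul_div_assoc, ← div_eq_mul_inv, div_le_div_iff₀ (by positivity)
        (by positivity)]
      calc (R : ℝ) ^ l * (Fintype.card Po) * (b : ℝ) ^ l
          = Fintype.card Po * ((b : ℝ) ^ l * (R : ℝ) ^ l) := by ring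
        _ ≤ Fintype.card Po * (Q : ℝ) ^ l := mul_le_mul_of_nonneg_left h6 (by positivity)
    calc _ ≤ _ := h1
      _ ≤ _ := h3
      _ ≤ (R : ℝ) ^ l * (Fintype.card Po / (Q : ℝ) ^ l) :=
        mul_le_mul_of_nonneg_right h4 (by positivity)
      _ ≤ _ := h5
  have hsum : ((univ.filter fun P => Acc A (S P)).card : ℝ) ≤
      ∑ l ∈ Finset.Ioc k c, Fintype.card Po * (1 / (b : ℝ)) ^ l := by
    calc ((univ.filter fun P => Acc A (S P)).card : ℝ) ≤
        (((Finset.Ioc k c).biUnion fun l => (A.filter fun T => T.card = l).biUnion fun T =>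
        univ.filter fun P => T ⊆ S P).card : ℝ) := by exact_mod_cast card_le_card hcov
      _ ≤ ∑ l ∈ Finset.Ioc k c, ((((A.filter fun T => T.card = l).biUnion fun T =>
        univ.filter fun P => T ⊆ S P).card : ℕ) : ℝ) := by exact_mod_cast card_biUnion_le
      _ ≤ _ := Finset.sum_le_sum hterm
  have hgeo : ∀ m : ℕ, (∑ l ∈ Finset.Ioc k (k + m), (1 / (b : ℝ)) ^ l) * (b : ℝ) ^ k * (b - 1) ≤ 1 := by
    intro m
    have : (∑ l ∈ Finset.Ioc k (k + m), (1 / (b : ℝ)) ^ l) * (b : ℝ) ^ k * (b - 1) =
        1 - (1 / (b : ℝ)) ^ m := by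
      induction m with
      | zero => simp
      | succ m ih =>
        rw [← add_assoc, Finset.sum_Ioc_succ_top (by omega), add_mul, add_mul, ih]
        have h7 : (1 / (b : ℝ)) ^ (k + m + 1) * (b : ℝ) ^ k * (b - 1) =
            (1 / (b : ℝ)) ^ m - (1 / (b : ℝ)) ^ (m + 1) := by
          rw [show k + m + 1 = k + (m + 1) by ring, pow_add]
          have : (1 / (b : ℝ)) ^ k * (b : ℝ) ^ k = 1 := by
            rw [← mul_pow]; rw [one_div, inv_mul_cancel₀ hb0.ne', one_pow]
          calc _ = ((1 / (b : ℝ)) ^ k * (b : ℝ) ^ k) * ((1 / (b : ℝ)) ^ (m + 1) * (b - 1)) := by ring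
            _ = (1 / (b : ℝ)) ^ (m + 1) * (b - 1) := by rw [this, one_mul]
            _ = _ := by rw [pow_succ]; field_simp
        rw [h7]; ring
    rw [this]
    have : 0 ≤ (1 / (b : ℝ)) ^ m := by positivity
    linarith
  have hfin : (∑ l ∈ Finset.Ioc k c, (1 / (b : ℝ)) ^ l) * (b : ℝ) ^ k * (b - 1) ≤ 1 := by
    rcases Nat.le_total k c with hkc | hkc
    · obtain ⟨m, rfl⟩ := Nat.exists_eq_add_of_le hkc
      exact hgeo m
    · rw [Finset.Ioc_eq_empty (by omega)]; simp
  rw [← Finset.mul_sum] at hsum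
  calc _ ≤ (Fintype.card Po * ∑ l ∈ Finset.Ioc k c, (1 / (b : ℝ)) ^ l) * (b : ℝ) ^ k * (b - 1) := by
        apply mul_le_mul_of_nonneg_right _ (by linarith)
        exact mul_le_mul_of_nonneg_right hsum (by positivity)
    _ = Fintype.card Po * ((∑ l ∈ Finset.Ioc k c, (1 / (b : ℝ)) ^ l) * (b : ℝ) ^ k * (b - 1)) := by
        ring
    _ ≤ Fintype.card Po * 1 := mul_le_mul_of_nonneg_left hfin (by positivity)
    _ = _ := by ring

open Classical in
theorem trim (hG : Good N (2 * h) E R) (hS : PosSpread S (2 * h) Q) (hb : 2 ≤ b) (hbR : b * R ≤ Q)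
    (hR : 1 ≤ R) (A : Finset (Finset U)) (hA : ∀ T ∈ A, T.card ≤ 2 * h) :
    ∃ (C : Finset (Finset U)) (EN : Finset Ω) (EP : Finset Po), Sparse R h C ∧
      EN.card ≤ (Fintype.card U + 1) ^ (2 * h) * E ∧ EP.card * b ^ h ≤ Fintype.card Po ∧
      (∀ P, P ∉ EP → Acc A (S P) → Acc C (S P)) ∧ (∀ ω, ω ∉ EN → Acc C (N ω) → Acc A (N ω)) := by
  have hcardc : (((univ : Finset (Finset U)).filter fun S => S.card ≤ 2 * h) \ A).card ≤
      (Fintype.card U + 1) ^ (2 * h) := by
    refine le_trans (card_le_card sdiff_subset) ?_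
    -- sets of size at most `c` are images of functions
    have : ((univ : Finset (Finset U)).filter fun S => S.card ≤ 2 * h) ⊆
        (univ : Finset (Fin (2 * h) → Option U)).image
          (fun f => univ.filter fun e => ∃ j, f j = some e) := by
      intro T hT
      rw [mem_filter] at hT
      rw [mem_image]
      refine ⟨fun j => (T.toList[(j : ℕ)]?), mem_univ _, ?_⟩
      ext e
      simp only [mem_filter, mem_univ, true_and]
      constructor
      · rintro ⟨j, hj⟩
        exact Finset.mem_toList.1 (List.mem_of_getElem? hj)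
      · intro he
        rw [← Finset.mem_toList] at he
        obtain ⟨n, hn, hne⟩ := List.getElem_of_mem he
        refine ⟨⟨n, ?_⟩, ?_⟩
        · rw [Finset.length_toList] at hn; omega
        · simp only
          rw [List.getElem?_eq_getElem hn, hne]
    refine (card_le_card this).trans (card_image_le.trans ?_)
    rw [card_univ, Fintype.card_fun, Fintype.card_option, Fintype.card_fin]
  obtain ⟨A', h1, h2, h3, h4⟩ := exists_closure N (2 * h) E _ A hA hcardc
  set C := (mins A').filter fun T => T.card ≤ h with hC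
  set D := (mins A').filter fun T => ¬ T.card ≤ h with hD
  have hDb := pos_bound S R b Q hS hb hbR hR h D (by
    intro T hT
    rw [hD, mem_filter] at hT
    refine ⟨by omega, ?_⟩
    have := hT.1
    rw [mins, mem_filter] at this
    exact h2 T this.1) (by
    intro l hl
    refine le_trans (card_le_card ?_) (mins_card N (2 * h) E R h2 h3 hG l hl)
    intro T hT
    rw [mem_filter, hD, mem_filter] at hT
    rw [mem_filter]
    exact ⟨hT.1.1, hT.2⟩)
  refine ⟨C, univ.filter fun ω => Acc A' (N ω) ∧ ¬ Acc A (N ω), univ.filter fun P => Acc D (S P),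
    ⟨?_, ?_⟩, h4, ?_, ?_, ?_⟩
  · intro T hT
    exact (mem_filter.1 hT).2
  · intro l hl
    refine le_trans (card_le_card ?_) (mins_card N (2 * h) E R h2 h3 hG l hl)
    intro T hT
    rw [mem_filter, hC, mem_filter] at hT
    rw [mem_filter]
    exact ⟨hT.1.1, hT.2⟩
  · have hb1 : (1 : ℝ) ≤ (b : ℝ) - 1 := by
      have : (2 : ℝ) ≤ b := by exact_mod_cast hb
      linarith
    have h5 : ((univ.filter fun P => Acc D (S P)).card : ℝ) * (b : ℝ) ^ h ≤ Fintype.card Po := by
      refine le_trans ?_ hDb
      have : 0 ≤ ((univ.filter fun P => Acc D (S P)).card : ℝ) * (b : ℝ) ^ h := by positivity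
      nlinarith
    exact_mod_cast h5
  · intro P hP hacc
    have hP' : ¬ Acc D (S P) := by
      intro h; exact hP (mem_filter.2 ⟨mem_univ _, h⟩)
    obtain ⟨T, hT, hTS⟩ := acc_mins (hacc.mono_left h1)
    by_cases hTh : T.card ≤ h
    · exact ⟨T, mem_filter.2 ⟨hT, hTh⟩, hTS⟩
    · exact absurd ⟨T, mem_filter.2 ⟨hT, hTh⟩, hTS⟩ hP'
  · intro ω hω hacc
    by_contra hn
    apply hω
    rw [mem_filter]
    refine ⟨mem_univ _, ?_, hn⟩
    apply hacc.mono_left
    intro T hT
    rw [hC, mem_filter, mins, mem_filter] at hT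
    exact hT.1.1

/-- constants and variables -/
def VB (U : Type) : Set ((U → Bool) → Bool) :=
  {f | (∃ b, f = fun _ => b) ∨ ∃ i, f = fun x => x i}

/-- the indicator of a set -/
def ind (A : Finset U) : U → Bool := fun e => decide (e ∈ A)

theorem approx_base {f : (U → Bool) → Bool} (hf : f ∈ VB U) (hR : 1 ≤ R) (hh : 1 ≤ h) :
    ∃ A : Finset (Finset U), Sparse R h A ∧ ∀ x : Finset U, f (ind x) = true ↔ Acc A x := by
  rcases hf with ⟨v, rfl⟩ | ⟨i, rfl⟩
  · cases v with
    | true =>
      refine ⟨{∅}, ⟨?_, ?_⟩, ?_⟩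
      · intro S hS; rw [mem_singleton] at hS; rw [hS]; simp
      · intro l hl
        have : (({∅} : Finset (Finset U)).filter fun S => S.card = l) = ∅ := by
          rw [filter_eq_empty_iff]
          intro S hS
          rw [mem_singleton] at hS
          rw [hS, card_empty]; omega
        rw [this]; simp
      · intro x; simp [Acc]
    | false =>
      refine ⟨∅, ⟨?_, ?_⟩, ?_⟩
      · intro S hS; simp at hS
      · intro l hl; simp
      · intro x; simp [Acc]
  · refine ⟨{{i}}, ⟨?_, ?_⟩, ?_⟩
    · intro S hS; rw [mem_singleton] at hS; rw [hS]; simpa using hh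
    · intro l hl
      refine (card_filter_le _ _).trans ?_
      rw [card_singleton]
      exact Nat.one_le_pow _ _ hR
    · intro x; simp [Acc, ind]

theorem approx_prog (hG : Good N (2 * h) E R) (hS : PosSpread S (2 * h) Q) (hb : 2 ≤ b)
    (hbR : b * R ≤ Q) (hR : 1 ≤ R) (hh : 1 ≤ h) (L : List ((U → Bool) → Bool))
    (hL : MProg (VB U) L) :
    ∃ (EN : Finset Ω) (EP : Finset Po),
      EN.card ≤ L.length * ((Fintype.card U + 1) ^ (2 * h) * E) ∧
      EP.card * b ^ h ≤ L.length * Fintype.card Po ∧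
      ∀ f, Av (VB U) L f → ∃ A : Finset (Finset U), Sparse R h A ∧
        (∀ P, P ∉ EP → f (ind (S P)) = true → Acc A (S P)) ∧
        (∀ ω, ω ∉ EN → Acc A (N ω) → f (ind (N ω)) = true) := by
  classical
  induction hL with
  | nil =>
    refine ⟨∅, ∅, by simp, by simp, fun f hf => ?_⟩
    rcases hf with hf | hf
    · obtain ⟨A, hA, hAf⟩ := approx_base h R hf hR hh
      exact ⟨A, hA, fun P _ hP => (hAf _).1 hP, fun ω _ hω => (hAf _).2 hω⟩
    · simp at hf
  | @and L f g _ hf hg ih =>
    obtain ⟨EN, EP, h1, h2, h3⟩ := ih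
    obtain ⟨A, hA, hAP, hAN⟩ := h3 f hf
    obtain ⟨B, hB, hBP, hBN⟩ := h3 g hg
    obtain ⟨C, EN', EP', hC, hEN, hEP, hCP, hCN⟩ := trim N S h E R b Q hG hS hb hbR hR
      ((A ×ˢ B).image fun p => p.1 ∪ p.2) (by
        intro T hT
        rw [mem_image] at hT
        obtain ⟨⟨a, b'⟩, hp, rfl⟩ := hT
        rw [mem_product] at hp
        have := hA.1 a hp.1
        have := hB.1 b' hp.2
        have := card_union_le a b'
        simp only at *
        omega)
    refine ⟨EN ∪ EN', EP ∪ EP', ?_, ?_, ?_⟩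
    · calc _ ≤ _ := card_union_le _ _
        _ ≤ _ := Nat.add_le_add h1 hEN
        _ = _ := by rw [List.length_cons]; ring
    · calc _ ≤ (EP.card + EP'.card) * b ^ h := Nat.mul_le_mul_right _ (card_union_le _ _)
        _ = EP.card * b ^ h + EP'.card * b ^ h := by ring
        _ ≤ _ := Nat.add_le_add h2 hEP
        _ = _ := by rw [List.length_cons]; ring
    · intro f' hf'
      have hold : ∀ f' , Av (VB U) L f' → ∃ A : Finset (Finset U), Sparse R h A ∧
          (∀ P, P ∉ EP ∪ EP' → f' (ind (S P)) = true → Acc A (S P)) ∧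
          (∀ ω, ω ∉ EN ∪ EN' → Acc A (N ω) → f' (ind (N ω)) = true) := by
        intro f' hf'
        obtain ⟨A', hA', h4, h5⟩ := h3 f' hf'
        exact ⟨A', hA', fun P hP => h4 P (fun h => hP (mem_union_left _ h)),
          fun ω hω => h5 ω (fun h => hω (mem_union_left _ h))⟩
      rcases hf' with hf' | hf'
      · exact hold f' (Or.inl hf')
      · rcases List.mem_cons.1 hf' with rfl | hf'
        · refine ⟨C, hC, ?_, ?_⟩
          · intro P hP hfg
            rw [Bool.and_eq_true] at hfg
            apply hCP P (fun h => hP (mem_union_right _ h))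
            obtain ⟨a, ha, ha'⟩ := hAP P (fun h => hP (mem_union_left _ h)) hfg.1
            obtain ⟨b', hb', hb''⟩ := hBP P (fun h => hP (mem_union_left _ h)) hfg.2
            exact ⟨a ∪ b', mem_image.2 ⟨(a, b'), mem_product.2 ⟨ha, hb'⟩, rfl⟩,
              union_subset ha' hb''⟩
          · intro ω hω hacc
            obtain ⟨T, hT, hTN⟩ := hCN ω (fun h => hω (mem_union_right _ h)) hacc
            rw [mem_image] at hT
            obtain ⟨⟨a, b'⟩, hp, rfl⟩ := hT
            rw [mem_product] at hp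
            simp only at hTN hp
            rw [Bool.and_eq_true]
            exact ⟨hAN ω (fun h => hω (mem_union_left _ h)) ⟨a, hp.1, subset_union_left.trans hTN⟩,
              hBN ω (fun h => hω (mem_union_left _ h)) ⟨b', hp.2, subset_union_right.trans hTN⟩⟩
        · exact hold f' (Or.inr hf')
  | @or L f g _ hf hg ih =>
    obtain ⟨EN, EP, h1, h2, h3⟩ := ih
    obtain ⟨A, hA, hAP, hAN⟩ := h3 f hf
    obtain ⟨B, hB, hBP, hBN⟩ := h3 g hg
    obtain ⟨C, EN', EP', hC, hEN, hEP, hCP, hCN⟩ := trim N S h E R b Q hG hS hb hbR hR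
      (A ∪ B) (by
        intro T hT
        rcases mem_union.1 hT with hT | hT
        · have := hA.1 T hT; omega
        · have := hB.1 T hT; omega)
    refine ⟨EN ∪ EN', EP ∪ EP', ?_, ?_, ?_⟩
    · calc _ ≤ _ := card_union_le _ _
        _ ≤ _ := Nat.add_le_add h1 hEN
        _ = _ := by rw [List.length_cons]; ring
    · calc _ ≤ (EP.card + EP'.card) * b ^ h := Nat.mul_le_mul_right _ (card_union_le _ _)
        _ = EP.card * b ^ h + EP'.card * b ^ h := by ring
        _ ≤ _ := Nat.add_le_add h2 hEP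
        _ = _ := by rw [List.length_cons]; ring
    · intro f' hf'
      have hold : ∀ f' , Av (VB U) L f' → ∃ A : Finset (Finset U), Sparse R h A ∧
          (∀ P, P ∉ EP ∪ EP' → f' (ind (S P)) = true → Acc A (S P)) ∧
          (∀ ω, ω ∉ EN ∪ EN' → Acc A (N ω) → f' (ind (N ω)) = true) := by
        intro f' hf'
        obtain ⟨A', hA', h4, h5⟩ := h3 f' hf'
        exact ⟨A', hA', fun P hP => h4 P (fun h => hP (mem_union_left _ h)),
          fun ω hω => h5 ω (fun h => hω (mem_union_left _ h))⟩
      rcases hf' with hf' | hf'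
      · exact hold f' (Or.inl hf')
      · rcases List.mem_cons.1 hf' with rfl | hf'
        · refine ⟨C, hC, ?_, ?_⟩
          · intro P hP hfg
            rw [Bool.or_eq_true] at hfg
            apply hCP P (fun h => hP (mem_union_right _ h))
            rcases hfg with hfg | hfg
            · exact (hAP P (fun h => hP (mem_union_left _ h)) hfg).mono_left subset_union_left
            · exact (hBP P (fun h => hP (mem_union_left _ h)) hfg).mono_left subset_union_right
          · intro ω hω hacc
            obtain ⟨T, hT, hTN⟩ := hCN ω (fun h => hω (mem_union_right _ h)) hacc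
            rw [Bool.or_eq_true]
            rcases mem_union.1 hT with hT | hT
            · exact Or.inl (hAN ω (fun h => hω (mem_union_left _ h)) ⟨T, hT, hTN⟩)
            · exact Or.inr (hBN ω (fun h => hω (mem_union_left _ h)) ⟨T, hT, hTN⟩)
        · exact hold f' (Or.inr hf')

open Classical in
/-- The dichotomy: a function with a small monotone program rejects almost all positive test
inputs or accepts almost all noise. -/
theorem dichotomy (hG : Good N (2 * h) E R) (hS : PosSpread S (2 * h) Q) (hb : 2 ≤ b)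
    (hbR : b * R ≤ Q) (hR : 1 ≤ R) (hh : 1 ≤ h) {s : ℕ} {f : (U → Bool) → Bool}
    (hf : MComp (VB U) s f) :
    ((univ.filter fun ω => ¬ f (ind (N ω)) = true).card ≤
        s * ((Fintype.card U + 1) ^ (2 * h) * E)) ∨
    ((univ.filter fun P => f (ind (S P)) = true).card : ℝ) ≤
      Fintype.card Po * (s / (b : ℝ) ^ h + 1 / (b - 1)) := by
  obtain ⟨L, hL, hs, hf⟩ := hf
  obtain ⟨EN, EP, h1, h2, h3⟩ := approx_prog N S h E R b Q hG hS hb hbR hR hh L hL
  obtain ⟨A, hA, hAP, hAN⟩ := h3 f hf
  by_cases hem : ∅ ∈ A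
  · left
    calc (univ.filter fun ω => ¬ f (ind (N ω)) = true).card ≤ EN.card := by
          apply card_le_card
          intro ω hω
          rw [mem_filter] at hω
          by_contra hn
          exact hω.2 (hAN ω hn ⟨∅, hem, empty_subset _⟩)
      _ ≤ _ := h1
      _ ≤ _ := Nat.mul_le_mul_right _ hs
  · right
    have hb1 : (1 : ℝ) < b := by
      have : (2 : ℝ) ≤ b := by exact_mod_cast hb
      linarith
    have h4 := pos_bound S R b Q hS hb hbR hR 0 A (by
      intro T hT
      refine ⟨?_, ?_⟩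
      · rw [card_pos]
        rw [nonempty_iff_ne_empty]
        rintro rfl
        exact hem hT
      · have := hA.1 T hT; omega) hA.2
    rw [pow_zero, mul_one] at h4
    have h5 : ((univ.filter fun P => Acc A (S P)).card : ℝ) ≤ Fintype.card Po * (1 / (b - 1)) := by
      rw [mul_one_div, le_div_iff₀ (by linarith)]
      exact h4
    have h6 : (EP.card : ℝ) ≤ Fintype.card Po * (s / (b : ℝ) ^ h) := by
      have h7 : (EP.card : ℝ) * (b : ℝ) ^ h ≤ s * Fintype.card Po := by
        have : EP.card * b ^ h ≤ s * Fintype.card Po := h2.trans (Nat.mul_le_mul_right _ hs)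
        exact_mod_cast this
      rw [← mul_div_assoc, le_div_iff₀ (by positivity)]
      linarith
    have h8 : ((univ.filter fun P => f (ind (S P)) = true).card : ℝ) ≤
        EP.card + ((univ.filter fun P => Acc A (S P)).card : ℝ) := by
      have : (univ.filter fun P => f (ind (S P)) = true) ⊆
          EP ∪ (univ.filter fun P => Acc A (S P)) := by
        intro P hP
        rw [mem_filter] at hP
        by_cases hPE : P ∈ EP
        · exact mem_union_left _ hPE
        · exact mem_union_right _ (mem_filter.2 ⟨mem_univ _, hAP P hPE hP.2⟩)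
      exact_mod_cast (card_le_card this).trans (card_union_le _ _)
    calc _ ≤ _ := h8
      _ ≤ Fintype.card Po * (s / (b : ℝ) ^ h) + Fintype.card Po * (1 / (b - 1)) :=
        add_le_add h6 h5
      _ = _ := by ring

end gate

end Pool.Agent.V8H39.NP
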