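import Pool.Agent.V8H38.NL.Cover
import Pool.Agent.V8H39.NP.Approx

/-!
# Circuits, monotone programs, windows of slices
-/

set_option linter.unusedSectionVars false

namespace Pool.Agent.V8H39.NP

open Finset Pool.Agent.H520R2 Pool.Agent.V8H38.NL

variable {n : ℕ}

/-- value of node `i` -/
def nd (x : Fin n → Bool) (l : List (Gate n)) (i : ℕ) : Bool := (values x l).getD i false

theorem nd_lt (x : Fin n → Bool) (l : List (Gate n)) (g : Gate n) {i : ℕ} (hi : i < l.length) :
    nd x (l ++ [g]) i = nd x l i := by
  unfold nd
  rw [values_append, List.getD_append _ _ _ _ (by rw [values_length]; exact hi)]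

theorem nd_eq (x : Fin n → Bool) (l : List (Gate n)) (g : Gate n) :
    nd x (l ++ [g]) l.length = g.eval x (values x l) := by
  unfold nd
  rw [values_append, List.getD_append_right _ _ _ _ (by rw [values_length]), values_length]
  simp

theorem nd_gt (x : Fin n → Bool) (l : List (Gate n)) {i : ℕ} (hi : l.length ≤ i) :
    nd x l i = false := by
  unfold nd
  rw [List.getD_eq_default _ _ (by rw [values_length]; exact hi)]

theorem eval_eq_nd (C : Circuit n) (x : Fin n → Bool) : C.eval x = nd x C.nodes C.out := rfl

/-- Programs with NOT: `s` AND and OR gates, `t` NOT gates. -/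
inductive GP (n : ℕ) : ℕ → ℕ → List ((Fin n → Bool) → Bool) → Prop
  | nil : GP n 0 0 []
  | and {s t : ℕ} {L : List ((Fin n → Bool) → Bool)} {f g : (Fin n → Bool) → Bool} :
      GP n s t L → Av (VB (Fin n)) L f → Av (VB (Fin n)) L g →
      GP n (s + 1) t ((fun x => f x && g x) :: L)
  | or {s t : ℕ} {L : List ((Fin n → Bool) → Bool)} {f g : (Fin n → Bool) → Bool} :
      GP n s t L → Av (VB (Fin n)) L f → Av (VB (Fin n)) L g →
      GP n (s + 1) t ((fun x => f x || g x) :: L)
  | not {s t : ℕ} {L : List ((Fin n → Bool) → Bool)} {f : (Fin n → Bool) → Bool} :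
      GP n s t L → Av (VB (Fin n)) L f → GP n s (t + 1) ((fun x => !f x) :: L)

theorem GP.of_mprog {s t : ℕ} {L0 L : List ((Fin n → Bool) → Bool)} (h0 : GP n s t L0)
    (h : MProg (VB (Fin n)) (L ++ L0)) : GP n (s + L.length) t (L ++ L0) := by
  induction L with
  | nil => simpa using h0
  | cons f L ih =>
    rw [List.cons_append] at h ⊢
    rw [List.length_cons, ← add_assoc]
    cases h with
    | and h1 h2 h3 => exact GP.and (ih h1) h2 h3
    | or h1 h2 h3 => exact GP.or (ih h1) h2 h3

/-- appending a monotone program to a program -/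
theorem GP.append {s t : ℕ} {L0 L : List ((Fin n → Bool) → Bool)} (h0 : GP n s t L0)
    (h : MProg (VB (Fin n)) L) : GP n (s + L.length) t (L ++ L0) := by
  induction h with
  | nil => simpa using h0
  | @and L f g _ hf hg ih =>
    rw [List.cons_append, List.length_cons, ← add_assoc]
    exact GP.and ih (hf.imp id (List.mem_append_left _)) (hg.imp id (List.mem_append_left _))
  | @or L f g _ hf hg ih =>
    rw [List.cons_append, List.length_cons, ← add_assoc]
    exact GP.or ih (hf.imp id (List.mem_append_left _)) (hg.imp id (List.mem_append_left _))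

/-- programs as circuits -/
theorem GP.toNodes {s t : ℕ} {L : List ((Fin n → Bool) → Bool)} (h : GP n s t L) :
    ∃ l : List (Gate n), l.countP Gate.isAndOr = s ∧ l.countP Gate.isNot = t ∧
      ∀ f, Av (VB (Fin n)) L f → ∃ i < l.length, ∀ x, nd x l i = f x := by
  induction h with
  | nil =>
    -- the inputs and the constants
    have hin : ∀ k ≤ n, ∃ l : List (Gate n), l.countP Gate.isAndOr = 0 ∧
        l.countP Gate.isNot = 0 ∧ l.length = k ∧
        ∀ (i : Fin n), (i : ℕ) < k → ∀ x, nd x l (i : ℕ) = x i := by
      intro k
      induction k with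
      | zero => intro _; exact ⟨[], rfl, rfl, rfl, fun i hi => absurd hi (by omega)⟩
      | succ k ih =>
        intro hk
        obtain ⟨l, h1, h2, h3, h4⟩ := ih (by omega)
        refine ⟨l ++ [Gate.input ⟨k, hk⟩], ?_, ?_, ?_, ?_⟩
        · rw [List.countP_append, h1]; simp [Gate.isAndOr]
        · rw [List.countP_append, h2]; simp [Gate.isNot]
        · simp [h3]
        · intro i hi x
          rcases Nat.lt_or_ge (i : ℕ) k with h | h
          · rw [nd_lt x l _ (by omega), h4 i h x]
          · have hik : (i : ℕ) = l.length := by omega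
            rw [hik, nd_eq]
            show x ⟨k, hk⟩ = x i
            congr 1
            apply Fin.ext
            simp only
            omega
    obtain ⟨l, h1, h2, h3, h4⟩ := hin n le_rfl
    refine ⟨(l ++ [Gate.const true]) ++ [Gate.const false], ?_, ?_, ?_⟩
    · rw [List.countP_append, List.countP_append, h1]; simp [Gate.isAndOr]
    · rw [List.countP_append, List.countP_append, h2]; simp [Gate.isNot]
    · intro f hf
      rcases hf with hf | hf
      · rcases hf with ⟨b, rfl⟩ | ⟨i, rfl⟩
        · cases b with
          | true =>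
            refine ⟨l.length, by simp, fun x => ?_⟩
            rw [nd_lt _ _ _ (by simp), nd_eq]; rfl
          | false =>
            refine ⟨(l ++ [Gate.const true]).length, by simp, fun x => ?_⟩
            rw [nd_eq]; rfl
        · refine ⟨(i : ℕ), by simp; omega, fun x => ?_⟩
          rw [nd_lt _ _ _ (by simp; omega), nd_lt _ _ _ (by omega)]
          exact h4 i i.2 x
      · simp at hf
  | @and s t L f g _ hf hg ih =>
    obtain ⟨l, h1, h2, h3⟩ := ih
    obtain ⟨a, ha, hfa⟩ := h3 f hf
    obtain ⟨b, hb, hgb⟩ := h3 g hg
    refine ⟨l ++ [Gate.and a b], ?_, ?_, ?_⟩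
    · rw [List.countP_append, h1]; simp [Gate.isAndOr]
    · rw [List.countP_append, h2]; simp [Gate.isNot]
    · intro f' hf'
      have hold : ∀ f', Av (VB (Fin n)) L f' → ∃ i < (l ++ [Gate.and a b]).length,
          ∀ x, nd x (l ++ [Gate.and a b]) i = f' x := by
        intro f' hf'
        obtain ⟨i, hi, hi'⟩ := h3 f' hf'
        refine ⟨i, by simp; omega, fun x => ?_⟩
        rw [nd_lt _ _ _ hi, hi' x]
      rcases hf' with hf' | hf'
      · exact hold f' (Or.inl hf')
      · rcases List.mem_cons.1 hf' with rfl | hf'
        · refine ⟨l.length, by simp, fun x => ?_⟩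
          rw [nd_eq]
          show (nd x l a && nd x l b) = _
          rw [hfa, hgb]
        · exact hold f' (Or.inr hf')
  | @or s t L f g _ hf hg ih =>
    obtain ⟨l, h1, h2, h3⟩ := ih
    obtain ⟨a, ha, hfa⟩ := h3 f hf
    obtain ⟨b, hb, hgb⟩ := h3 g hg
    refine ⟨l ++ [Gate.or a b], ?_, ?_, ?_⟩
    · rw [List.countP_append, h1]; simp [Gate.isAndOr]
    · rw [List.countP_append, h2]; simp [Gate.isNot]
    · intro f' hf'
      have hold : ∀ f', Av (VB (Fin n)) L f' → ∃ i < (l ++ [Gate.or a b]).length,
          ∀ x, nd x (l ++ [Gate.or a b]) i = f' x := by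
        intro f' hf'
        obtain ⟨i, hi, hi'⟩ := h3 f' hf'
        refine ⟨i, by simp; omega, fun x => ?_⟩
        rw [nd_lt _ _ _ hi, hi' x]
      rcases hf' with hf' | hf'
      · exact hold f' (Or.inl hf')
      · rcases List.mem_cons.1 hf' with rfl | hf'
        · refine ⟨l.length, by simp, fun x => ?_⟩
          rw [nd_eq]
          show (nd x l a || nd x l b) = _
          rw [hfa, hgb]
        · exact hold f' (Or.inr hf')
  | @not s t L f _ hf ih =>
    obtain ⟨l, h1, h2, h3⟩ := ih
    obtain ⟨a, ha, hfa⟩ := h3 f hf
    refine ⟨l ++ [Gate.not a], ?_, ?_, ?_⟩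
    · rw [List.countP_append, h1]; simp [Gate.isAndOr]
    · rw [List.countP_append, h2]; simp [Gate.isNot]
    · intro f' hf'
      have hold : ∀ f', Av (VB (Fin n)) L f' → ∃ i < (l ++ [Gate.not a]).length,
          ∀ x, nd x (l ++ [Gate.not a]) i = f' x := by
        intro f' hf'
        obtain ⟨i, hi, hi'⟩ := h3 f' hf'
        refine ⟨i, by simp; omega, fun x => ?_⟩
        rw [nd_lt _ _ _ hi, hi' x]
      rcases hf' with hf' | hf'
      · exact hold f' (Or.inl hf')
      · rcases List.mem_cons.1 hf' with rfl | hf'
        · refine ⟨l.length, by simp, fun x => ?_⟩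
          rw [nd_eq]
          show (!nd x l a) = _
          rw [hfa]
        · exact hold f' (Or.inr hf')

theorem GP.toCircuit {s t : ℕ} {L : List ((Fin n → Bool) → Bool)} (h : GP n s t L)
    {f : (Fin n → Bool) → Bool} (hf : Av (VB (Fin n)) L f) :
    ∃ C : Circuit n, C.size = s ∧ C.nots = t ∧ ∀ x, C.eval x = f x := by
  obtain ⟨l, h1, h2, h3⟩ := h.toNodes
  obtain ⟨i, _, hi⟩ := h3 f hf
  exact ⟨⟨l, i⟩, h1, h2, hi⟩

/-- Two-rail simulation: a circuit with NOT gates is simulated by a monotone program in which the
negations of the variables are replaced by given functions `N i`. -/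
theorem dual {L0 : List ((Fin n → Bool) → Bool)} (hL0 : MProg (VB (Fin n)) L0)
    (N : Fin n → (Fin n → Bool) → Bool) (hN : ∀ i, Av (VB (Fin n)) L0 (N i))
    (l : List (Gate n)) :
    ∃ L' : List ((Fin n → Bool) → Bool), MProg (VB (Fin n)) (L' ++ L0) ∧
      L'.length ≤ 2 * l.countP Gate.isAndOr ∧
      ∀ j : ℕ, ∃ p m : (Fin n → Bool) → Bool, Av (VB (Fin n)) (L' ++ L0) p ∧
        Av (VB (Fin n)) (L' ++ L0) m ∧
        (∀ x, (∀ i, x i = false → N i x = true) →
          (nd x l j = true → p x = true) ∧ (nd x l j = false → m x = true)) ∧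
        (∀ x, (∀ i, x i = true → N i x = false) →
          (nd x l j = false → p x = false) ∧ (nd x l j = true → m x = false)) := by
  have hc : ∀ (b : Bool) (L : List ((Fin n → Bool) → Bool)), Av (VB (Fin n)) L (fun _ => b) :=
    fun b L => Or.inl (Or.inl ⟨b, rfl⟩)
  induction l using List.reverseRecOn with
  | nil =>
    refine ⟨[], by simpa using hL0, by simp, fun j => ⟨fun _ => false, fun _ => true, hc _ _, hc _ _,
      ?_, ?_⟩⟩
    · intro x _
      have : nd x ([] : List (Gate n)) j = false := nd_gt x [] (by simp)
      rw [this]; simp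
    · intro x _
      have : nd x ([] : List (Gate n)) j = false := nd_gt x [] (by simp)
      rw [this]; simp
  | append_singleton l g ih =>
    obtain ⟨L', h1, h2, h3⟩ := ih
    -- it is enough to treat the new node
    have key : ∀ L'' : List ((Fin n → Bool) → Bool), MProg (VB (Fin n)) (L'' ++ (L' ++ L0)) →
        L''.length ≤ 2 * [g].countP Gate.isAndOr →
        (∃ p m : (Fin n → Bool) → Bool, Av (VB (Fin n)) (L'' ++ (L' ++ L0)) p ∧
          Av (VB (Fin n)) (L'' ++ (L' ++ L0)) m ∧
        (∀ x, (∀ i, x i = false → N i x = true) →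
          (g.eval x (values x l) = true → p x = true) ∧
          (g.eval x (values x l) = false → m x = true)) ∧
        (∀ x, (∀ i, x i = true → N i x = false) →
          (g.eval x (values x l) = false → p x = false) ∧
          (g.eval x (values x l) = true → m x = false))) →
        ∃ L' : List ((Fin n → Bool) → Bool), MProg (VB (Fin n)) (L' ++ L0) ∧
      L'.length ≤ 2 * (l ++ [g]).countP Gate.isAndOr ∧
      ∀ j : ℕ, ∃ p m : (Fin n → Bool) → Bool, Av (VB (Fin n)) (L' ++ L0) p ∧
        Av (VB (Fin n)) (L' ++ L0) m ∧
        (∀ x, (∀ i, x i = false → N i x = true) →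
          (nd x (l ++ [g]) j = true → p x = true) ∧ (nd x (l ++ [g]) j = false → m x = true)) ∧
        (∀ x, (∀ i, x i = true → N i x = false) →
          (nd x (l ++ [g]) j = false → p x = false) ∧
          (nd x (l ++ [g]) j = true → m x = false)) := by
      intro L'' h4 h5 h6
      refine ⟨L'' ++ L', by simpa using h4, ?_, fun j => ?_⟩
      · rw [List.length_append, List.countP_append]; omega
      · rcases lt_trichotomy j l.length with hj | hj | hj
        · obtain ⟨p, m, hp, hm, hA, hB⟩ := h3 j
          refine ⟨p, m, by simpa using hp.mono L'', by simpa using hm.mono L'', ?_, ?_⟩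
          · intro x; rw [nd_lt x l g hj]; exact hA x
          · intro x; rw [nd_lt x l g hj]; exact hB x
        · obtain ⟨p, m, hp, hm, hA, hB⟩ := h6
          refine ⟨p, m, by simpa using hp, by simpa using hm, ?_, ?_⟩
          · intro x; rw [hj, nd_eq]; exact hA x
          · intro x; rw [hj, nd_eq]; exact hB x
        · refine ⟨fun _ => false, fun _ => true, hc _ _, hc _ _, ?_, ?_⟩
          · intro x _
            rw [nd_gt x (l ++ [g]) (by simp; omega)]; simp
          · intro x _
            rw [nd_gt x (l ++ [g]) (by simp; omega)]; simp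
    cases g with
    | input i =>
      refine key [] (by simpa using h1) (by simp) ⟨fun x => x i, N i, Or.inl (Or.inr ⟨i, rfl⟩),
        by simpa using (hN i).mono L', ?_, ?_⟩
      · intro x hx
        simp only [Gate.eval]
        exact ⟨id, hx i⟩
      · intro x hx
        simp only [Gate.eval]
        exact ⟨id, hx i⟩
    | const b =>
      refine key [] (by simpa using h1) (by simp) ⟨fun _ => b, fun _ => !b, hc _ _, hc _ _, ?_, ?_⟩
      · intro x _
        simp only [Gate.eval]
        cases b <;> simp
      · intro x _
        simp only [Gate.eval]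
        cases b <;> simp
    | not a =>
      obtain ⟨p, m, hp, hm, hA, hB⟩ := h3 a
      refine key [] (by simpa using h1) (by simp) ⟨m, p, by simpa using hm, by simpa using hp,
        ?_, ?_⟩
      · intro x hx
        have := hA x hx
        simp only [Gate.eval, Bool.not_eq_true', Bool.not_eq_false']
        exact ⟨this.2, this.1⟩
      · intro x hx
        have := hB x hx
        simp only [Gate.eval, Bool.not_eq_true', Bool.not_eq_false']
        exact ⟨this.2, this.1⟩
    | and a b =>
      obtain ⟨p, m, hp, hm, hA, hB⟩ := h3 a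
      obtain ⟨p', m', hp', hm', hA', hB'⟩ := h3 b
      have q1 := MProg.and h1 hp hp'
      have q2 := MProg.or q1 (hm.cons _) (hm'.cons _)
      refine key [(fun x => m x || m' x), (fun x => p x && p' x)] q2 (by simp [Gate.isAndOr])
        ⟨fun x => p x && p' x, fun x => m x || m' x, Or.inr (by simp), Or.inr (by simp), ?_, ?_⟩
      · intro x hx
        have e1 := hA x hx
        have e2 := hA' x hx
        refine ⟨fun h => ?_, fun h => ?_⟩
        · have h' : (nd x l a && nd x l b) = true := h
          rw [Bool.and_eq_true] at h' ⊢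
          exact ⟨e1.1 h'.1, e2.1 h'.2⟩
        · have h' : (nd x l a && nd x l b) = false := h
          rw [Bool.and_eq_false_iff] at h'
          rw [Bool.or_eq_true]
          exact h'.imp e1.2 e2.2
      · intro x hx
        have e1 := hB x hx
        have e2 := hB' x hx
        refine ⟨fun h => ?_, fun h => ?_⟩
        · have h' : (nd x l a && nd x l b) = false := h
          rw [Bool.and_eq_false_iff] at h' ⊢
          exact h'.imp e1.1 e2.1
        · have h' : (nd x l a && nd x l b) = true := h
          rw [Bool.and_eq_true] at h'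
          rw [Bool.or_eq_false_iff]
          exact ⟨e1.2 h'.1, e2.2 h'.2⟩
    | or a b =>
      obtain ⟨p, m, hp, hm, hA, hB⟩ := h3 a
      obtain ⟨p', m', hp', hm', hA', hB'⟩ := h3 b
      have q1 := MProg.or h1 hp hp'
      have q2 := MProg.and q1 (hm.cons _) (hm'.cons _)
      refine key [(fun x => m x && m' x), (fun x => p x || p' x)] q2 (by simp [Gate.isAndOr])
        ⟨fun x => p x || p' x, fun x => m x && m' x, Or.inr (by simp), Or.inr (by simp), ?_, ?_⟩
      · intro x hx
        have e1 := hA x hx
        have e2 := hA' x hx
        refine ⟨fun h => ?_, fun h => ?_⟩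
        · have h' : (nd x l a || nd x l b) = true := h
          rw [Bool.or_eq_true] at h' ⊢
          exact h'.imp e1.1 e2.1
        · have h' : (nd x l a || nd x l b) = false := h
          rw [Bool.or_eq_false_iff] at h'
          rw [Bool.and_eq_true]
          exact ⟨e1.2 h'.1, e2.2 h'.2⟩
      · intro x hx
        have e1 := hB x hx
        have e2 := hB' x hx
        refine ⟨fun h => ?_, fun h => ?_⟩
        · have h' : (nd x l a || nd x l b) = false := h
          rw [Bool.or_eq_false_iff] at h' ⊢
          exact ⟨e1.1 h'.1, e2.1 h'.2⟩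
        · have h' : (nd x l a || nd x l b) = true := h
          rw [Bool.or_eq_true] at h'
          rw [Bool.and_eq_false_iff]
          exact h'.imp e1.2 e2.2

/-- the number of ones -/
def wt (x : Fin n → Bool) : ℕ := (univ.filter fun i => x i = true).card

theorem cnt_vars (x : Fin n → Bool) : cnt ((List.finRange n).map fun i => fun x => x i) x = wt x := by
  unfold cnt wt
  rw [List.countP_map]
  rw [Finset.card_filter]
  have : ∀ l : List (Fin n), List.countP ((fun g : (Fin n → Bool) → Bool => g x) ∘
      fun i => fun x => x i) l = (l.map fun i => if x i = true then 1 else 0).sum := by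
    intro l
    induction l with
    | nil => rfl
    | cons a l ih =>
      rw [List.countP_cons, ih, List.map_cons, List.sum_cons]
      simp only [Function.comp_apply]
      ring
  rw [this, Finset.sum_eq_multiset_sum]
  simp [Finset.univ, Fintype.elems, List.finRange]

/-- setting one variable to zero -/
def zero (i : Fin n) (x : Fin n → Bool) : Fin n → Bool := Function.update x i false

theorem VB_zero (i : Fin n) : ∀ b ∈ VB (Fin n), b ∘ zero i ∈ VB (Fin n) := by
  intro b hb
  rcases hb with ⟨v, rfl⟩ | ⟨j, rfl⟩
  · exact Or.inl ⟨v, rfl⟩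
  · by_cases h : j = i
    · subst h
      exact Or.inl ⟨false, by funext x; simp [zero]⟩
    · exact Or.inr ⟨j, by funext x; simp [zero, Function.update_of_ne h]⟩

/-- The monotone programs `G_w` for windows of slices. -/
theorem window_prog (f : (Fin n → Bool) → Bool) (hf : Monotone f) (C : Circuit n) (a W : ℕ)
    (hC : ∀ x, a ≤ wt x → wt x ≤ a + W → C.eval x = f x) : ∀ w : ℕ, w ≤ W + 1 →
    ∃ (L : List ((Fin n → Bool) → Bool)) (g : (Fin n → Bool) → Bool),
      MProg (VB (Fin n)) L ∧ L.length ≤ (n + 1) ^ w * (2 * n ^ 2 + 2 * C.size + 1) ∧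
      Av (VB (Fin n)) L g ∧ (∀ x, a ≤ wt x → wt x ≤ a + W → f x = true → g x = true) ∧
      (∀ x, wt x < a + w → f x = false → g x = false) := by
  have htrue : (fun _ => true) ∈ VB (Fin n) := Or.inl ⟨true, rfl⟩
  have hfalse : (fun _ => false) ∈ VB (Fin n) := Or.inl ⟨false, rfl⟩
  have hwtn : ∀ x : Fin n → Bool, wt x ≤ n := by
    intro x
    unfold wt
    refine (card_le_univ _).trans ?_
    simp
  have hthr : a ≤ n → ∃ (L : List ((Fin n → Bool) → Bool)), MProg (VB (Fin n)) L ∧
      L.length ≤ 2 * n ^ 2 ∧
      Av (VB (Fin n)) L (thr ((List.finRange n).map fun i => fun x : Fin n → Bool => x i) a) := by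
    intro han
    obtain ⟨L, hL, hlen, hav⟩ := thr_prog (MProg.nil (B := VB (Fin n)))
      ((List.finRange n).map fun i => fun x : Fin n → Bool => x i) (by
        intro g hg
        rw [List.mem_map] at hg
        obtain ⟨i, _, rfl⟩ := hg
        exact Or.inl (Or.inr ⟨i, rfl⟩)) htrue hfalse n
    refine ⟨L, by simpa using hL, ?_, by simpa using hav a han⟩
    rw [List.length_map, List.length_finRange] at hlen
    nlinarith
  intro w
  induction w with
  | zero =>
    intro _
    by_cases han : a ≤ n
    · obtain ⟨L, hL, hlen, hav⟩ := hthr han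
      refine ⟨L, thr ((List.finRange n).map fun i => fun x : Fin n → Bool => x i) a,
        hL, ?_, hav, ?_, ?_⟩
      · rw [pow_zero, one_mul]
        omega
      · intro x hx _ _
        simp only [thr, cnt_vars, decide_eq_true_eq]
        exact hx
      · intro x hx _
        simp only [thr, cnt_vars, decide_eq_false_iff_not]
        omega
    · refine ⟨[], fun _ => false, MProg.nil, by simp, Or.inl hfalse, ?_, fun x _ _ => rfl⟩
      intro x hx
      have := hwtn x
      omega
  | succ w ih =>
    intro hwW
    obtain ⟨L, g, hL, hlen, hg, hg1, hg2⟩ := ih (by omega)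
    by_cases han : a ≤ n
    swap
    · refine ⟨[], fun _ => false, MProg.nil, by simp, Or.inl hfalse, ?_, fun x _ _ => rfl⟩
      intro x hx
      have := hwtn x
      omega
    obtain ⟨LT, hLT, hlenT, havT⟩ := hthr han
    -- the restrictions of the program
    have hres : ∀ I : List (Fin n), ∃ L1 : List ((Fin n → Bool) → Bool),
        MProg (VB (Fin n)) L1 ∧ L1.length = I.length * L.length ∧
        ∀ i ∈ I, Av (VB (Fin n)) L1 (g ∘ zero i) := by
      intro I
      induction I with
      | nil => exact ⟨[], MProg.nil, by simp, by simp⟩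
      | cons i I ih =>
        obtain ⟨L1, h1, h2, h3⟩ := ih
        have h4 := hL.comp (zero i) (VB_zero i)
        refine ⟨L.map (fun f => f ∘ zero i) ++ L1, h1.append h4, ?_, ?_⟩
        · rw [List.length_append, List.length_map, h2, List.length_cons]; ring
        · intro i' hi'
          rcases List.mem_cons.1 hi' with rfl | hi'
          · rcases hg with hg | hg
            · exact Or.inl (VB_zero _ _ hg)
            · exact Or.inr (List.mem_append_left _ (List.mem_map_of_mem hg))
          · exact (h3 i' hi').mono _
    obtain ⟨L1, h1, h2, h3⟩ := hres (List.finRange n)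
    obtain ⟨L', h4, h5, h6⟩ := dual h1 (fun i => g ∘ zero i) (fun i => h3 i (List.mem_finRange i))
      C.nodes
    obtain ⟨p, m, hp, _, hA, hB⟩ := h6 C.out
    have h7 : MProg (VB (Fin n)) (LT ++ (L' ++ L1)) := h4.append hLT
    have havT' : Av (VB (Fin n)) (LT ++ (L' ++ L1))
        (thr ((List.finRange n).map fun i => fun x : Fin n → Bool => x i) a) :=
      havT.imp id (List.mem_append_left _)
    refine ⟨_ :: (LT ++ (L' ++ L1)), fun x => p x &&
      thr ((List.finRange n).map fun i => fun x : Fin n → Bool => x i) a x,
      MProg.and h7 (hp.mono LT) havT', ?_, Or.inr List.mem_cons_self, ?_, ?_⟩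
    · rw [List.length_cons, List.length_append, List.length_append, h2, List.length_finRange]
      have hs : L'.length ≤ 2 * C.size := h5
      have h7 : 1 ≤ (n + 1) ^ w := Nat.one_le_pow _ _ (by omega)
      have h8 : 2 * n ^ 2 + 2 * C.size + 1 ≤ (n + 1) ^ w * (2 * n ^ 2 + 2 * C.size + 1) :=
        Nat.le_mul_of_pos_left _ h7
      have h9 : n * L.length ≤ n * ((n + 1) ^ w * (2 * n ^ 2 + 2 * C.size + 1)) :=
        Nat.mul_le_mul_left _ hlen
      calc _ ≤ (n + 1) ^ w * (2 * n ^ 2 + 2 * C.size + 1) +
              n * ((n + 1) ^ w * (2 * n ^ 2 + 2 * C.size + 1)) := by omega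
        _ = (n + 1) ^ (w + 1) * (2 * n ^ 2 + 2 * C.size + 1) := by rw [pow_succ]; ring
    · intro x hx hx2 hfx
      have hcond : ∀ i, x i = false → (g ∘ zero i) x = true := by
        intro i hi
        have : zero i x = x := by
          unfold zero
          rw [← hi]; exact Function.update_eq_self i x
        rw [Function.comp_apply, this]
        exact hg1 x hx hx2 hfx
      rw [Bool.and_eq_true]
      constructor
      · apply (hA x hcond).1
        rw [← eval_eq_nd, hC x hx hx2]; exact hfx
      · simp only [thr, cnt_vars, decide_eq_true_eq]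
        exact hx
    · intro x hx hfx
      rw [Bool.and_eq_false_iff]
      by_cases hxa : a ≤ wt x
      swap
      · right
        simp only [thr, cnt_vars, decide_eq_false_iff_not]
        exact hxa
      left
      have hcond : ∀ i, x i = true → (g ∘ zero i) x = false := by
        intro i hi
        rw [Function.comp_apply]
        apply hg2
        · -- the weight decreases
          have : wt (zero i x) + 1 = wt x := by
            unfold wt
            have h8 : (univ.filter fun j => x j = true) =
                insert i (univ.filter fun j => zero i x j = true) := by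
              ext j
              rw [mem_insert, mem_filter, mem_filter]
              by_cases hj : j = i
              · subst hj; simp [hi]
              · simp [zero, hj]
            rw [h8, card_insert_of_notMem]
            rw [mem_filter]
            simp [zero]
          omega
        · have hle : zero i x ≤ x := by
            intro j
            by_cases hj : j = i
            · subst hj; simp [zero]
            · simp [zero, Function.update_of_ne hj]
          have := hf hle
          rw [hfx] at this
          exact Bool.eq_false_iff.2 (fun h => by rw [h] at this; exact absurd this (by decide))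
      apply (hB x hcond).1
      rw [← eval_eq_nd, hC x hxa (by omega)]; exact hfx

end Pool.Agent.V8H39.NP
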