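import Mathlib

/-!
# Padding: half-cliques of a large graph and cliques of a small part
-/

set_option linter.unusedSectionVars false

namespace Pool.Agent.V8H39.NP

open Finset

variable {V : ℕ} {T : Type} [Fintype T]

/-- the edges with an endpoint in `A` and no endpoint outside `A` and the small part -/
def fixG (e : T ↪ Fin V) (A : Finset (Fin V)) : SimpleGraph (Fin V) where
  Adj u v := u ≠ v ∧ ((u ∈ A ∧ (v ∈ A ∨ v ∈ Set.range e)) ∨ (v ∈ A ∧ (u ∈ A ∨ u ∈ Set.range e)))
  symm := ⟨fun _ _ h => ⟨h.1.symm, h.2.symm⟩⟩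
  loopless := ⟨fun _ h => h.1 rfl⟩

/-- the large graph -/
def big (e : T ↪ Fin V) (A : Finset (Fin V)) (F : SimpleGraph (Fin V)) (H : SimpleGraph T) :
    SimpleGraph (Fin V) := H.map e ⊔ fixG e A ⊔ F

/-- admissible additional edges -/
structure Adm (e : T ↪ Fin V) (A : Finset (Fin V)) (κ : ℕ) (F : SimpleGraph (Fin V)) : Prop where
  out : ∀ u v, F.Adj u v → u ∉ Set.range e ∧ v ∉ Set.range e ∧ ¬ (u ∈ A ∧ v ∈ A)
  col : ∀ u v, F.Adj u v → u ∉ A → v ∉ A → (u : ℕ) % κ ≠ (v : ℕ) % κ

theorem big_adj_map {e : T ↪ Fin V} {A : Finset (Fin V)} {F : SimpleGraph (Fin V)} {κ : ℕ}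
    (hA : ∀ a, e a ∉ A) (hF : Adm e A κ F) (H : SimpleGraph T) (a b : T) :
    (big e A F H).Adj (e a) (e b) ↔ H.Adj a b := by
  unfold big
  simp only [SimpleGraph.sup_adj]
  constructor
  · rintro ((h | h) | h)
    · exact (SimpleGraph.map_adj_apply).1 h
    · rcases h.2 with h | h
      · exact absurd h.1 (hA a)
      · exact absurd h.1 (hA b)
    · exact absurd ⟨a, rfl⟩ (hF.out _ _ h).1
  · intro h
    exact Or.inl (Or.inl ((SimpleGraph.map_adj_apply).2 h))

theorem half_clique_iff {e : T ↪ Fin V} {A : Finset (Fin V)} {F : SimpleGraph (Fin V)} {κ K : ℕ}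
    (hA : ∀ a, e a ∉ A) (hκ : κ + 1 = K) (hκ0 : 0 < κ) (hF : Adm e A κ F) (h1 : V ≤ 2 * (A.card + K))
    (h2 : 2 * (A.card + K) ≤ V + 1) (H : SimpleGraph T) :
    (∃ S : Finset (Fin V), V ≤ 2 * S.card ∧ (big e A F H).IsClique (S : Set (Fin V))) ↔
      ∃ S : Finset T, K ≤ S.card ∧ H.IsClique (S : Set T) := by
  classical
  constructor
  · rintro ⟨S, hS1, hS2⟩
    by_cases hZ : ∃ z ∈ S, z ∉ A ∧ z ∉ Set.range e
    · exfalso
      obtain ⟨z, hzS, hzA, hze⟩ := hZ
      have hsub : ∀ u ∈ S, u ∉ Set.range e := by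
        intro u hu hue
        have hne : z ≠ u := by rintro rfl; exact hze hue
        have hadj := hS2 (mem_coe.2 hzS) (mem_coe.2 hu) hne
        unfold big at hadj
        simp only [SimpleGraph.sup_adj] at hadj
        rcases hadj with (h | h) | h
        · rw [SimpleGraph.map_adj] at h
          obtain ⟨a, b, _, rfl, _⟩ := h
          exact hze ⟨a, rfl⟩
        · rcases h.2 with h | h
          · exact hzA h.1
          · rcases h.2 with h' | h'
            · exact hzA h'
            · exact hze h'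
        · exact (hF.out _ _ h).2.1 hue
      have hcard : (S \ A).card ≤ κ := by
        have h3 : ((S \ A).image fun u : Fin V => (u : ℕ) % κ).card = (S \ A).card := by
          apply card_image_of_injOn
          intro u hu v hv huv
          rw [mem_coe, mem_sdiff] at hu hv
          by_contra hne
          have hadj := hS2 (mem_coe.2 hu.1) (mem_coe.2 hv.1) hne
          unfold big at hadj
          simp only [SimpleGraph.sup_adj] at hadj
          rcases hadj with (h | h) | h
          · rw [SimpleGraph.map_adj] at h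
            obtain ⟨a, b, _, rfl, _⟩ := h
            exact hsub _ hu.1 ⟨a, rfl⟩
          · rcases h.2 with h | h
            · exact hu.2 h.1
            · exact hv.2 h.1
          · exact hF.col _ _ h hu.2 hv.2 huv
        rw [← h3]
        refine (card_le_card (?_ : _ ⊆ range κ)).trans (by rw [card_range])
        intro x hx
        rw [mem_image] at hx
        obtain ⟨u, _, rfl⟩ := hx
        exact mem_range.2 (Nat.mod_lt _ hκ0)
      have h4 : S.card ≤ A.card + κ := by
        have h5 : S ⊆ A ∪ (S \ A) := by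
          intro u hu
          by_cases h : u ∈ A
          · exact mem_union_left _ h
          · exact mem_union_right _ (mem_sdiff.2 ⟨hu, h⟩)
        have h6 := (card_le_card h5).trans (card_union_le _ _)
        omega
      omega
    · push Not at hZ
      refine ⟨univ.filter fun a => e a ∈ S, ?_, ?_⟩
      · have h5 : S ⊆ A ∪ (univ.filter fun a => e a ∈ S).map e := by
          intro u hu
          by_cases h : u ∈ A
          · exact mem_union_left _ h
          · obtain ⟨a, rfl⟩ := hZ u hu h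
            exact mem_union_right _ (mem_map.2 ⟨a, mem_filter.2 ⟨mem_univ _, hu⟩, rfl⟩)
        have h6 := (card_le_card h5).trans (card_union_le _ _)
        rw [card_map] at h6
        omega
      · intro a ha b hb hab
        simp only [coe_filter, mem_univ, true_and, Set.mem_ofPred_eq] at ha hb
        exact (big_adj_map hA hF H a b).1
          (hS2 (mem_coe.2 ha) (mem_coe.2 hb) (fun h => hab (e.injective h)))
  · rintro ⟨S, hS1, hS2⟩
    refine ⟨A ∪ S.map e, ?_, ?_⟩
    · rw [card_union_of_disjoint, card_map]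
      · omega
      · rw [Finset.disjoint_left]
        intro u hu hu'
        rw [mem_map] at hu'
        obtain ⟨a, _, rfl⟩ := hu'
        exact hA a hu
    · intro u hu v hv huv
      rw [mem_coe, mem_union, mem_map] at hu hv
      rcases hu with hu | ⟨a, ha, rfl⟩
      · unfold big
        simp only [SimpleGraph.sup_adj]
        left; right
        refine ⟨huv, Or.inl ⟨hu, ?_⟩⟩
        rcases hv with hv | ⟨b, _, rfl⟩
        · exact Or.inl hv
        · exact Or.inr ⟨b, rfl⟩
      · rcases hv with hv | ⟨b, hb, rfl⟩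
        · unfold big
          simp only [SimpleGraph.sup_adj]
          left; right
          exact ⟨huv, Or.inr ⟨hv, Or.inr ⟨a, rfl⟩⟩⟩
        · rw [big_adj_map hA hF]
          exact hS2 (mem_coe.2 ha) (mem_coe.2 hb) (fun h => huv (by rw [h]))

/-- number of edges -/
theorem big_edges {e : T ↪ Fin V} {A : Finset (Fin V)} {F : SimpleGraph (Fin V)} {κ : ℕ}
    (hA : ∀ a, e a ∉ A) (hF : Adm e A κ F) (H : SimpleGraph T) :
    (big e A F H).edgeSet.ncard =
      H.edgeSet.ncard + ((fixG e A).edgeSet.ncard + F.edgeSet.ncard) := by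
  classical
  have h1 : (big e A F H).edgeSet = (H.map e).edgeSet ∪ ((fixG e A).edgeSet ∪ F.edgeSet) := by
    unfold big
    rw [SimpleGraph.edgeSet_sup, SimpleGraph.edgeSet_sup, Set.union_assoc]
  have h2 : (H.map e).edgeSet.ncard = H.edgeSet.ncard := by
    rw [SimpleGraph.edgeSet_map]
    exact Set.ncard_image_of_injective _ (Function.Embedding.injective _)
  have d1 : Disjoint (fixG e A).edgeSet F.edgeSet := by
    rw [Set.disjoint_left]
    intro x
    induction x using Sym2.ind with
    | _ u v =>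
      rw [SimpleGraph.mem_edgeSet, SimpleGraph.mem_edgeSet]
      intro h h'
      have := hF.out _ _ h'
      rcases h.2 with h | h
      · rcases h.2 with h'' | h''
        · exact this.2.2 ⟨h.1, h''⟩
        · exact this.2.1 h''
      · rcases h.2 with h'' | h''
        · exact this.2.2 ⟨h'', h.1⟩
        · exact this.1 h''
  have d2 : Disjoint (H.map e).edgeSet ((fixG e A).edgeSet ∪ F.edgeSet) := by
    rw [Set.disjoint_left]
    intro x
    induction x using Sym2.ind with
    | _ u v =>
      rw [Set.mem_union, SimpleGraph.mem_edgeSet, SimpleGraph.mem_edgeSet, SimpleGraph.mem_edgeSet,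
        SimpleGraph.map_adj]
      rintro ⟨a, b, _, rfl, rfl⟩ (h | h)
      · rcases h.2 with h | h
        · exact hA _ h.1
        · exact hA _ h.1
      · exact (hF.out _ _ h).1 ⟨a, rfl⟩
  rw [h1, Set.ncard_union_eq d2, Set.ncard_union_eq d1, h2]

/-- all admissible additional edges -/
def maxG (e : T ↪ Fin V) (A : Finset (Fin V)) (κ : ℕ) : SimpleGraph (Fin V) where
  Adj u v := u ≠ v ∧ u ∉ Set.range e ∧ v ∉ Set.range e ∧ ¬ (u ∈ A ∧ v ∈ A) ∧
    (u ∉ A → v ∉ A → (u : ℕ) % κ ≠ (v : ℕ) % κ)
  symm := ⟨fun _ _ h => ⟨h.1.symm, h.2.2.1, h.2.1, fun h' => h.2.2.2.1 h'.symm,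
    fun h1 h2 => (h.2.2.2.2 h2 h1).symm⟩⟩
  loopless := ⟨fun _ h => h.1 rfl⟩

theorem exists_adm (e : T ↪ Fin V) (A : Finset (Fin V)) (κ r : ℕ)
    (hr : r ≤ (maxG e A κ).edgeSet.ncard) :
    ∃ F : SimpleGraph (Fin V), Adm e A κ F ∧ F.edgeSet.ncard = r := by
  classical
  obtain ⟨s, hs1, hs2⟩ := Set.exists_subset_card_eq hr
  refine ⟨SimpleGraph.fromEdgeSet s, ⟨?_, ?_⟩, ?_⟩
  · intro u v h
    rw [SimpleGraph.fromEdgeSet_adj] at h
    have := hs1 h.1
    rw [SimpleGraph.mem_edgeSet] at this
    exact ⟨this.2.1, this.2.2.1, this.2.2.2.1⟩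
  · intro u v h
    rw [SimpleGraph.fromEdgeSet_adj] at h
    have := hs1 h.1
    rw [SimpleGraph.mem_edgeSet] at this
    exact this.2.2.2.2
  · rw [SimpleGraph.edgeSet_fromEdgeSet]
    have : s \ Sym2.diagSet = s := by
      ext x
      constructor
      · exact fun h => h.1
      · intro hx
        refine ⟨hx, fun hd => ?_⟩
        exact SimpleGraph.not_isDiag_of_mem_edgeSet _ (hs1 hx) (by simpa using hd)
    rw [this, hs2]

/-- twice the number of edges is the number of adjacent pairs -/
theorem two_mul_edges (G : SimpleGraph (Fin V)) :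
    2 * G.edgeSet.ncard = Set.ncard {p : Fin V × Fin V | G.Adj p.1 p.2} := by
  classical
  have h1 := G.sum_degrees_eq_twice_card_edges
  have h2 : G.edgeSet.ncard = G.edgeFinset.card := by
    rw [← SimpleGraph.coe_edgeFinset, Set.ncard_coe_finset]
  rw [h2, ← h1]
  have h3 : {p : Fin V × Fin V | G.Adj p.1 p.2} =
      ((univ : Finset (Fin V × Fin V)).filter fun p => G.Adj p.1 p.2 : Finset (Fin V × Fin V)) := by
    ext p; simp
  rw [h3, Set.ncard_coe_finset, Finset.card_filter, ← Finset.univ_product_univ,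
    Finset.sum_product]
  refine Finset.sum_congr rfl fun u _ => ?_
  rw [← Finset.card_filter, ← SimpleGraph.card_neighborFinset_eq_degree]
  congr 1
  ext v; simp

theorem fix_le (e : T ↪ Fin V) (A : Finset (Fin V)) :
    2 * (fixG e A).edgeSet.ncard ≤ (A.card + Fintype.card T) ^ 2 := by
  classical
  rw [two_mul_edges]
  have h1 : {p : Fin V × Fin V | (fixG e A).Adj p.1 p.2} ⊆
      (((A ∪ univ.map e) ×ˢ (A ∪ univ.map e) : Finset (Fin V × Fin V)) : Set (Fin V × Fin V)) := by
    rintro ⟨u, v⟩ h
    rw [mem_coe, mem_product, mem_union, mem_union, mem_map, mem_map]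
    have h' : (fixG e A).Adj u v := h
    have hr : ∀ w : Fin V, w ∈ Set.range e → ∃ a ∈ (univ : Finset T), e a = w := by
      rintro w ⟨a, rfl⟩; exact ⟨a, mem_univ _, rfl⟩
    rcases h'.2 with h' | h'
    · exact ⟨Or.inl h'.1, h'.2.imp id (hr v)⟩
    · exact ⟨h'.2.imp id (hr u), Or.inl h'.1⟩
  have h2 := Set.ncard_le_ncard h1 (Set.toFinite _)
  rw [Set.ncard_coe_finset, card_product] at h2
  have h3 : (A ∪ univ.map e).card ≤ A.card + Fintype.card T := by
    refine (card_union_le _ _).trans ?_
    rw [card_map, card_univ]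
  calc _ ≤ _ := h2
    _ ≤ (A.card + Fintype.card T) * (A.card + Fintype.card T) := Nat.mul_le_mul h3 h3
    _ = _ := by ring

theorem max_ge (e : T ↪ Fin V) (A : Finset (Fin V)) (κ : ℕ) :
    V ^ 2 ≤ V + 2 * (fixG e A).edgeSet.ncard + 2 * (maxG e A κ).edgeSet.ncard +
      2 * Fintype.card T * V + V * (V / κ + 1) := by
  classical
  rw [two_mul_edges, two_mul_edges]
  set P1 : Finset (Fin V × Fin V) := univ.filter fun p => p.1 = p.2 with hP1
  set P2 : Finset (Fin V × Fin V) := univ.filter fun p => (fixG e A).Adj p.1 p.2 with hP2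
  set P3 : Finset (Fin V × Fin V) := univ.filter fun p => (maxG e A κ).Adj p.1 p.2 with hP3
  set P4 : Finset (Fin V × Fin V) := (univ.map e) ×ˢ univ with hP4
  set P5 : Finset (Fin V × Fin V) := univ ×ˢ (univ.map e) with hP5
  set P6 : Finset (Fin V × Fin V) := univ.filter fun p => (p.1 : ℕ) % κ = (p.2 : ℕ) % κ with hP6
  have hcov : (univ : Finset (Fin V × Fin V)) ⊆ P1 ∪ (P2 ∪ (P3 ∪ (P4 ∪ (P5 ∪ P6)))) := by
    rintro ⟨u, v⟩ _
    simp only [hP1, hP2, hP3, hP4, hP5, hP6, mem_union, mem_filter, mem_univ, true_and,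
      mem_product, and_true, mem_map]
    by_cases h1 : u = v
    · exact Or.inl h1
    by_cases h4 : ∃ a, e a = u
    · exact Or.inr (Or.inr (Or.inr (Or.inl h4)))
    by_cases h5 : ∃ a, e a = v
    · exact Or.inr (Or.inr (Or.inr (Or.inr (Or.inl h5))))
    by_cases h6 : (u : ℕ) % κ = (v : ℕ) % κ
    · exact Or.inr (Or.inr (Or.inr (Or.inr (Or.inr h6))))
    by_cases h7 : u ∈ A ∧ v ∈ A
    · exact Or.inr (Or.inl ⟨h1, Or.inl ⟨h7.1, Or.inl h7.2⟩⟩)
    · exact Or.inr (Or.inr (Or.inl ⟨h1, h4, h5, h7, fun _ _ => h6⟩))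
  have c1 : P1.card ≤ V := by
    have : P1 ⊆ (univ : Finset (Fin V)).image fun u => (u, u) := by
      rintro ⟨u, v⟩ h
      rw [hP1, mem_filter] at h
      have h' : u = v := h.2
      subst h'
      exact mem_image.2 ⟨u, mem_univ _, rfl⟩
    refine (card_le_card this).trans (card_image_le.trans ?_)
    rw [card_univ, Fintype.card_fin]
  have c2 : P2.card = Set.ncard {p : Fin V × Fin V | (fixG e A).Adj p.1 p.2} := by
    rw [← Set.ncard_coe_finset]; congr 1; ext p; simp [hP2]
  have c3 : P3.card = Set.ncard {p : Fin V × Fin V | (maxG e A κ).Adj p.1 p.2} := by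
    rw [← Set.ncard_coe_finset]; congr 1; ext p; simp [hP3]
  have c4 : P4.card = Fintype.card T * V := by
    rw [hP4, card_product, card_map, card_univ, card_univ, Fintype.card_fin]
  have c5 : P5.card = Fintype.card T * V := by
    rw [hP5, card_product, card_map, card_univ, card_univ, Fintype.card_fin, mul_comm]
  have c6 : P6.card ≤ V * (V / κ + 1) := by
    have : P6 ⊆ (univ : Finset (Fin V)).biUnion fun u =>
        (univ.filter fun v : Fin V => (u : ℕ) % κ = (v : ℕ) % κ).image fun v => (u, v) := by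
      rintro ⟨u, v⟩ h
      rw [hP6, mem_filter] at h
      rw [mem_biUnion]
      exact ⟨u, mem_univ _, mem_image.2 ⟨v, mem_filter.2 ⟨mem_univ _, h.2⟩, rfl⟩⟩
    refine (card_le_card this).trans (card_biUnion_le.trans ?_)
    calc _ ≤ ∑ u : Fin V, (V / κ + 1) := by
          refine Finset.sum_le_sum fun u _ => card_image_le.trans ?_
          rw [← card_range (V / κ + 1)]
          apply card_le_card_of_injOn (fun v : Fin V => (v : ℕ) / κ)
          · intro v _
            rw [mem_coe, mem_range]
            exact Nat.lt_succ_of_le (Nat.div_le_div_right v.2.le)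
          · intro v hv v' hv' h
            rw [mem_coe, mem_filter] at hv hv'
            have h1 := Nat.div_add_mod (v : ℕ) κ
            have h2 := Nat.div_add_mod (v' : ℕ) κ
            have h3 : (v : ℕ) / κ = (v' : ℕ) / κ := h
            apply Fin.ext
            rw [← h1, ← h2, h3, ← hv.2, hv'.2]
      _ = _ := by rw [Finset.sum_const, card_univ, Fintype.card_fin, smul_eq_mul]
  have h := card_le_card hcov
  rw [card_univ, Fintype.card_prod, Fintype.card_fin] at h
  have h1 := card_union_le P1 (P2 ∪ (P3 ∪ (P4 ∪ (P5 ∪ P6))))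
  have h2 := card_union_le P2 (P3 ∪ (P4 ∪ (P5 ∪ P6)))
  have h3 := card_union_le P3 (P4 ∪ (P5 ∪ P6))
  have h4 := card_union_le P4 (P5 ∪ P6)
  have h5 := card_union_le P5 P6
  rw [← c2, ← c3]
  have h6 : V ^ 2 = V * V := sq V
  have h7 : 2 * Fintype.card T * V = Fintype.card T * V + Fintype.card T * V := by ring
  omega

end Pool.Agent.V8H39.NP
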