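import Pool.Agent.V8H39.NP.RS
import Pool.Agent.V8H39.NP.Pad

/-!
# A graph whose large cliques are the polynomials with given values allowed
-/

set_option linter.unusedSectionVars false

namespace Pool.Agent.V8H39.NP

open Finset

/-- The vertices of the gadget: `(i, j, u, v)` says that the sum of the first `j` terms of the
polynomial at `i` is `u` and that the coefficient number `j` is `v`; `(i, y)` says that the value
at `i` is `y`; and there are further vertices `b`. -/
abbrev Vx (q M k : ℕ) (B : Type) : Type :=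
  (Fin M × Fin k × ZMod q × ZMod q) ⊕ (Fin M × ZMod q) ⊕ B

/-- the data of the further vertices -/
structure Side (q M : ℕ) (B : Type) (m : ℕ) where
  β : Fin M × ZMod q → B
  pb : B → Fin m
  ρ : Fin M → Fin m
  h1 : ∀ u, pb (β u) = ρ u.1
  h2 : ∀ t, ∃ i, ρ i = t
  h3 : ∀ i i', ρ i = ρ i' → i = i' ∨ ∀ b b', pb b = ρ i → pb b' = ρ i → b = b'

variable {q M k m : ℕ} {B : Type}

/-- half of the adjacency relation -/
def Rel (D : Side q M B m) (y : Fin M × ZMod q → Bool) : Vx q M k B → Vx q M k B → Prop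
  | .inl (i, j, u, v), .inl (i', j', u', v') =>
      ¬ (i = i' ∧ j = j') ∧ (j = j' → v = v') ∧
      (i = i' → (j : ℕ) + 1 = j' → u' = u + v * ((i : ℕ) : ZMod q) ^ (j : ℕ))
  | .inl (i, j, u, v), .inr (.inl (i', z)) =>
      (i = i' → (j : ℕ) + 1 = k → z = u + v * ((i : ℕ) : ZMod q) ^ (j : ℕ)) ∧ ((j : ℕ) = 0 → u = 0)
  | .inr (.inl u), .inr (.inl u') => u.1 ≠ u'.1
  | .inr (.inl u), .inr (.inr b) => D.pb b = D.ρ u.1 → (b = D.β u ∧ y u = true)
  | .inr (.inr b), .inr (.inr b') => D.pb b ≠ D.pb b'
  | _, _ => True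

/-- the gadget graph -/
def gad (D : Side q M B m) (y : Fin M × ZMod q → Bool) : SimpleGraph (Vx q M k B) where
  Adj s t := s ≠ t ∧ Rel D y s t ∧ Rel D y t s
  symm := ⟨fun _ _ h => ⟨h.1.symm, h.2.2, h.2.1⟩⟩
  loopless := ⟨fun _ h => h.1 rfl⟩

/-- positions -/
def pos (D : Side q M B m) : Vx q M k B → (Fin M × Fin k) ⊕ Fin M ⊕ Fin m
  | .inl (i, j, _, _) => .inl (i, j)
  | .inr (.inl u) => .inr (.inl u.1)
  | .inr (.inr b) => .inr (.inr (D.pb b))

theorem pos_ne (D : Side q M B m) (y : Fin M × ZMod q → Bool) {s t : Vx q M k B}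
    (h : (gad D y).Adj s t) : pos D s ≠ pos D t := by
  obtain ⟨-, h1, -⟩ := h
  intro heq
  rcases s with ⟨i, j, u, v⟩ | u | b
  · rcases t with ⟨i', j', u', v'⟩ | u' | b'
    · simp only [pos, Sum.inl.injEq, Prod.mk.injEq] at heq
      exact h1.1 heq
    · simp [pos] at heq
    · simp [pos] at heq
  · rcases t with ⟨i', j', u', v'⟩ | u' | b'
    · simp [pos] at heq
    · simp only [pos, Sum.inr.injEq, Sum.inl.injEq] at heq
      exact h1 heq
    · simp [pos] at heq
  · rcases t with ⟨i', j', u', v'⟩ | u' | b'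
    · simp [pos] at heq
    · simp [pos] at heq
    · simp only [pos, Sum.inr.injEq] at heq
      exact h1 heq

/-- partial sums -/
def psum (c : Fin k → ZMod q) (i l : ℕ) : ZMod q :=
  ∑ j : Fin k, if (j : ℕ) < l then c j * (i : ZMod q) ^ (j : ℕ) else 0

theorem psum_zero (c : Fin k → ZMod q) (i : ℕ) : psum c i 0 = 0 := by simp [psum]

theorem psum_succ (c : Fin k → ZMod q) (i : ℕ) (j : Fin k) :
    psum c i ((j : ℕ) + 1) = psum c i (j : ℕ) + c j * (i : ZMod q) ^ (j : ℕ) := by
  unfold psum
  have h : ∀ l : Fin k, (if (l : ℕ) < (j : ℕ) + 1 then c l * (i : ZMod q) ^ (l : ℕ) else 0) =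
      (if (l : ℕ) < (j : ℕ) then c l * (i : ZMod q) ^ (l : ℕ) else 0) +
      (if l = j then c l * (i : ZMod q) ^ (l : ℕ) else 0) := by
    intro l
    rcases lt_trichotomy (l : ℕ) (j : ℕ) with h | h | h
    · have h2 : l ≠ j := fun h' => by rw [h'] at h; exact absurd h (lt_irrefl _)
      rw [if_pos (by omega), if_pos h, if_neg h2, add_zero]
    · have h2 : l = j := Fin.ext h
      rw [if_pos (by omega), if_neg (by omega), if_pos h2, zero_add]
    · have h2 : l ≠ j := fun h' => by rw [h'] at h; exact absurd h (lt_irrefl _)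
      rw [if_neg (by omega), if_neg (by omega), if_neg h2, add_zero]
  rw [Finset.sum_congr rfl fun l _ => h l, Finset.sum_add_distrib]
  congr 1
  rw [Finset.sum_ite_eq' univ j]
  simp

theorem psum_all (c : Fin k → ZMod q) (i : ℕ) : psum c i k = pval c i := by
  unfold psum pval
  refine Finset.sum_congr rfl fun j _ => ?_
  rw [if_pos j.2]

theorem core_clique [Fintype B] [NeZero q] (hk : 1 ≤ k) (D : Side q M B m)
    (y : Fin M × ZMod q → Bool) :
    (∃ S : Finset (Vx q M k B), M * k + M + m ≤ S.card ∧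
      (gad D y).IsClique (S : Set (Vx q M k B))) ↔ HasCw q M k y := by
  classical
  have hposcard : Fintype.card ((Fin M × Fin k) ⊕ Fin M ⊕ Fin m) = M * k + M + m := by
    simp only [Fintype.card_sum, Fintype.card_prod, Fintype.card_fin]; ring
  constructor
  · rintro ⟨S, hS1, hS2⟩
    have hinj : Set.InjOn (pos (k := k) D) (S : Set (Vx q M k B)) := by
      intro s hs t ht hst
      by_contra hne
      exact pos_ne D y (hS2 hs ht hne) hst
    have himg : S.image (pos D) = univ := by
      apply Finset.eq_univ_of_card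
      rw [hposcard]
      apply le_antisymm
      · rw [← hposcard]; exact card_le_univ _
      · rw [card_image_of_injOn hinj]; exact hS1
    have hex : ∀ p, ∃ s ∈ S, pos D s = p := by
      intro p
      have : p ∈ S.image (pos D) := by rw [himg]; exact mem_univ _
      rw [mem_image] at this
      exact this
    have hadj : ∀ s ∈ S, ∀ t ∈ S, pos D s ≠ pos D t → Rel D y s t := by
      intro s hs t ht hne
      exact (hS2 (mem_coe.2 hs) (mem_coe.2 ht) (fun h => hne (by rw [h]))).2.1
    have hin : ∀ i : Fin M, ∀ j : Fin k, ∃ u v : ZMod q,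
        (Sum.inl (i, j, u, v) : Vx q M k B) ∈ S := by
      intro i j
      obtain ⟨s, hs, hp⟩ := hex (.inl (i, j))
      rcases s with ⟨i', j', u, v⟩ | u | b
      · simp only [pos, Sum.inl.injEq, Prod.mk.injEq] at hp
        obtain ⟨rfl, rfl⟩ := hp
        exact ⟨u, v, hs⟩
      · simp [pos] at hp
      · simp [pos] at hp
    have hout : ∀ i : Fin M, ∃ z : ZMod q, (Sum.inr (Sum.inl (i, z)) : Vx q M k B) ∈ S := by
      intro i
      obtain ⟨s, hs, hp⟩ := hex (.inr (.inl i))
      rcases s with ⟨i', j', u, v⟩ | ⟨i', z⟩ | b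
      · simp [pos] at hp
      · simp only [pos, Sum.inr.injEq, Sum.inl.injEq] at hp
        subst hp
        exact ⟨z, hs⟩
      · simp [pos] at hp
    have hb : ∀ t : Fin m, ∃ b : B, D.pb b = t ∧ (Sum.inr (Sum.inr b) : Vx q M k B) ∈ S := by
      intro t
      obtain ⟨s, hs, hp⟩ := hex (.inr (.inr t))
      rcases s with ⟨i', j', u, v⟩ | ⟨i', z⟩ | b
      · simp [pos] at hp
      · simp [pos] at hp
      · simp only [pos, Sum.inr.injEq] at hp
        exact ⟨b, hp, hs⟩
    choose uu vv huv using hin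
    choose zz hzz using hout
    choose bb hbb1 hbb2 using hb
    -- coefficients do not depend on `i`
    have f1 : ∀ i i' j, vv i j = vv i' j := by
      intro i i' j
      by_cases h : i = i'
      · rw [h]
      · have := hadj _ (huv i j) _ (huv i' j) (by
          simp only [pos, ne_eq, Sum.inl.injEq, Prod.mk.injEq, and_true]; exact h)
        exact this.2.1 rfl
    have f3 : ∀ i : Fin M, ∀ j : Fin k, (j : ℕ) = 0 → uu i j = 0 := by
      intro i j hj
      have := hadj _ (huv i j) _ (hzz i) (by simp [pos])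
      exact this.2 hj
    have f2 : ∀ i : Fin M, ∀ j j' : Fin k, (j : ℕ) + 1 = j' →
        uu i j' = uu i j + vv i j * ((i : ℕ) : ZMod q) ^ (j : ℕ) := by
      intro i j j' hj
      have hne : j ≠ j' := fun h => by rw [h] at hj; omega
      have := hadj _ (huv i j) _ (huv i j') (by
        simp only [pos, ne_eq, Sum.inl.injEq, Prod.mk.injEq, true_and]; exact hne)
      exact this.2.2 rfl hj
    have f4 : ∀ i : Fin M, ∀ j : Fin k, (j : ℕ) + 1 = k →
        zz i = uu i j + vv i j * ((i : ℕ) : ZMod q) ^ (j : ℕ) := by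
      intro i j hj
      have := hadj _ (huv i j) _ (hzz i) (by simp [pos])
      exact this.1 rfl hj
    have f5 : ∀ i : Fin M, y (i, zz i) = true := by
      intro i
      have := hadj _ (hzz i) _ (hbb2 (D.ρ i)) (by simp [pos])
      exact (this (hbb1 _)).2
    by_cases hM : Nonempty (Fin M)
    · obtain ⟨i0⟩ := hM
      refine ⟨vv i0, fun i => ?_⟩
      have g1 : ∀ l : ℕ, ∀ j : Fin k, (j : ℕ) = l → uu i j = psum (vv i0) (i : ℕ) (j : ℕ) := by
        intro l
        induction l with
        | zero =>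
          intro j hj
          rw [f3 i j hj, hj, psum_zero]
        | succ l ih =>
          intro j hj
          have hl : l < k := by omega
          have h1 := f2 i ⟨l, hl⟩ j (by simp only; omega)
          rw [h1, ih ⟨l, hl⟩ rfl, f1 i i0, ← psum_succ]
          congr 1
          simp only
          omega
      have hk1 : k - 1 < k := by omega
      have h2 := f4 i ⟨k - 1, hk1⟩ (by simp only; omega)
      rw [g1 (k - 1) ⟨k - 1, hk1⟩ rfl, f1 i i0, ← psum_succ] at h2
      have h3 : ((⟨k - 1, hk1⟩ : Fin k) : ℕ) + 1 = k := by simp only; omega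
      rw [h3, psum_all] at h2
      rw [← h2]
      exact f5 i
    · exact ⟨fun _ => 0, fun i => absurd ⟨i⟩ hM⟩
  · rintro ⟨c, hc⟩
    choose it hit using D.h2
    set pick : (Fin M × Fin k) ⊕ Fin M ⊕ Fin m → Vx q M k B := fun p => match p with
      | .inl (i, j) => .inl (i, j, psum c (i : ℕ) (j : ℕ), c j)
      | .inr (.inl i) => .inr (.inl (i, pval c (i : ℕ)))
      | .inr (.inr t) => .inr (.inr (D.β (it t, pval c ((it t : Fin M) : ℕ)))) with hpick
    have hpos : ∀ p, pos D (pick p) = p := by
      intro p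
      rcases p with ⟨i, j⟩ | i | t
      · rfl
      · rfl
      · simp only [hpick, pos, Sum.inr.injEq]
        rw [D.h1]; exact hit t
    have hrel : ∀ p p', p ≠ p' → Rel D y (pick p) (pick p') := by
      intro p p' hne
      rcases p with ⟨i, j⟩ | i | t
      · rcases p' with ⟨i', j'⟩ | i' | t'
        · refine ⟨?_, ?_, ?_⟩
          · rintro ⟨rfl, rfl⟩; exact hne rfl
          · rintro rfl; rfl
          · rintro rfl hj
            show psum c (i : ℕ) (j' : ℕ) = psum c (i : ℕ) (j : ℕ) + c j * ((i : ℕ) : ZMod q) ^ (j : ℕ)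
            rw [← psum_succ, hj]
        · refine ⟨?_, ?_⟩
          · rintro rfl hj
            show pval c (i : ℕ) = psum c (i : ℕ) (j : ℕ) + c j * ((i : ℕ) : ZMod q) ^ (j : ℕ)
            rw [← psum_succ, hj, psum_all]
          · intro hj
            show psum c (i : ℕ) (j : ℕ) = 0
            rw [hj, psum_zero]
        · exact trivial
      · rcases p' with ⟨i', j'⟩ | i' | t'
        · exact trivial
        · show i ≠ i'
          rintro rfl; exact hne rfl
        · intro hp
          have hp' : D.pb (D.β (it t', pval c ((it t' : Fin M) : ℕ))) = D.ρ i := hp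
          rw [D.h1] at hp'
          refine ⟨?_, hc i⟩
          show D.β (it t', pval c ((it t' : Fin M) : ℕ)) = D.β (i, pval c (i : ℕ))
          have hp2 : D.ρ (it t') = D.ρ i := hp'
          rcases D.h3 (it t') i hp2 with h | h
          · rw [h]
          · exact h _ _ (D.h1 _) (by rw [D.h1]; exact hp2.symm)
      · rcases p' with ⟨i', j'⟩ | i' | t'
        · exact trivial
        · exact trivial
        · show D.pb (D.β (it t, pval c ((it t : Fin M) : ℕ))) ≠
            D.pb (D.β (it t', pval c ((it t' : Fin M) : ℕ)))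
          rw [D.h1, D.h1, hit, hit]
          rintro rfl; exact hne rfl
    have hpinj : Function.Injective pick := fun p p' h => by
      rw [← hpos p, ← hpos p', h]
    refine ⟨univ.image pick, ?_, ?_⟩
    · rw [card_image_of_injective _ hpinj, card_univ, hposcard]
    · intro s hs t ht hne
      rw [mem_coe, mem_image] at hs ht
      obtain ⟨p, _, rfl⟩ := hs
      obtain ⟨p', _, rfl⟩ := ht
      have hpp : p ≠ p' := fun h => hne (by rw [h])
      exact ⟨hne, hrel p p' hpp, hrel p' p hpp.symm⟩

/-- the gadget graph depends on the input only through the variable edges -/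
theorem gad_adj_iff (D : Side q M B m) (y : Fin M × ZMod q → Bool) (s t : Vx q M k B) :
    (∃ u, (s = .inr (.inl u) ∧ t = .inr (.inr (D.β u)) ∨
        t = .inr (.inl u) ∧ s = .inr (.inr (D.β u))) ∧ ((gad D y).Adj s t ↔ y u = true)) ∨
      ((gad D y).Adj s t ↔ (gad D (fun _ => false)).Adj s t) ∧
      ¬ ∃ u, (s = .inr (.inl u) ∧ t = .inr (.inr (D.β u)) ∨
        t = .inr (.inl u) ∧ s = .inr (.inr (D.β u))) := by
  classical
  by_cases h : ∃ u, (s = .inr (.inl u) ∧ t = .inr (.inr (D.β u)) ∨
      t = .inr (.inl u) ∧ s = .inr (.inr (D.β u)))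
  · left
    obtain ⟨u, hu⟩ := h
    refine ⟨u, hu, ?_⟩
    rcases hu with ⟨rfl, rfl⟩ | ⟨rfl, rfl⟩
    · constructor
      · intro h; exact (h.2.1 (D.h1 u)).2
      · intro h; exact ⟨by simp, fun _ => ⟨rfl, h⟩, trivial⟩
    · constructor
      · intro h; exact (h.2.2 (D.h1 u)).2
      · intro h; exact ⟨by simp, trivial, fun _ => ⟨rfl, h⟩⟩
  · right
    refine ⟨?_, h⟩
    rcases s with ⟨i, j, u, v⟩ | u | b
    · rcases t with ⟨i', j', u', v'⟩ | u' | b' <;> exact Iff.rfl
    · rcases t with ⟨i', j', u', v'⟩ | u' | b'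
      · exact Iff.rfl
      · exact Iff.rfl
      · have hb : b' ≠ D.β u := fun h' => h ⟨u, Or.inl ⟨rfl, by rw [h']⟩⟩
        constructor
        · rintro ⟨h1, h2, h3⟩
          refine ⟨h1, fun hp => absurd (h2 hp).1 hb, trivial⟩
        · rintro ⟨h1, h2, h3⟩
          refine ⟨h1, fun hp => absurd (h2 hp).1 hb, trivial⟩
    · rcases t with ⟨i', j', u', v'⟩ | u' | b'
      · exact Iff.rfl
      · have hb : b ≠ D.β u' := fun h' => h ⟨u', Or.inr ⟨rfl, by rw [h']⟩⟩
        constructor
        · rintro ⟨h1, h2, h3⟩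
          refine ⟨h1, trivial, fun hp => absurd (h3 hp).1 hb⟩
        · rintro ⟨h1, h2, h3⟩
          refine ⟨h1, trivial, fun hp => absurd (h3 hp).1 hb⟩
      · exact Iff.rfl

end Pool.Agent.V8H39.NP
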