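import Pool.Agent.V8H39.NP.RS

/-!
# Choice of the parameters
-/

namespace Pool.Agent.V8H39.NP

open Finset Filter Asymptotics Pool.Agent.H520R2

/-- polylogarithms are small -/
theorem polylog_le (C : ℝ) (m : ℕ) : ∀ᶠ k : ℕ in atTop,
    C * ((Nat.log 2 k : ℝ) + 1) ^ m ≤ (k : ℝ) ^ (1 / 2 : ℝ) := by
  have h1 : (fun x : ℝ => Real.log x ^ (m : ℝ)) =o[atTop] fun x => x ^ (1 / 2 : ℝ) :=
    isLittleO_log_rpow_rpow_atTop (m : ℝ) (by norm_num)
  have hC : 0 < 1 / (|C| * 4 ^ m + 1) := by positivity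
  have h2 := h1.bound hC
  have h3 : ∀ᶠ x : ℝ in atTop, C * (4 * Real.log x) ^ m ≤ x ^ (1 / 2 : ℝ) := by
    filter_upwards [h2, eventually_ge_atTop (1 : ℝ)] with x hx hx1
    have hlog : 0 ≤ Real.log x := Real.log_nonneg hx1
    have hlm : 0 ≤ Real.log x ^ m := pow_nonneg hlog m
    have hxp : 0 ≤ x ^ (1 / 2 : ℝ) := Real.rpow_nonneg (by linarith) _
    rw [Real.norm_eq_abs, Real.norm_eq_abs, Real.rpow_natCast, abs_of_nonneg hlm,
      abs_of_nonneg hxp, one_div_mul_eq_div, le_div_iff₀ (by positivity)] at hx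
    rw [mul_pow]
    calc C * (4 ^ m * Real.log x ^ m) ≤ |C| * (4 ^ m * Real.log x ^ m) :=
          mul_le_mul_of_nonneg_right (le_abs_self C) (by positivity)
      _ ≤ Real.log x ^ m * (|C| * 4 ^ m + 1) := by
          have : 0 ≤ Real.log x ^ m := by positivity
          nlinarith
      _ ≤ _ := hx
  have h4 := tendsto_natCast_atTop_atTop.eventually h3
  filter_upwards [h4, eventually_ge_atTop 3] with k hk hk3
  have hk0 : (0 : ℝ) < k := by
    have : 0 < k := by omega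
    exact_mod_cast this
  have hlog1 : 1 ≤ Real.log k := by
    rw [Real.le_log_iff_exp_le hk0]
    have : (3 : ℝ) ≤ k := by exact_mod_cast hk3
    linarith [Real.exp_one_lt_d9]
  have hL : (Nat.log 2 k : ℝ) + 1 ≤ 4 * Real.log k := by
    have h5 : (Nat.log 2 k : ℝ) ≤ Real.logb 2 k := Real.natLog_le_logb k 2
    have h6 : Real.logb 2 k = Real.log k / Real.log 2 := rfl
    have h7 : Real.log k / Real.log 2 ≤ 3 * Real.log k := by
      rw [div_le_iff₀ (Real.log_pos (by norm_num))]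
      nlinarith [Real.log_two_gt_d9]
    linarith
  rcases le_or_gt 0 C with hC0 | hC0
  · refine le_trans ?_ hk
    apply mul_le_mul_of_nonneg_left _ hC0
    exact pow_le_pow_left₀ (by positivity) hL m
  · have h8 : C * ((Nat.log 2 k : ℝ) + 1) ^ m ≤ 0 :=
      mul_nonpos_of_nonpos_of_nonneg hC0.le (by positivity)
    exact h8.trans (by positivity)

theorem const_mul_rpow_le (C : ℝ) {a b : ℝ} (hab : a < b) :
    ∀ᶠ k : ℕ in atTop, C * (k : ℝ) ^ a ≤ (k : ℝ) ^ b := by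
  have h := (tendsto_rpow_atTop (sub_pos.2 hab)).comp tendsto_natCast_atTop_atTop
  filter_upwards [h.eventually_ge_atTop C, eventually_gt_atTop 0] with k hk hk0
  have hk0' : (0 : ℝ) < k := by exact_mod_cast hk0
  simp only [Function.comp_apply] at hk
  calc C * (k : ℝ) ^ a ≤ (k : ℝ) ^ (b - a) * (k : ℝ) ^ a :=
        mul_le_mul_of_nonneg_right hk (by positivity)
    _ = (k : ℝ) ^ b := by rw [← Real.rpow_add hk0']; congr 1; ring

theorem params (δ : ℝ) (hδ : 0 < δ) : ∃ k0 : ℕ, ∀ k : ℕ, k0 ≤ k →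
    ∃ q M h n D r : ℕ, q.Prime ∧ k ≤ M ∧ M ≤ q ∧ 1 ≤ h ∧ 2 * h ≤ k ∧ 2 * h < 2 ^ n ∧ 1 ≤ D ∧
      1024 * D ≤ q ∧ (M * q + 1) ^ (2 * h) * 64 ^ h ≤ 4 ^ r ∧ 64 * 2 ^ k ≤ 64 ^ h ∧
      64 * q ^ k * (r * n) ^ M ≤ D ^ M ∧ (((M * q : ℕ) : ℕ) : ℝ) ≤ (k : ℝ) ^ (2 + δ) := by
  -- reduce to `δ ≤ 1`
  wlog hδ1 : δ ≤ 1 with H
  · obtain ⟨k0, hk0⟩ := H 1 one_pos le_rfl
    refine ⟨max k0 1, fun k hk => ?_⟩
    obtain ⟨q, M, h, n, D, r, h1, h2, h3, h4, h5, h6, h7, h8, h9, h10, h11, h12⟩ :=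
      hk0 k (le_trans (le_max_left _ _) hk)
    refine ⟨q, M, h, n, D, r, h1, h2, h3, h4, h5, h6, h7, h8, h9, h10, h11, h12.trans ?_⟩
    apply Real.rpow_le_rpow_of_exponent_le
    · have : 1 ≤ k := le_trans (le_max_right _ _) hk
      exact_mod_cast this
    · linarith
  set a : ℕ := ⌈3 / δ⌉₊ + 2 with ha
  have ha1 : 3 / δ ≤ (a : ℝ) - 1 := by
    have := Nat.le_ceil (3 / δ)
    rw [ha]; push_cast; linarith
  have haa : (1 + δ / 2) * ((a : ℝ) - 1) ≥ a + 1 / 2 := by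
    have h1 : 3 ≤ δ * ((a : ℝ) - 1) := by
      rw [div_le_iff₀ hδ] at ha1; linarith
    nlinarith
  have e1 := polylog_le (64 * (2048 * 9) ^ a) (2 * a)
  have e2 := const_mul_rpow_le (a : ℝ) (show (1 : ℝ) < 1 + δ / 2 by linarith)
  have e3 := const_mul_rpow_le (4 * a : ℝ) (show (2 + δ / 2 : ℝ) < 2 + δ by linarith)
  have e4 := const_mul_rpow_le (1024 : ℝ) (show (0 : ℝ) < 1 + δ / 2 by linarith)
  have e5 := const_mul_rpow_le (2 : ℝ) (show (3 : ℝ) < 4 by norm_num)
  obtain ⟨k0, hk0⟩ := eventually_atTop.1 (e1.and (e2.and (e3.and (e4.and e5))))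
  refine ⟨max k0 10, fun k hk => ?_⟩
  obtain ⟨f1, f2, f3, f4, f5⟩ := hk0 k (le_trans (le_max_left _ _) hk)
  have hk10 : 10 ≤ k := le_trans (le_max_right _ _) hk
  have hkR : (10 : ℝ) ≤ k := by exact_mod_cast hk10
  have hkpos : (0 : ℝ) < k := by linarith
  set Q : ℕ := ⌈(k : ℝ) ^ (1 + δ / 2)⌉₊ with hQ
  have hQ1 : (k : ℝ) ^ (1 + δ / 2) ≤ Q := Nat.le_ceil _
  have hkk : (k : ℝ) ≤ (k : ℝ) ^ (1 + δ / 2) := by
    calc (k : ℝ) = (k : ℝ) ^ (1 : ℝ) := (Real.rpow_one _).symm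
      _ ≤ _ := Real.rpow_le_rpow_of_exponent_le (by linarith) (by linarith)
  have hQ2 : (Q : ℝ) ≤ 2 * (k : ℝ) ^ (1 + δ / 2) := by
    have := Nat.ceil_lt_add_one (show 0 ≤ (k : ℝ) ^ (1 + δ / 2) by positivity)
    rw [← hQ] at this
    linarith only [this, hkk, hkR]
  have hQ0 : Q ≠ 0 := by
    intro h
    rw [h] at hQ1
    push_cast at hQ1
    linarith only [hQ1, hkk, hkR]
  obtain ⟨q, hqp, hq1, hq2⟩ := Nat.exists_prime_lt_and_le_two_mul Q hQ0
  have hqR1 : (k : ℝ) ^ (1 + δ / 2) ≤ q := by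
    have : (Q : ℝ) ≤ q := by exact_mod_cast hq1.le
    linarith
  have hqR2 : (q : ℝ) ≤ 4 * (k : ℝ) ^ (1 + δ / 2) := by
    have : (q : ℝ) ≤ 2 * Q := by exact_mod_cast hq2
    linarith
  have hq1024 : 1024 ≤ q := by
    have : (1024 : ℝ) ≤ q := by
      rw [Real.rpow_zero, mul_one] at f4
      linarith
    exact_mod_cast this
  have hMq : a * k ≤ q := by
    have : (a : ℝ) * k ≤ q := by
      rw [Real.rpow_one] at f2
      linarith
    exact_mod_cast this
  have hMqR : (((a * k * q : ℕ) : ℕ) : ℝ) ≤ (k : ℝ) ^ (2 + δ) := by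
    push_cast
    calc (a : ℝ) * k * q ≤ (a : ℝ) * k * (4 * (k : ℝ) ^ (1 + δ / 2)) :=
          mul_le_mul_of_nonneg_left hqR2 (by positivity)
      _ = 4 * a * ((k : ℝ) ^ (1 : ℝ) * (k : ℝ) ^ (1 + δ / 2)) := by rw [Real.rpow_one]; ring
      _ = 4 * a * (k : ℝ) ^ (2 + δ / 2) := by
          rw [← Real.rpow_add hkpos]; congr 2; ring
      _ ≤ _ := f3
  have ha2 : 2 ≤ a := by rw [ha]; omega
  -- the number of variables is less than `k ^ 4`
  have hk4 : a * k * q + 1 ≤ k ^ 4 := by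
    have h1 : ((a * k * q : ℕ) : ℝ) ≤ (k : ℝ) ^ (3 : ℝ) :=
      hMqR.trans (Real.rpow_le_rpow_of_exponent_le (by linarith) (by linarith))
    have h2 : (k : ℝ) ^ (3 : ℝ) = (k : ℝ) ^ 3 := by
      rw [← Real.rpow_natCast]; norm_num
    rw [h2] at h1
    have h3 : (a * k * q : ℕ) ≤ k ^ 3 := by exact_mod_cast h1
    have h4 : k ^ 3 * 10 ≤ k ^ 4 := by
      rw [pow_succ k 3]; exact Nat.mul_le_mul_left _ hk10
    have h5 : 1 ≤ k ^ 3 := Nat.one_le_pow _ _ (by omega)
    omega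
  set L := Nat.log 2 k with hL
  have hlog : Nat.log 2 (a * k * q + 1) ≤ 4 * (L + 1) := by
    have h1 : a * k * q + 1 < 2 ^ (4 * (L + 1)) := by
      calc a * k * q + 1 ≤ k ^ 4 := hk4
        _ < (2 ^ (L + 1)) ^ 4 := Nat.pow_lt_pow_left (Nat.lt_pow_succ_log_self (by norm_num) k)
              (by norm_num)
        _ = 2 ^ (4 * (L + 1)) := by rw [← pow_mul]; congr 1; ring
    exact (Nat.log_lt_of_lt_pow (by omega) h1).le
  set D := q / 1024 with hD
  have hD1 : 1 ≤ D := by rw [hD]; exact (Nat.one_le_div_iff (by norm_num)).2 hq1024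
  have hDq : q ≤ 2048 * D := by
    have := Nat.lt_mul_div_succ q (show 0 < 1024 by norm_num)
    rw [← hD] at this
    omega
  set r := k * (Nat.log 2 (a * k * q + 1) + 5) with hr
  refine ⟨q, a * k, k / 2, L + 1, D, r, hqp, ?_, hMq, ?_, ?_, ?_, hD1, ?_, ?_, ?_, ?_, hMqR⟩
  · nlinarith
  · omega
  · omega
  · have := Nat.lt_pow_succ_log_self (show 1 < 2 by norm_num) k
    rw [← hL] at this
    calc 2 * (k / 2) ≤ k := by omega
      _ < _ := this
  · rw [hD]; exact Nat.mul_div_le q 1024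
  · have h1 : a * k * q + 1 ≤ 2 ^ (Nat.log 2 (a * k * q + 1) + 1) :=
      (Nat.lt_pow_succ_log_self (by norm_num) _).le
    calc (a * k * q + 1) ^ (2 * (k / 2)) * 64 ^ (k / 2)
        ≤ (2 ^ (Nat.log 2 (a * k * q + 1) + 1)) ^ (2 * (k / 2)) * 64 ^ (k / 2) :=
          Nat.mul_le_mul_right _ (Nat.pow_le_pow_left h1 _)
      _ ≤ (2 ^ (Nat.log 2 (a * k * q + 1) + 1)) ^ k * (2 ^ 3) ^ k := by
          apply Nat.mul_le_mul
          · exact Nat.pow_le_pow_right (by positivity) (by omega)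
          · rw [show (64 : ℕ) = 2 ^ 6 by norm_num, ← pow_mul, ← pow_mul]
            exact Nat.pow_le_pow_right (by norm_num) (by omega)
      _ = 2 ^ (k * (Nat.log 2 (a * k * q + 1) + 4)) := by
          rw [← pow_mul, ← pow_mul, ← pow_add]; congr 1; ring
      _ ≤ 2 ^ (2 * r) := by
          apply Nat.pow_le_pow_right (by norm_num)
          rw [hr]
          nlinarith
      _ = 4 ^ r := by rw [pow_mul]; norm_num
  · rw [show (64 : ℕ) = 2 ^ 6 by norm_num, ← pow_add, ← pow_mul]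
    apply Nat.pow_le_pow_right (by norm_num)
    omega
  · -- the main inequality
    have hrn : r * (L + 1) ≤ k * (9 * (L + 1) ^ 2) := by
      rw [hr]
      calc k * (Nat.log 2 (a * k * q + 1) + 5) * (L + 1) ≤ k * (4 * (L + 1) + 5) * (L + 1) := by
            apply Nat.mul_le_mul_right
            apply Nat.mul_le_mul_left
            omega
        _ ≤ k * (9 * (L + 1)) * (L + 1) := by
            apply Nat.mul_le_mul_right
            apply Nat.mul_le_mul_left
            omega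
        _ = _ := by ring
    have hkey : 64 * q * (r * (L + 1)) ^ a ≤ D ^ a := by
      have h1 : (64 : ℝ) * ((2048 : ℝ) * (k * (9 * ((L : ℝ) + 1) ^ 2))) ^ a ≤ (q : ℝ) ^ (a - 1) := by
        have hq0 : (0 : ℝ) < q := by
          have : 0 < q := by omega
          exact_mod_cast this
        have hcast : ((a - 1 : ℕ) : ℝ) = (a : ℝ) - 1 := by
          rw [Nat.cast_sub (by omega)]; push_cast; ring
        calc (64 : ℝ) * ((2048 : ℝ) * (k * (9 * ((L : ℝ) + 1) ^ 2))) ^ a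
            = (64 * (2048 * 9) ^ a * ((L : ℝ) + 1) ^ (2 * a)) * (k : ℝ) ^ a := by
              rw [pow_mul ((L : ℝ) + 1) 2 a]
              rw [show (2048 : ℝ) * (k * (9 * ((L : ℝ) + 1) ^ 2)) =
                (2048 * 9) * (((L : ℝ) + 1) ^ 2) * k by ring,
                mul_pow ((2048 * 9) * (((L : ℝ) + 1) ^ 2)) (k : ℝ) a,
                mul_pow (2048 * 9 : ℝ) (((L : ℝ) + 1) ^ 2) a]
              ring
          _ ≤ (k : ℝ) ^ (1 / 2 : ℝ) * (k : ℝ) ^ a :=
              mul_le_mul_of_nonneg_right f1 (by positivity)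
          _ = (k : ℝ) ^ ((a : ℝ) + 1 / 2) := by
              rw [← Real.rpow_natCast (k : ℝ) a, ← Real.rpow_add hkpos]; congr 1; ring
          _ ≤ (k : ℝ) ^ ((1 + δ / 2) * ((a : ℝ) - 1)) :=
              Real.rpow_le_rpow_of_exponent_le (by linarith) haa
          _ = ((k : ℝ) ^ (1 + δ / 2)) ^ ((a : ℝ) - 1) := by rw [Real.rpow_mul hkpos.le]
          _ ≤ (q : ℝ) ^ ((a : ℝ) - 1) := by
              apply Real.rpow_le_rpow (by positivity) hqR1
              have : (2 : ℝ) ≤ a := by exact_mod_cast ha2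
              linarith
          _ = (q : ℝ) ^ (a - 1) := by rw [← hcast, Real.rpow_natCast]
      have h2 : 64 * (2048 * (k * (9 * (L + 1) ^ 2))) ^ a ≤ q ^ (a - 1) := by exact_mod_cast h1
      have h3 : 64 * (2048 * (r * (L + 1))) ^ a ≤ q ^ (a - 1) := by
        refine le_trans (Nat.mul_le_mul_left _ (Nat.pow_le_pow_left ?_ a)) h2
        exact Nat.mul_le_mul_left _ hrn
      have h4 : 64 * q * (2048 * (r * (L + 1))) ^ a ≤ (2048 * D) ^ a := by
        calc 64 * q * (2048 * (r * (L + 1))) ^ a = q * (64 * (2048 * (r * (L + 1))) ^ a) := by ring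
          _ ≤ q * q ^ (a - 1) := Nat.mul_le_mul_left _ h3
          _ = q ^ a := by
              rw [← pow_succ']
              have : a - 1 + 1 = a := by omega
              rw [this]
          _ ≤ (2048 * D) ^ a := Nat.pow_le_pow_left hDq a
      rw [mul_pow 2048 (r * (L + 1)) a, mul_pow 2048 D a] at h4
      have h5 : 2048 ^ a * (64 * q * (r * (L + 1)) ^ a) ≤ 2048 ^ a * D ^ a := by
        calc _ = 64 * q * (2048 ^ a * (r * (L + 1)) ^ a) := by ring
          _ ≤ _ := h4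
      exact Nat.le_of_mul_le_mul_left h5 (by positivity)
    calc 64 * q ^ k * (r * (L + 1)) ^ (a * k) ≤ 64 ^ k * q ^ k * (r * (L + 1)) ^ (a * k) := by
          apply Nat.mul_le_mul_right
          apply Nat.mul_le_mul_right
          calc 64 = 64 ^ 1 := (pow_one _).symm
            _ ≤ 64 ^ k := Nat.pow_le_pow_right (by norm_num) (by omega)
      _ = (64 * q * (r * (L + 1)) ^ a) ^ k := by
          rw [mul_pow (64 * q) ((r * (L + 1)) ^ a) k, mul_pow 64 q k, ← pow_mul]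
      _ ≤ (D ^ a) ^ k := Nat.pow_le_pow_left hkey k
      _ = D ^ (a * k) := by rw [← pow_mul]

open Classical in
/-- The lower bound in the worst case: monotone programs for the polynomial function. -/
theorem base (δ : ℝ) (hδ : 0 < δ) : ∃ k0 : ℕ, ∀ k : ℕ, k0 ≤ k →
    ∃ q M : ℕ, q.Prime ∧ 1 ≤ k ∧ k ≤ M ∧ M ≤ q ∧ (((M * q : ℕ) : ℕ) : ℝ) ≤ (k : ℝ) ^ (2 + δ) ∧
      ∀ (s : ℕ) (f : (Fin M × ZMod q → Bool) → Bool), MComp (VB (Fin M × ZMod q)) s f →
        (∀ x, f x = true ↔ HasCw q M k x) → 2 ^ k < s := by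
  obtain ⟨k0, hk0⟩ := params δ hδ
  refine ⟨max k0 1, fun k hk => ?_⟩
  obtain ⟨q, M, h, n, D, r, h1, h2, h3, h4, h5, h6, h7, h8, h9, h10, h11, h12⟩ :=
    hk0 k (le_trans (le_max_left _ _) hk)
  have hk1 : 1 ≤ k := le_trans (le_max_right _ _) hk
  refine ⟨q, M, h1, hk1, h2, h3, h12, fun s f hf hfc => ?_⟩
  by_contra hs
  push Not at hs
  have : Fact q.Prime := ⟨h1⟩
  have : NeZero D := ⟨by omega⟩
  have hWpos : 0 < Fintype.card (Fin r → Fin n → (Fin M × ZMod q) → Fin D) :=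
    Fintype.card_pos
  rcases rs_dist (q := q) (M := M) (k := k) (h := h) (n := n) (D := D) (r := r) (s := s)
    h2 h3 h4 h5 h6 h7 h8 h9
    (le_trans (Nat.mul_le_mul_left _ hs) h10) hf with h13 | h13
  · have h14 := card_noise_cw (q := q) (M := M) (k := k) (D := D) (n := n) (r := r) (m := 64)
      h7 h11
    have h15 := Finset.card_filter_add_card_filter_not
      (s := (univ : Finset (Fin r → Fin n → (Fin M × ZMod q) → Fin D)))
      (fun ω => ¬ f (ind (noise2 ω)) = true)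
    have h16 : (univ.filter fun ω : Fin r → Fin n → (Fin M × ZMod q) → Fin D =>
        ¬ ¬ f (ind (noise2 ω)) = true).card =
        (univ.filter fun ω : Fin r → Fin n → (Fin M × ZMod q) → Fin D =>
          ∃ c : Fin k → ZMod q, cw q M k c ⊆ noise2 ω).card := by
      congr 1
      apply filter_congr
      intro ω _
      rw [not_not, hfc, hasCw_ind]
    rw [h16, card_univ] at h15
    omega
  · have h14 : (univ.filter fun c : Fin k → ZMod q => f (ind (cw q M k c)) = true) = univ := by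
      rw [filter_true_of_mem]
      intro c _
      rw [hfc, hasCw_ind]
      exact ⟨c, Subset.rfl⟩
    rw [h14, card_univ] at h13
    have : 0 < Fintype.card (Fin k → ZMod q) := Fintype.card_pos
    omega

end Pool.Agent.V8H39.NP
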