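import Pool.Agent.V8H39.NP.Core
import Pool.Agent.V8H39.NP.Circ
import Pool.Agent.V8H39.NP.Params
import Pool.Agent.V8H38.NL.Net

/-!
# From circuits for the half-clique problem to monotone programs for the polynomial function
-/

set_option linter.unusedSectionVars false

namespace Pool.Agent.V8H39.NP

open Finset Pool.Agent.H520R2 Pool.Agent.V8H38.NL

theorem av_mono {U : Type} {L : List ((U → Bool) → Bool)} (hL : MProg (VB U) L) :
    ∀ f, Av (VB U) L f → Monotone f := by
  have hbase : ∀ f ∈ VB U, Monotone f := by
    rintro f (⟨b, rfl⟩ | ⟨i, rfl⟩)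
    · exact fun _ _ _ => le_rfl
    · exact fun x y h => h i
  have hand : ∀ f g : (U → Bool) → Bool, Monotone f → Monotone g →
      Monotone (fun x => f x && g x) := by
    intro f g hf hg x y hxy
    have h1 := hf hxy
    have h2 := hg hxy
    simp only
    cases hfx : f x <;> cases hgx : g x <;> cases hfy : f y <;> cases hgy : g y <;>
      simp_all
  have hor : ∀ f g : (U → Bool) → Bool, Monotone f → Monotone g →
      Monotone (fun x => f x || g x) := by
    intro f g hf hg x y hxy
    have h1 := hf hxy
    have h2 := hg hxy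
    simp only
    cases hfx : f x <;> cases hgx : g x <;> cases hfy : f y <;> cases hgy : g y <;>
      simp_all
  induction hL with
  | nil =>
    intro f hf
    rcases hf with hf | hf
    · exact hbase f hf
    · simp at hf
  | @and L f g _ hf hg ih =>
    intro f' hf'
    rcases hf' with hf' | hf'
    · exact hbase f' hf'
    · rcases List.mem_cons.1 hf' with rfl | hf'
      · exact hand f g (ih f hf) (ih g hg)
      · exact ih f' (Or.inr hf')
  | @or L f g _ hf hg ih =>
    intro f' hf'
    rcases hf' with hf' | hf'
    · exact hbase f' hf'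
    · rcases List.mem_cons.1 hf' with rfl | hf'
      · exact hor f g (ih f hf) (ih g hg)
      · exact ih f' (Or.inr hf')

/-- Restriction of a circuit: if the inputs are constants or variables and the outputs of the NOT
gates are monotone, then the result is a monotone program. -/
theorem restrict {N : ℕ} {U : Type} (inp : (U → Bool) → Fin N → Bool)
    (hinp : ∀ p, (fun y => inp y p) ∈ VB U) (l : List (Gate N))
    (hnot : ∀ j a, l[j]? = some (Gate.not a) → Monotone (fun y => nd (inp y) l j)) :
    ∃ L : List ((U → Bool) → Bool), MProg (VB U) L ∧ L.length ≤ l.countP Gate.isAndOr ∧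
      ∀ j, Av (VB U) L (fun y => nd (inp y) l j) := by
  have hc : ∀ (b : Bool) (L : List ((U → Bool) → Bool)), Av (VB U) L (fun _ => b) :=
    fun b L => Or.inl (Or.inl ⟨b, rfl⟩)
  induction l using List.reverseRecOn with
  | nil =>
    refine ⟨[], MProg.nil, by simp, fun j => ?_⟩
    have : (fun y => nd (inp y) ([] : List (Gate N)) j) = fun _ => false := by
      funext y; exact nd_gt _ _ (by simp)
    rw [this]; exact hc _ _
  | append_singleton l g ih =>
    obtain ⟨L, h1, h2, h3⟩ := ih (by
      intro j a hj
      have hjl : j < l.length := by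
        by_contra hn
        rw [List.getElem?_eq_none (by omega)] at hj
        exact absurd hj (by simp)
      have := hnot j a (by rw [List.getElem?_append_left hjl]; exact hj)
      have h' : (fun y => nd (inp y) (l ++ [g]) j) = fun y => nd (inp y) l j := by
        funext y; exact nd_lt _ _ _ hjl
      rw [h'] at this
      exact this)
    have key : ∀ L' : List ((U → Bool) → Bool), MProg (VB U) (L' ++ L) →
        L'.length ≤ [g].countP Gate.isAndOr →
        Av (VB U) (L' ++ L) (fun y => g.eval (inp y) (values (inp y) l)) →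
        ∃ L : List ((U → Bool) → Bool), MProg (VB U) L ∧
          L.length ≤ (l ++ [g]).countP Gate.isAndOr ∧
          ∀ j, Av (VB U) L (fun y => nd (inp y) (l ++ [g]) j) := by
      intro L' k1 k2 k3
      refine ⟨L' ++ L, k1, ?_, fun j => ?_⟩
      · rw [List.length_append, List.countP_append]; omega
      · rcases lt_trichotomy j l.length with hj | hj | hj
        · have h' : (fun y => nd (inp y) (l ++ [g]) j) = fun y => nd (inp y) l j := by
            funext y; exact nd_lt _ _ _ hj
          rw [h']; exact (h3 j).mono L'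
        · have h' : (fun y => nd (inp y) (l ++ [g]) j) =
              fun y => g.eval (inp y) (values (inp y) l) := by
            funext y; rw [hj]; exact nd_eq _ _ _
          rw [h']; exact k3
        · have h' : (fun y => nd (inp y) (l ++ [g]) j) = fun _ => false := by
            funext y; exact nd_gt _ _ (by simp; omega)
          rw [h']; exact hc _ _
    cases g with
    | input p => exact key [] (by simpa using h1) (by simp) (Or.inl (hinp p))
    | const b => exact key [] (by simpa using h1) (by simp) (hc b _)
    | not a =>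
      refine key [] (by simpa using h1) (by simp) ?_
      have m1 := hnot l.length a (by simp)
      have h' : (fun y => nd (inp y) (l ++ [Gate.not a]) l.length) =
          fun y => !(nd (inp y) l a) := by
        funext y; exact nd_eq _ _ _
      rw [h'] at m1
      have m2 := av_mono h1 _ (h3 a)
      have hconst : (fun y => (Gate.not a).eval (inp y) (values (inp y) l)) =
          fun _ => !(nd (inp (fun _ => false)) l a) := by
        funext y
        show (!(nd (inp y) l a)) = _
        have hle : (fun _ => false : U → Bool) ≤ y := fun i => Bool.false_le _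
        have e1 := m1 hle
        have e2 := m2 hle
        simp only at e1 e2
        cases ha : nd (inp y) l a <;> cases hb : nd (inp (fun _ => false)) l a
        · rfl
        · rw [ha, hb] at e2; exact absurd e2 (by decide)
        · rw [ha, hb] at e1; exact absurd e1 (by decide)
        · rfl
      rw [hconst]; exact hc _ _
    | and a b =>
      exact key [_] (MProg.and h1 (h3 a) (h3 b)) (by simp [Gate.isAndOr])
        (Or.inr List.mem_cons_self)
    | or a b =>
      exact key [_] (MProg.or h1 (h3 a) (h3 b)) (by simp [Gate.isAndOr])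
        (Or.inr List.mem_cons_self)

section inst

variable {q M k m V : ℕ} {B : Type} [Fintype B] [NeZero q]

/-- the entries of the adjacency matrix are constants or variables -/
theorem bits_VB (D : Side q M B m) (e : Vx q M k B ↪ Fin V) (A : Finset (Fin V))
    (F : SimpleGraph (Fin V)) (κ : ℕ) (hA : ∀ a, e a ∉ A) (hF : Adm e A κ F) (p : Fin (V * V)) :
    (fun y : Fin M × ZMod q → Bool => adjBits (big e A F (gad D y)) p) ∈
      VB (Fin M × ZMod q) := by
  classical
  set a := (finProdFinEquiv.symm p).1 with ha
  set b := (finProdFinEquiv.symm p).2 with hb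
  have hbit : ∀ y : Fin M × ZMod q → Bool, adjBits (big e A F (gad D y)) p =
      decide ((big e A F (gad D y)).Adj a b) := fun y => rfl
  by_cases hab : (∃ s, e s = a) ∧ ∃ t, e t = b
  · obtain ⟨⟨s, hs⟩, t, ht⟩ := hab
    have h1 : ∀ y : Fin M × ZMod q → Bool, (big e A F (gad D y)).Adj a b ↔ (gad D y).Adj s t := by
      intro y; rw [← hs, ← ht]; exact big_adj_map hA hF _ s t
    by_cases hv : ∃ u, (s = .inr (.inl u) ∧ t = .inr (.inr (D.β u)) ∨
        t = .inr (.inl u) ∧ s = .inr (.inr (D.β u)))
    · obtain ⟨u, hu⟩ := hv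
      right
      refine ⟨u, ?_⟩
      funext y
      rw [hbit y]
      have h2 : (gad D y).Adj s t ↔ y u = true := by
        rcases hu with ⟨rfl, rfl⟩ | ⟨rfl, rfl⟩
        · constructor
          · intro h; exact (h.2.1 (D.h1 u)).2
          · intro h; exact ⟨by simp, fun _ => ⟨rfl, h⟩, trivial⟩
        · constructor
          · intro h; exact (h.2.2 (D.h1 u)).2
          · intro h; exact ⟨by simp, trivial, fun _ => ⟨rfl, h⟩⟩
      cases hy : y u with
      | true => rw [decide_eq_true_eq, h1, h2]; exact hy
      | false => rw [decide_eq_false_iff_not, h1, h2, hy]; simp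
    · left
      refine ⟨decide ((gad D (fun _ => false)).Adj s t), ?_⟩
      funext y
      rw [hbit y]
      have h2 : (gad D y).Adj s t ↔ (gad D (fun _ => false)).Adj s t := by
        rcases gad_adj_iff D y s t with ⟨u, hu, _⟩ | ⟨h, _⟩
        · exact absurd ⟨u, hu⟩ hv
        · exact h
      exact decide_eq_decide.2 ((h1 y).trans h2)
  · left
    refine ⟨decide ((fixG e A).Adj a b ∨ F.Adj a b), ?_⟩
    funext y
    rw [hbit y]
    apply decide_eq_decide.2
    unfold big
    simp only [SimpleGraph.sup_adj]
    constructor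
    · rintro ((h | h) | h)
      · rw [SimpleGraph.map_adj] at h
        obtain ⟨s, t, _, hs, ht⟩ := h
        exact absurd ⟨⟨s, hs⟩, t, ht⟩ hab
      · exact Or.inl h
      · exact Or.inr h
    · rintro (h | h)
      · exact Or.inl (Or.inr h)
      · exact Or.inr h

theorem gad_mono (D : Side q M B m) {y y' : Fin M × ZMod q → Bool} (hy : y ≤ y') :
    (gad (k := k) D y) ≤ gad D y' := by
  intro s t h
  rcases gad_adj_iff D y s t with ⟨u, hu, h1⟩ | ⟨h1, hno⟩
  · have hyu : y' u = true := by
      have h2 := hy u
      rw [h1.1 h] at h2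
      exact Bool.eq_true_of_true_le h2
    rcases hu with ⟨rfl, rfl⟩ | ⟨rfl, rfl⟩
    · exact ⟨by simp, fun _ => ⟨rfl, hyu⟩, trivial⟩
    · exact ⟨by simp, trivial, fun _ => ⟨rfl, hyu⟩⟩
  · rcases gad_adj_iff D y' s t with ⟨u, hu, _⟩ | ⟨h2, _⟩
    · exact absurd ⟨u, hu⟩ hno
    · exact h2.2 (h1.1 h)

/-- the graphs of two inputs differ only in the variable edges -/
theorem gad_agree (D : Side q M B m) (y y' : Fin M × ZMod q → Bool) (s t : Vx q M k B)
    (h : ¬ ∃ u, (s = .inr (.inl u) ∧ t = .inr (.inr (D.β u)) ∨
        t = .inr (.inl u) ∧ s = .inr (.inr (D.β u)))) :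
    (gad D y).Adj s t ↔ (gad D y').Adj s t := by
  rcases gad_adj_iff D y s t with ⟨u, hu, _⟩ | ⟨h1, _⟩
  · exact absurd ⟨u, hu⟩ h
  · rcases gad_adj_iff D y' s t with ⟨u, hu, _⟩ | ⟨h2, _⟩
    · exact absurd ⟨u, hu⟩ h
    · exact h1.trans h2.symm

theorem big_agree (D : Side q M B m) (e : Vx q M k B ↪ Fin V) (A : Finset (Fin V))
    (F : SimpleGraph (Fin V)) (y y' : Fin M × ZMod q → Bool) (x : Sym2 (Fin V))
    (hx : ∀ u, x ≠ s(e (.inr (.inl u)), e (.inr (.inr (D.β u))))) :
    x ∈ (big e A F (gad D y)).edgeSet ↔ x ∈ (big e A F (gad D y')).edgeSet := by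
  have key : ∀ y y' : Fin M × ZMod q → Bool, x ∈ (big e A F (gad D y)).edgeSet →
      x ∈ (big e A F (gad D y')).edgeSet := by
    intro y y'
    induction x using Sym2.ind with
    | _ a b =>
      rw [SimpleGraph.mem_edgeSet, SimpleGraph.mem_edgeSet]
      unfold big
      simp only [SimpleGraph.sup_adj]
      rintro ((h | h) | h)
      · rw [SimpleGraph.map_adj] at h
        obtain ⟨s, t, hst, rfl, rfl⟩ := h
        left; left
        rw [SimpleGraph.map_adj_apply]
        refine (gad_agree D y y' s t ?_).1 hst
        rintro ⟨u, ⟨rfl, rfl⟩ | ⟨rfl, rfl⟩⟩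
        · exact hx u rfl
        · exact hx u Sym2.eq_swap
      · exact Or.inl (Or.inr h)
      · exact Or.inr h
  exact ⟨key y y', key y' y⟩

theorem big_mono (D : Side q M B m) (e : Vx q M k B ↪ Fin V) (A : Finset (Fin V))
    (F : SimpleGraph (Fin V)) {y y' : Fin M × ZMod q → Bool} (hy : y ≤ y') :
    big e A F (gad D y) ≤ big e A F (gad D y') := by
  unfold big
  intro a b h
  simp only [SimpleGraph.sup_adj] at h ⊢
  rcases h with (h | h) | h
  · rw [SimpleGraph.map_adj] at h
    obtain ⟨s, t, hst, rfl, rfl⟩ := h
    left; left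
    rw [SimpleGraph.map_adj_apply]
    exact gad_mono D hy hst
  · exact Or.inl (Or.inr h)
  · exact Or.inr h

/-- number of positions -/
theorem positions_le (D : Side q M B m) (hk : 1 ≤ k) :
    M * k + M + m ≤ Fintype.card (Vx q M k B) := by
  obtain ⟨S, hS, _⟩ := (core_clique (k := k) hk D (fun _ => true)).2 ⟨fun _ => 0, fun _ => rfl⟩
  exact hS.trans (card_le_univ _)

end inst

theorem exists_A {V K : ℕ} {T : Type} [Fintype T] (e : T ↪ Fin V) (h : 2 * Fintype.card T ≤ V)
    (hK : K ≤ Fintype.card T) (hK1 : 1 ≤ K) :
    ∃ A : Finset (Fin V), (∀ a, e a ∉ A) ∧ V ≤ 2 * (A.card + K) ∧ 2 * (A.card + K) ≤ V + 1 := by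
  classical
  have h1 : ((univ.map e)ᶜ : Finset (Fin V)).card = V - Fintype.card T := by
    rw [card_compl, card_map, card_univ, Fintype.card_fin]
  obtain ⟨A, hA1, hA2⟩ := Finset.exists_subset_card_eq
    (show (V + 1) / 2 - K ≤ ((univ.map e)ᶜ : Finset (Fin V)).card by rw [h1]; omega)
  refine ⟨A, ?_, by omega, by omega⟩
  intro a ha
  have := hA1 ha
  rw [mem_compl, mem_map] at this
  exact this ⟨a, mem_univ _, rfl⟩

/-- extension of an injection -/
theorem exists_ext {V : ℕ} {I J : Type} [Fintype I] [Fintype J] (g : J → Fin V)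
    (hg : Function.Injective g) (h : Fintype.card I + Fintype.card J ≤ V) :
    ∃ e : I ⊕ J ↪ Fin V, ∀ j, e (.inr j) = g j := by
  classical
  have h1 : Fintype.card I ≤ Fintype.card {v : Fin V // v ∉ Set.range g} := by
    have h2 : Fintype.card {v : Fin V // v ∉ Set.range g} = V - Fintype.card J := by
      rw [Fintype.card_subtype_compl, Fintype.card_fin]
      congr 1
      exact Set.card_range_of_injective hg
    omega
  obtain ⟨f⟩ := Function.Embedding.nonempty_of_card_le h1
  refine ⟨⟨Sum.elim (fun i => (f i : Fin V)) g, ?_⟩, fun j => rfl⟩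
  intro x x' hxx
  rcases x with i | j <;> rcases x' with i' | j'
  · simp only [Sum.elim_inl] at hxx
    rw [f.injective (Subtype.ext hxx)]
  · simp only [Sum.elim_inl, Sum.elim_inr] at hxx
    exact absurd ⟨j', hxx.symm⟩ (f i).2
  · simp only [Sum.elim_inl, Sum.elim_inr] at hxx
    exact absurd ⟨j, hxx⟩ (f i').2
  · simp only [Sum.elim_inr] at hxx
    rw [hg hxx]

end Pool.Agent.V8H39.NP
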