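import Mathlib

/-!
# A set of edges contains a large star or a large matching
-/

namespace Pool.Agent.V8H39.NP

open Finset

variable {V : ℕ}

theorem star_or_matching (P : Finset (Sym2 (Fin V))) (hP : ∀ e ∈ P, ¬ e.IsDiag) (τ : ℕ)
    (h : 2 * τ ^ 2 ≤ P.card) :
    (∃ (c : Fin V) (g : Fin τ → Fin V), Function.Injective g ∧ (∀ i, g i ≠ c) ∧
      ∀ i, s(g i, c) ∈ P) ∨
    ∃ a b : Fin τ → Fin V, Function.Injective a ∧ Function.Injective b ∧
      (∀ i j, a i ≠ b j) ∧ ∀ i, s(a i, b i) ∈ P := by
  classical
  by_cases hdeg : ∃ c, τ ≤ (P.filter (c ∈ ·)).card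
  · left
    obtain ⟨c, hc⟩ := hdeg
    set L : Finset (Fin V) := univ.filter fun x => s(x, c) ∈ P with hL
    have h1 : (P.filter (c ∈ ·)).card ≤ L.card := by
      have : P.filter (c ∈ ·) ⊆ L.image fun x => s(x, c) := by
        intro e he
        rw [mem_filter] at he
        obtain ⟨x, hx⟩ := Sym2.mem_iff_exists.1 he.2
        rw [mem_image]
        refine ⟨x, ?_, ?_⟩
        · rw [hL, mem_filter, Sym2.eq_swap, ← hx]; exact ⟨mem_univ _, he.1⟩
        · rw [Sym2.eq_swap, hx]
      exact (card_le_card this).trans card_image_le
    have h2 : Fintype.card (Fin τ) ≤ Fintype.card L := by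
      rw [Fintype.card_fin, Fintype.card_coe]; exact hc.trans h1
    have hLm : ∀ x ∈ L, s(x, c) ∈ P := fun x hx => (mem_filter.1 hx).2
    obtain ⟨f⟩ := Function.Embedding.nonempty_of_card_le h2
    refine ⟨c, fun i => (f i : Fin V), ?_, ?_, ?_⟩
    · intro i j hij; exact f.injective (Subtype.ext hij)
    · intro i hi
      have h3 := hLm _ (f i).2
      have hi' : (f i : Fin V) = c := hi
      rw [hi'] at h3
      exact hP _ h3 ((Sym2.mk_isDiag_iff).2 rfl)
    · intro i
      exact hLm _ (f i).2
  · right
    push Not at hdeg
    have key : ∀ j, j ≤ τ → ∃ a b : Fin j → Fin V, Function.Injective a ∧ Function.Injective b ∧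
      (∀ i i', a i ≠ b i') ∧ ∀ i, s(a i, b i) ∈ P := by
      intro j
      induction j with
      | zero =>
        intro _
        exact ⟨Fin.elim0, Fin.elim0, fun i => i.elim0, fun i => i.elim0, fun i => i.elim0,
          fun i => i.elim0⟩
      | succ j ih =>
        intro hj
        obtain ⟨a, b, ha, hb, hab, hp⟩ := ih (by omega)
        set W : Finset (Fin V) := univ.image a ∪ univ.image b with hW
        have hWc : W.card ≤ 2 * j := by
          refine (card_union_le _ _).trans ?_
          have h1 : (univ.image a).card ≤ j := card_image_le.trans (by simp)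
          have h2 : (univ.image b).card ≤ j := card_image_le.trans (by simp)
          omega
        have hex : ∃ e ∈ P, ∀ w ∈ W, w ∉ e := by
          by_contra hno
          push Not at hno
          have hsub : P ⊆ W.biUnion fun w => P.filter (w ∈ ·) := by
            intro e he
            obtain ⟨w, hw, hwe⟩ := hno e he
            exact mem_biUnion.2 ⟨w, hw, mem_filter.2 ⟨he, hwe⟩⟩
          have h1 : P.card ≤ W.card * (τ - 1) := by
            refine (card_le_card hsub).trans ?_
            refine card_biUnion_le_card_mul _ _ _ fun w _ => ?_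
            have := hdeg w
            omega
          have h2 : W.card * (τ - 1) ≤ 2 * (τ - 1) * (τ - 1) :=
            Nat.mul_le_mul_right _ (by omega)
          obtain ⟨τ', rfl⟩ : ∃ τ', τ = τ' + 1 := ⟨τ - 1, by omega⟩
          have h3 : 2 * (τ' + 1 - 1) * (τ' + 1 - 1) < 2 * (τ' + 1) ^ 2 := by
            rw [Nat.add_sub_cancel]; nlinarith
          omega
        obtain ⟨e, he, hew⟩ := hex
        induction e using Sym2.ind with
        | _ x y =>
          have hxy : x ≠ y := by
            intro hxy
            exact hP _ he ((Sym2.mk_isDiag_iff).2 hxy)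
          have hx : x ∉ W := fun hx => hew x hx (Sym2.mem_mk_left _ _)
          have hy : y ∉ W := fun hy => hew y hy (Sym2.mem_mk_right _ _)
          rw [hW, mem_union, mem_image, mem_image] at hx hy
          push Not at hx hy
          refine ⟨Fin.cons x a, Fin.cons y b, ?_, ?_, ?_, ?_⟩
          · rw [Fin.cons_injective_iff]
            exact ⟨fun ⟨i, hi⟩ => hx.1 i (mem_univ _) hi, ha⟩
          · rw [Fin.cons_injective_iff]
            exact ⟨fun ⟨i, hi⟩ => hy.2 i (mem_univ _) hi, hb⟩
          · intro i i'
            refine Fin.cases ?_ (fun i => ?_) i <;> refine Fin.cases ?_ (fun i' => ?_) i'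
            · simpa using hxy
            · simpa using (hx.2 i' (mem_univ _)).symm
            · simpa using hy.1 i (mem_univ _)
            · simpa using hab i i'
          · intro i
            refine Fin.cases ?_ (fun i => ?_) i
            · simpa using he
            · simpa using hp i
    exact key τ le_rfl

end Pool.Agent.V8H39.NP
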