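import Pool.Agent.V8H39.NP.Extract
import Pool.Agent.V8H39.NP.Star

/-!
# Circuits that are monotone in some of the edges
-/

set_option linter.unusedSectionVars false

namespace Pool.Agent.V8H39.NP

open Finset Pool.Agent.H520R2 Pool.Agent.V8H38.NL

variable {q M k m V : ℕ} {B : Type} [Fintype B] [NeZero q]

/-- extraction of a monotone program from a circuit for the half-clique problem all of whose nodes
are monotone in the edges of `P` -/
theorem extract (hk : 1 ≤ k) (hM : 1 ≤ M) (D : Side q M B m) (e : Vx q M k B ↪ Fin V)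
    (P : Finset (Sym2 (Fin V)))
    (hP : ∀ u, s(e (.inr (.inl u)), e (.inr (.inr (D.β u)))) ∈ P)
    (hV : 2 * Fintype.card (Vx q M k B) ≤ V)
    (r : ℕ) (g : Fin r → SimpleGraph (Fin V) → Bool)
    (hg : ∀ i G G', (∀ x ∉ P, x ∈ G.edgeSet ↔ x ∈ G'.edgeSet) → g i G = g i G')
    (C : Circuit (V * V + r))
    (hC : ∀ G : SimpleGraph (Fin V), C.eval (Fin.append (adjBits G) fun i => g i G) = true ↔
      ∃ S : Finset (Fin V), V ≤ 2 * S.card ∧ G.IsClique (S : Set (Fin V)))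
    (hmon : ∀ (j : ℕ) (G G' : SimpleGraph (Fin V)), G ≤ G' →
      (∀ x ∉ P, x ∈ G.edgeSet ↔ x ∈ G'.edgeSet) →
      (values (Fin.append (adjBits G) fun i => g i G) C.nodes).getD j false = true →
      (values (Fin.append (adjBits G') fun i => g i G') C.nodes).getD j false = true) :
    ∃ f : (Fin M × ZMod q → Bool) → Bool, MComp (VB (Fin M × ZMod q)) C.size f ∧
      ∀ x, f x = true ↔ HasCw q M k x := by
  classical
  have hK := positions_le D hk
  have hK1 : 1 ≤ M * k + M + m := by omega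
  obtain ⟨A, hA, hA1, hA2⟩ := exists_A e hV hK hK1
  have hMk : 1 ≤ M * k := Nat.mul_pos hM hk
  have hF : Adm e A (M * k + M + m - 1) (⊥ : SimpleGraph (Fin V)) :=
    ⟨fun u v h => absurd h (by simp), fun u v h => absurd h (by simp)⟩
  set G : (Fin M × ZMod q → Bool) → SimpleGraph (Fin V) := fun y => big e A ⊥ (gad D y) with hG
  set inp : (Fin M × ZMod q → Bool) → Fin (V * V + r) → Bool :=
    fun y => Fin.append (adjBits (G y)) fun i => g i (G y) with hinp
  have hag : ∀ y y', ∀ x ∉ P, x ∈ (G y).edgeSet ↔ x ∈ (G y').edgeSet := by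
    intro y y' x hx
    refine big_agree D e A ⊥ y y' x fun u hu => ?_
    rw [hu] at hx
    exact hx (hP u)
  have hin : ∀ p, (fun y => inp y p) ∈ VB (Fin M × ZMod q) := by
    intro p
    refine Fin.addCases (fun p => ?_) (fun i => ?_) p
    · have h1 := bits_VB D e A ⊥ (M * k + M + m - 1) hA hF p
      have h2 : (fun y => inp y (Fin.castAdd r p)) = fun y => adjBits (big e A ⊥ (gad D y)) p := by
        funext y; simp only [hinp, Fin.append_left]; rfl
      rw [h2]; exact h1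
    · left
      refine ⟨g i (G fun _ => false), ?_⟩
      funext y
      simp only [hinp, Fin.append_right]
      exact hg i _ _ (hag _ _)
  have hres := restrict inp hin C.nodes (by
    intro j a _ y y' hyy
    have h1 := hmon j (G y) (G y') (big_mono D e A ⊥ hyy) (hag y y')
    rw [Bool.le_iff_imp]
    exact h1)
  obtain ⟨L, hL1, hL2, hL3⟩ := hres
  refine ⟨fun y => nd (inp y) C.nodes C.out, ⟨L, hL1, hL2, hL3 C.out⟩, ?_⟩
  intro y
  have h1 : nd (inp y) C.nodes C.out = C.eval (inp y) := rfl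
  show nd (inp y) C.nodes C.out = true ↔ _
  rw [h1, hC (G y), half_clique_iff (κ := M * k + M + m - 1) (K := M * k + M + m) hA (by omega)
    (by omega) hF hA1 hA2, core_clique hk]

/-- the data for a star -/
def starSide (hM : 1 ≤ M) : Side q M Unit 1 where
  β := fun _ => ()
  pb := fun _ => 0
  ρ := fun _ => 0
  h1 := fun _ => rfl
  h2 := fun t => ⟨⟨0, hM⟩, by omega⟩
  h3 := fun _ _ _ => Or.inr fun _ _ _ _ => rfl

/-- the data for a matching -/
def matchSide : Side q M (Fin M × ZMod q) M where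
  β := id
  pb := Prod.fst
  ρ := id
  h1 := fun _ => rfl
  h2 := fun t => ⟨t, rfl⟩
  h3 := fun _ _ h => Or.inl h

theorem mono_vars_core (δ : ℝ) (hδ : 0 < δ) : ∃ k0 : ℕ, ∀ k : ℕ, k0 ≤ k →
    ∃ τ : ℕ, (τ : ℝ) ≤ (k : ℝ) ^ (2 + δ) ∧ ∀ (V : ℕ) (P : Finset (Sym2 (Fin V))),
      (∀ e ∈ P, ¬ e.IsDiag) → 2 * τ ^ 2 ≤ P.card → 6 * τ ^ 2 ≤ V →
      ∀ (r : ℕ) (g : Fin r → SimpleGraph (Fin V) → Bool),
      (∀ i G G', (∀ x ∉ P, x ∈ G.edgeSet ↔ x ∈ G'.edgeSet) → g i G = g i G') →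
      ∀ C : Circuit (V * V + r),
      (∀ G : SimpleGraph (Fin V), C.eval (Fin.append (adjBits G) fun i => g i G) = true ↔
        ∃ S : Finset (Fin V), V ≤ 2 * S.card ∧ G.IsClique (S : Set (Fin V))) →
      (∀ (j : ℕ) (G G' : SimpleGraph (Fin V)), G ≤ G' →
        (∀ x ∉ P, x ∈ G.edgeSet ↔ x ∈ G'.edgeSet) →
        (values (Fin.append (adjBits G) fun i => g i G) C.nodes).getD j false = true →
        (values (Fin.append (adjBits G') fun i => g i G') C.nodes).getD j false = true) →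
      2 ^ k < C.size := by
  classical
  obtain ⟨k0, hk0⟩ := base δ hδ
  refine ⟨k0, fun k hk => ?_⟩
  obtain ⟨q, M, hq, hk1, hkM, hMq, hsz, hlow⟩ := hk0 k hk
  have hM1 : 1 ≤ M := hk1.trans hkM
  have hq0 : NeZero q := ⟨hq.ne_zero⟩
  refine ⟨M * q, hsz, fun V P hP hP2 hV r g hg C hC hmon => ?_⟩
  have hU : Fintype.card (Fin M × ZMod q) = M * q := by
    rw [Fintype.card_prod, Fintype.card_fin, ZMod.card]
  have hT1 : Fintype.card (Fin M × Fin k × ZMod q × ZMod q) ≤ (M * q) ^ 2 := by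
    rw [Fintype.card_prod, Fintype.card_prod, Fintype.card_prod, Fintype.card_fin,
      Fintype.card_fin, ZMod.card]
    calc M * (k * (q * q)) = (M * q) * (k * q) := by ring
      _ ≤ (M * q) * (M * q) := Nat.mul_le_mul_left _ (Nat.mul_le_mul_right _ hkM)
      _ = _ := by ring
  have hMq1 : 1 ≤ M * q := Nat.mul_pos hM1 hq.pos
  have hMq2 : M * q ≤ (M * q) ^ 2 := by nlinarith
  rcases star_or_matching P hP (M * q) hP2 with ⟨c, gg, h1, h2, h3⟩ | ⟨a, b, h1, h2, h3, h4⟩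
  · have hcard : Fintype.card (Fin M × ZMod q) ≤ Fintype.card (Fin (M * q)) := by
      rw [hU, Fintype.card_fin]
    obtain ⟨ι⟩ := Function.Embedding.nonempty_of_card_le hcard
    have hinj : Function.Injective (Sum.elim (fun u => gg (ι u)) (fun _ : Unit => c)) := by
      intro x x' hxx
      rcases x with u | u <;> rcases x' with u' | u'
      · simp only [Sum.elim_inl] at hxx
        rw [ι.injective (h1 hxx)]
      · simp only [Sum.elim_inl, Sum.elim_inr] at hxx
        exact absurd hxx (h2 _)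
      · simp only [Sum.elim_inl, Sum.elim_inr] at hxx
        exact absurd hxx.symm (h2 _)
      · rfl
    obtain ⟨e, he⟩ := exists_ext (I := Fin M × Fin k × ZMod q × ZMod q) _ hinj (by
      rw [Fintype.card_sum, hU, Fintype.card_unit]; omega)
    obtain ⟨f, hf1, hf2⟩ := extract hk1 hM1 (starSide hM1) e P (by
      intro u
      rw [he, he]
      simp only [Sum.elim_inl, Sum.elim_inr]
      exact h3 _) (by
      rw [Fintype.card_sum, Fintype.card_sum, hU, Fintype.card_unit]; omega)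
      r g hg C hC hmon
    exact hlow _ f hf1 hf2
  · have hcard : Fintype.card (Fin M × ZMod q) ≤ Fintype.card (Fin (M * q)) := by
      rw [hU, Fintype.card_fin]
    obtain ⟨ι⟩ := Function.Embedding.nonempty_of_card_le hcard
    have hinj : Function.Injective (Sum.elim (fun u => a (ι u))
        (fun u : Fin M × ZMod q => b (ι u))) := by
      intro x x' hxx
      rcases x with u | u <;> rcases x' with u' | u'
      · simp only [Sum.elim_inl] at hxx
        rw [ι.injective (h1 hxx)]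
      · simp only [Sum.elim_inl, Sum.elim_inr] at hxx
        exact absurd hxx (h3 _ _)
      · simp only [Sum.elim_inl, Sum.elim_inr] at hxx
        exact absurd hxx.symm (h3 _ _)
      · simp only [Sum.elim_inr] at hxx
        rw [ι.injective (h2 hxx)]
    obtain ⟨e, he⟩ := exists_ext (I := Fin M × Fin k × ZMod q × ZMod q) _ hinj (by
      rw [Fintype.card_sum, hU]; omega)
    obtain ⟨f, hf1, hf2⟩ := extract hk1 hM1 matchSide e P (by
      intro u
      rw [he, he]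
      simp only [Sum.elim_inl, Sum.elim_inr]
      exact h4 _) (by
      rw [Fintype.card_sum, Fintype.card_sum, hU]; omega)
      r g hg C hC hmon
    exact hlow _ f hf1 hf2

theorem mono_vars (ε : ℝ) (hε : 0 < ε) : ∃ t0 : ℕ, ∀ V t : ℕ, t0 ≤ t → t ≤ V →
    ∀ P : Finset (Sym2 (Fin V)), (∀ e ∈ P, ¬ e.IsDiag) → t ≤ P.card →
      ∀ (r : ℕ) (g : Fin r → SimpleGraph (Fin V) → Bool),
      (∀ i G G', (∀ x ∉ P, x ∈ G.edgeSet ↔ x ∈ G'.edgeSet) → g i G = g i G') →
      ∀ C : Circuit (V * V + r),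
      (∀ G : SimpleGraph (Fin V), C.eval (Fin.append (adjBits G) fun i => g i G) = true ↔
        ∃ S : Finset (Fin V), V ≤ 2 * S.card ∧ G.IsClique (S : Set (Fin V))) →
      (∀ (j : ℕ) (G G' : SimpleGraph (Fin V)), G ≤ G' →
        (∀ x ∉ P, x ∈ G.edgeSet ↔ x ∈ G'.edgeSet) →
        (values (Fin.append (adjBits G) fun i => g i G) C.nodes).getD j false = true →
        (values (Fin.append (adjBits G') fun i => g i G') C.nodes).getD j false = true) →
      (2 : ℝ) ^ ((t : ℝ) ^ (1 / 4 - ε)) < C.size := by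
  set ε' : ℝ := min ε (1 / 8) with hε'
  have hε0 : 0 < ε' := lt_min hε (by norm_num)
  have hε8 : ε' ≤ 1 / 8 := min_le_right _ _
  obtain ⟨k0, hk0⟩ := mono_vars_core ε' hε0
  have hev : ∀ᶠ t : ℕ in Filter.atTop, (6 * (2 : ℝ) ^ (2 * (2 + ε'))) * (t : ℝ) ^ (1 - ε') ≤
      (t : ℝ) ^ (1 : ℝ) := const_mul_rpow_le _ (by linarith)
  obtain ⟨t1, ht1⟩ := Filter.eventually_atTop.1 hev
  refine ⟨max t1 (max 1 (k0 ^ 8)), fun V t ht htV P hP hPt r g hg C hC hmon => ?_⟩
  have h1 := ht1 t (le_trans (le_max_left _ _) ht)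
  have ht2 : 1 ≤ t := le_trans (le_trans (le_max_left _ _) (le_max_right _ _)) ht
  have ht3 : k0 ^ 8 ≤ t := le_trans (le_trans (le_max_right _ _) (le_max_right _ _)) ht
  have htR : (1 : ℝ) ≤ t := by exact_mod_cast ht2
  set k : ℕ := ⌈(t : ℝ) ^ (1 / 4 - ε')⌉₊ with hk
  have hk1 : (t : ℝ) ^ (1 / 4 - ε') ≤ k := Nat.le_ceil _
  have hp1 : (1 : ℝ) ≤ (t : ℝ) ^ (1 / 4 - ε') := Real.one_le_rpow htR (by linarith)
  have hk2 : (k : ℝ) ≤ 2 * (t : ℝ) ^ (1 / 4 - ε') := by
    have := Nat.ceil_lt_add_one (show (0 : ℝ) ≤ (t : ℝ) ^ (1 / 4 - ε') by positivity)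
    rw [← hk] at this
    linarith
  have hkk0 : k0 ≤ k := by
    have h2 : ((k0 : ℝ) ^ (8 : ℕ)) ≤ t := by exact_mod_cast ht3
    have h3 : (k0 : ℝ) ≤ (t : ℝ) ^ ((1 : ℝ) / 8) := by
      have h4 : (((k0 : ℝ) ^ (8 : ℕ)) ^ ((1 : ℝ) / 8)) = k0 := by
        rw [← Real.rpow_natCast, ← Real.rpow_mul (by positivity)]
        norm_num
      calc (k0 : ℝ) = (((k0 : ℝ) ^ (8 : ℕ)) ^ ((1 : ℝ) / 8)) := h4.symm
        _ ≤ _ := Real.rpow_le_rpow (by positivity) h2 (by norm_num)
    have h4 : (t : ℝ) ^ ((1 : ℝ) / 8) ≤ (t : ℝ) ^ (1 / 4 - ε') :=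
      Real.rpow_le_rpow_of_exponent_le htR (by linarith)
    have h5 : (k0 : ℝ) ≤ k := h3.trans (h4.trans hk1)
    exact_mod_cast h5
  obtain ⟨τ, hτ, hmain⟩ := hk0 k hkk0
  have hτ2 : 6 * τ ^ 2 ≤ t := by
    have h2 : (τ : ℝ) ≤ (2 * (t : ℝ) ^ (1 / 4 - ε')) ^ (2 + ε') :=
      hτ.trans (Real.rpow_le_rpow (by positivity) hk2 (by linarith))
    have h3 : (τ : ℝ) ^ 2 ≤ (2 : ℝ) ^ (2 * (2 + ε')) * (t : ℝ) ^ (1 - ε') := by
      calc (τ : ℝ) ^ 2 ≤ ((2 * (t : ℝ) ^ (1 / 4 - ε')) ^ (2 + ε')) ^ 2 := by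
            gcongr
        _ = (2 : ℝ) ^ (2 * (2 + ε')) * (t : ℝ) ^ ((1 / 4 - ε') * (2 * (2 + ε'))) := by
            rw [← Real.rpow_natCast, ← Real.rpow_mul (by positivity),
              Real.mul_rpow (by norm_num) (by positivity), ← Real.rpow_mul (by positivity)]
            push_cast
            ring_nf
        _ ≤ (2 : ℝ) ^ (2 * (2 + ε')) * (t : ℝ) ^ (1 - ε') := by
            gcongr
            nlinarith
    have h4 : (6 : ℝ) * (τ : ℝ) ^ 2 ≤ t := by
      rw [Real.rpow_one] at h1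
      calc (6 : ℝ) * (τ : ℝ) ^ 2 ≤ 6 * ((2 : ℝ) ^ (2 * (2 + ε')) * (t : ℝ) ^ (1 - ε')) := by
            gcongr
        _ = (6 * (2 : ℝ) ^ (2 * (2 + ε'))) * (t : ℝ) ^ (1 - ε') := by ring
        _ ≤ t := h1
    exact_mod_cast h4
  have h5 := hmain V P hP (by omega) (by omega) r g hg C hC hmon
  have h6 : (2 : ℝ) ^ ((t : ℝ) ^ (1 / 4 - ε)) ≤ (2 : ℝ) ^ ((k : ℕ) : ℝ) := by
    apply Real.rpow_le_rpow_of_exponent_le (by norm_num)
    refine le_trans ?_ hk1
    exact Real.rpow_le_rpow_of_exponent_le htR (by linarith [min_le_left ε (1 / 8)])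
  rw [Real.rpow_natCast] at h6
  have h7 : ((2 : ℝ) ^ k) < C.size := by exact_mod_cast h5
  linarith

end Pool.Agent.V8H39.NP
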