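import Pool.Agent.V8H39.NP.Circ

/-!
# Windows of slices with few NOT gates: the upper bound
-/

set_option linter.unusedSectionVars false

namespace Pool.Agent.V8H39.NP

open Finset Pool.Agent.H520R2 Pool.Agent.V8H38.NL

variable {n : ℕ}

theorem GP.many {s t : ℕ} {L : List ((Fin n → Bool) → Bool)} (h : GP n s t L)
    (a b c d : ℕ → (Fin n → Bool) → Bool) : ∀ m : ℕ,
    (∀ j < m, Av (VB (Fin n)) L (a j) ∧ Av (VB (Fin n)) L (b j) ∧ Av (VB (Fin n)) L (c j) ∧
      Av (VB (Fin n)) L (d j)) →
    ∃ L' : List ((Fin n → Bool) → Bool), GP n (s + 3 * m) t (L' ++ L) ∧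
      ∀ j < m, Av (VB (Fin n)) (L' ++ L) (fun x => (a j x && b j x) || (c j x && d j x)) := by
  intro m
  induction m with
  | zero => intro _; exact ⟨[], by simpa using h, fun j hj => absurd hj (by omega)⟩
  | succ m ih =>
    intro hm
    obtain ⟨L', h1, h2⟩ := ih (fun j hj => hm j (by omega))
    obtain ⟨ha, hb, hc, hd⟩ := hm m (by omega)
    have q1 := GP.and h1 (ha.mono L') (hb.mono L')
    have q2 := GP.and q1 ((hc.mono L').cons _) ((hd.mono L').cons _)
    have q3 := GP.or q2 (f := fun x => a m x && b m x) (g := fun x => c m x && d m x)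
      (Or.inr (by simp)) (Or.inr (by simp))
    refine ⟨_ :: _ :: _ :: L', by
      have : s + 3 * (m + 1) = s + 3 * m + 1 + 1 + 1 := by ring
      rw [this]; exact q3, fun j hj => ?_⟩
    rcases Nat.lt_or_ge j m with h3 | h3
    · exact (((h2 j h3).cons _).cons _).cons _
    · have : j = m := by omega
      subst this
      exact Or.inr (by simp)

theorem mux : ∀ (t s t0 : ℕ) (L : List ((Fin n → Bool) → Bool)), GP n s t0 L →
    ∀ θ G : ℕ → (Fin n → Bool) → Bool, (∀ b, 1 ≤ b → b < 2 ^ t → Av (VB (Fin n)) L (θ b)) →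
      (∀ b < 2 ^ t, Av (VB (Fin n)) L (G b)) →
      ∃ (L' : List ((Fin n → Bool) → Bool)) (o : (Fin n → Bool) → Bool) (s' : ℕ),
        GP n s' (t0 + t) (L' ++ L) ∧ s' ≤ s + 6 * 2 ^ t ∧ Av (VB (Fin n)) (L' ++ L) o ∧
        ∀ x b', b' < 2 ^ t → (∀ b, 1 ≤ b → b < 2 ^ t → (θ b x = true ↔ b ≤ b')) →
          o x = G b' x := by
  intro t
  induction t with
  | zero =>
    intro s t0 L hL θ G _ hG
    refine ⟨[], G 0, s, by simpa using hL, by omega, by simpa using hG 0 (by norm_num), ?_⟩
    intro x b' hb' _
    have : b' = 0 := by simpa using hb'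
    rw [this]
  | succ t ih =>
    intro s t0 L hL θ G hθ hG
    set H := 2 ^ t with hH
    have hH1 : 1 ≤ H := Nat.one_le_pow _ _ (by norm_num)
    have hH2 : 2 ^ (t + 1) = H + H := by rw [pow_succ, hH]; ring
    have hβ := hθ H hH1 (by omega)
    have q1 := GP.not hL hβ
    obtain ⟨L1, q2, q3⟩ := GP.many q1 (fun _ => θ H) (fun j => θ (H + (j + 1)))
      (fun _ => fun x => !θ H x) (fun j => θ (j + 1)) (H - 1) (by
        intro j hj
        refine ⟨hβ.cons _, (hθ _ (by omega) (by omega)).cons _, Or.inr List.mem_cons_self,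
          (hθ _ (by omega) (by omega)).cons _⟩)
    obtain ⟨L2, q4, q5⟩ := GP.many q2 (fun _ => θ H) (fun j => G (H + j))
      (fun _ => fun x => !θ H x) G H (by
        intro j hj
        have hn : Av (VB (Fin n)) ((fun x => !θ H x) :: L) (fun x => !θ H x) :=
          Or.inr List.mem_cons_self
        refine ⟨(hβ.cons _).mono _, ((hG _ (by omega)).cons _).mono _, hn.mono _,
          ((hG _ (by omega)).cons _).mono _⟩)
    set θ' : ℕ → (Fin n → Bool) → Bool := fun b => fun x =>
      (θ H x && θ (H + (b - 1 + 1)) x) || (!θ H x && θ (b - 1 + 1) x) with hθ'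
    set G' : ℕ → (Fin n → Bool) → Bool := fun j => fun x =>
      (θ H x && G (H + j) x) || (!θ H x && G j x) with hG'
    obtain ⟨L3, o, s', r1, r2, r3, r4⟩ := ih _ _ _ q4 θ' G' (by
        intro b hb1 hb2
        exact (q3 (b - 1) (by omega)).mono L2) (by
        intro j hj
        exact q5 j hj)
    refine ⟨L3 ++ (L2 ++ (L1 ++ [fun x => !θ H x])), o, s', ?_, ?_, ?_, ?_⟩
    · have e : t0 + (t + 1) = t0 + 1 + t := by ring
      rw [e]
      simpa using r1
    · have : s' ≤ s + 3 * (H - 1) + 3 * H + 6 * 2 ^ t := r2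
      rw [hH2]; omega
    · simpa using r3
    · intro x b' hb' hb
      have hβx := hb H hH1 (by omega)
      by_cases hcase : H ≤ b'
      · have hb1 : θ H x = true := hβx.2 hcase
        have := r4 x (b' - H) (by omega) (by
          intro b h1 h2
          have h3 := hb (H + b) (by omega) (by omega)
          have h4 : b - 1 + 1 = b := by omega
          simp only [hθ', hb1, h4, Bool.true_and, Bool.not_true, Bool.false_and, Bool.or_false]
          rw [h3]; omega)
        rw [this]
        have h5 : H + (b' - H) = b' := by omega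
        simp only [hG', hb1, Bool.true_and, Bool.not_true, Bool.false_and, Bool.or_false, h5]
      · have hb1 : θ H x = false := by
          rw [← Bool.not_eq_true, hβx]; exact hcase
        have := r4 x b' (by omega) (by
          intro b h1 h2
          have h3 := hb b h1 (by omega)
          have h4 : b - 1 + 1 = b := by omega
          simp only [hθ', hb1, h4, Bool.false_and, Bool.not_false, Bool.true_and, Bool.false_or]
          exact h3)
        rw [this]
        simp only [hG', hb1, Bool.false_and, Bool.not_false, Bool.true_and, Bool.false_or]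

/-- **Upper bound for windows of slices.** -/
theorem window_upper (f : (Fin n → Bool) → Bool) (hf : Monotone f) (C : Circuit n)
    (a w c t : ℕ) (hC : ∀ x, a ≤ wt x → wt x ≤ a + w → C.eval x = f x)
    (hw : w + 1 ≤ (c + 1) * 2 ^ t) :
    ∃ D : Circuit n, D.nots ≤ t ∧
      D.size ≤ 2 ^ t * (n + 1) ^ (c + 1) * (4 * n ^ 2 + 2 * C.size + 7) ∧
      ∀ x, a ≤ wt x → wt x ≤ a + w → D.eval x = f x := by
  have htrue : (fun _ => true) ∈ VB (Fin n) := Or.inl ⟨true, rfl⟩
  have hfalse : (fun _ => false) ∈ VB (Fin n) := Or.inl ⟨false, rfl⟩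
  have hwtn : ∀ x : Fin n → Bool, wt x ≤ n := by
    intro x
    unfold wt
    refine (card_le_univ _).trans ?_
    simp
  -- the programs for the blocks
  have hblocks : ∀ m : ℕ, ∃ (L : List ((Fin n → Bool) → Bool)) (G : ℕ → (Fin n → Bool) → Bool),
      MProg (VB (Fin n)) L ∧
      L.length ≤ m * ((n + 1) ^ (c + 1) * (2 * n ^ 2 + 2 * C.size + 1)) ∧
      ∀ b < m, Av (VB (Fin n)) L (G b) ∧
        (∀ x, a + b * (c + 1) ≤ wt x → wt x < a + b * (c + 1) + (c + 1) → wt x ≤ a + w →
          G b x = f x) := by
    intro m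
    induction m with
    | zero => exact ⟨[], fun _ _ => false, MProg.nil, by simp, fun b hb => absurd hb (by omega)⟩
    | succ m ih =>
      obtain ⟨L, G, h1, h2, h3⟩ := ih
      have hblock : ∃ (L' : List ((Fin n → Bool) → Bool)) (g : (Fin n → Bool) → Bool),
          MProg (VB (Fin n)) L' ∧
          L'.length ≤ (n + 1) ^ (c + 1) * (2 * n ^ 2 + 2 * C.size + 1) ∧ Av (VB (Fin n)) L' g ∧
          ∀ x, a + m * (c + 1) ≤ wt x → wt x < a + m * (c + 1) + (c + 1) → wt x ≤ a + w →
            g x = f x := by
        by_cases hmw : a + m * (c + 1) ≤ a + w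
        · obtain ⟨L', g, k1, k2, k3, k4, k5⟩ := window_prog f hf C (a + m * (c + 1))
            (min c (a + w - (a + m * (c + 1)))) (by
              intro x hx1 hx2
              refine hC x (by omega) ?_
              have := min_le_right c (a + w - (a + m * (c + 1)))
              omega) _ le_rfl
          refine ⟨L', g, k1, k2.trans ?_, k3, ?_⟩
          · refine Nat.mul_le_mul_right _ (Nat.pow_le_pow_right (by omega) ?_)
            have := min_le_left c (a + w - (a + m * (c + 1)))
            omega
          · intro x hx1 hx2 hx3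
            have hmin : wt x ≤ a + m * (c + 1) + min c (a + w - (a + m * (c + 1))) := by
              rcases min_choice c (a + w - (a + m * (c + 1))) with h | h <;> rw [h] <;> omega
            cases hfx : f x with
            | true => exact k4 x hx1 hmin hfx
            | false => exact k5 x (by omega) hfx
        · exact ⟨[], fun _ => false, MProg.nil, by simp, Or.inl hfalse,
            fun x hx1 _ hx3 => absurd hx3 (by omega)⟩
      obtain ⟨L', g, k1, k2, k3, k4⟩ := hblock
      refine ⟨L' ++ L, Function.update G m g, h1.append k1, ?_, ?_⟩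
      · rw [List.length_append]
        calc _ ≤ (n + 1) ^ (c + 1) * (2 * n ^ 2 + 2 * C.size + 1) +
              m * ((n + 1) ^ (c + 1) * (2 * n ^ 2 + 2 * C.size + 1)) := Nat.add_le_add k2 h2
          _ = _ := by ring
      · intro b hb
        by_cases hbm : b = m
        · subst hbm
          rw [Function.update_self]
          exact ⟨k3.imp id (List.mem_append_left _), k4⟩
        · rw [Function.update_of_ne hbm]
          obtain ⟨h4, h5⟩ := h3 b (by omega)
          exact ⟨h4.mono L', h5⟩
  obtain ⟨L, G, h1, h2, h3⟩ := hblocks (2 ^ t)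
  obtain ⟨LT, hLT, hlenT, havT⟩ := thr_prog (MProg.nil (B := VB (Fin n)))
    ((List.finRange n).map fun i => fun x : Fin n → Bool => x i) (by
      intro g hg
      rw [List.mem_map] at hg
      obtain ⟨i, _, rfl⟩ := hg
      exact Or.inl (Or.inr ⟨i, rfl⟩)) htrue hfalse n
  rw [List.length_map, List.length_finRange] at hlenT
  have hLT' : MProg (VB (Fin n)) LT := by simpa using hLT
  have h4 : MProg (VB (Fin n)) (LT ++ L) := h1.append hLT'
  have h5 : GP n (LT ++ L).length 0 (LT ++ L) := by
    have := (GP.nil (n := n)).append h4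
    simpa using this
  -- thresholds
  set θ : ℕ → (Fin n → Bool) → Bool := fun b => if a + b * (c + 1) ≤ n then
    thr ((List.finRange n).map fun i => fun x : Fin n → Bool => x i) (a + b * (c + 1))
    else fun _ => false with hθ
  have hθav : ∀ b, Av (VB (Fin n)) (LT ++ L) (θ b) := by
    intro b
    rw [hθ]
    by_cases hb : a + b * (c + 1) ≤ n
    · simp only [hb, if_true]
      have := havT _ hb
      exact this.imp id (fun h => List.mem_append_left _ (by simpa using h))
    · simp only [hb, if_false]
      exact Or.inl hfalse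
  have hθx : ∀ b x, θ b x = true ↔ a + b * (c + 1) ≤ wt x := by
    intro b x
    rw [hθ]
    by_cases hb : a + b * (c + 1) ≤ n
    · simp only [hb, if_true, thr, cnt_vars, decide_eq_true_eq]
    · have := hwtn x
      simp only [hb, if_false]
      constructor
      · intro h; exact absurd h (by simp)
      · intro h; omega
  obtain ⟨L', o, s', r1, r2, r3, r4⟩ := mux t _ _ _ h5 θ G (fun b _ _ => hθav b)
    (fun b hb => (h3 b hb).1.imp id (List.mem_append_right _))
  obtain ⟨D, hD1, hD2, hD3⟩ := r1.toCircuit r3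
  refine ⟨D, ?_, ?_, ?_⟩
  · rw [hD2]; omega
  · rw [hD1]
    have h6 : (LT ++ L).length ≤ 2 * n * n +
        2 ^ t * ((n + 1) ^ (c + 1) * (2 * n ^ 2 + 2 * C.size + 1)) := by
      rw [List.length_append]
      exact Nat.add_le_add hlenT h2
    have h7 : 1 ≤ 2 ^ t * (n + 1) ^ (c + 1) := Nat.one_le_iff_ne_zero.2 (by positivity)
    have h8 : 2 ^ t ≤ 2 ^ t * (n + 1) ^ (c + 1) :=
      Nat.le_mul_of_pos_right _ (by positivity)
    calc s' ≤ (LT ++ L).length + 6 * 2 ^ t := r2
      _ ≤ 2 * n * n + 2 ^ t * ((n + 1) ^ (c + 1) * (2 * n ^ 2 + 2 * C.size + 1)) + 6 * 2 ^ t := by omega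
      _ ≤ (2 ^ t * (n + 1) ^ (c + 1)) * (2 * n ^ 2) +
            2 ^ t * ((n + 1) ^ (c + 1) * (2 * n ^ 2 + 2 * C.size + 1)) +
            6 * (2 ^ t * (n + 1) ^ (c + 1)) := by
          have h9 : 2 * n * n ≤ (2 ^ t * (n + 1) ^ (c + 1)) * (2 * n ^ 2) := by
            calc 2 * n * n = 1 * (2 * n ^ 2) := by ring
              _ ≤ _ := Nat.mul_le_mul_right _ h7
          omega
      _ = _ := by ring
  · intro x hx1 hx2
    rw [hD3]
    have hc1 : 0 < c + 1 := by omega
    set b' := (wt x - a) / (c + 1) with hb'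
    have hb1 : b' < 2 ^ t := by
      rw [hb', Nat.div_lt_iff_lt_mul hc1, mul_comm]
      omega
    have hb2 : b' * (c + 1) ≤ wt x - a := Nat.div_mul_le_self _ _
    have hb3 : wt x - a < b' * (c + 1) + (c + 1) := by
      have := Nat.lt_mul_div_succ (wt x - a) hc1
      rw [← hb'] at this
      calc _ < (c + 1) * (b' + 1) := this
        _ = _ := by ring
    rw [r4 x b' hb1 (by
      intro b _ _
      rw [hθx]
      constructor
      · intro h
        by_contra hlt
        push Not at hlt
        have : (b' + 1) * (c + 1) ≤ b * (c + 1) := Nat.mul_le_mul_right _ hlt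
        have h10 : (b' + 1) * (c + 1) = b' * (c + 1) + (c + 1) := by ring
        omega
      · intro h
        have : b * (c + 1) ≤ b' * (c + 1) := Nat.mul_le_mul_right _ h
        omega)]
    exact (h3 b' hb1).2 x (by omega) (by omega) hx2

end Pool.Agent.V8H39.NP
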