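import Pool.Agent.V8H39.NP.Approx

/-!
# Graphs of polynomials of low degree over a prime field
-/

set_option linter.unusedSectionVars false

namespace Pool.Agent.V8H39.NP

open Finset Pool.Agent.H520R2

/-- the value at `i` of the polynomial with the coefficients `c` -/
def pval {q k : ℕ} (c : Fin k → ZMod q) (i : ℕ) : ZMod q := ∑ j : Fin k, c j * (i : ZMod q) ^ (j : ℕ)

/-- the graph of the polynomial with the coefficients `c` on `0, ..., M - 1` -/
def cw (q M k : ℕ) (c : Fin k → ZMod q) : Finset (Fin M × ZMod q) :=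
  univ.image fun i : Fin M => (i, pval c (i : ℕ))

theorem mem_cw {q M k : ℕ} (c : Fin k → ZMod q) (u : Fin M × ZMod q) :
    u ∈ cw q M k c ↔ u.2 = pval c (u.1 : ℕ) := by
  rw [cw, mem_image]
  constructor
  · rintro ⟨i, _, rfl⟩; rfl
  · intro h
    exact ⟨u.1, mem_univ _, by rw [← h]⟩

theorem pval_inj {q k : ℕ} [Fact q.Prime] (c c' : Fin k → ZMod q) (I : Finset ℕ)
    (hI : I.card = k) (hIq : ∀ i ∈ I, i < q) (h : ∀ i ∈ I, pval c i = pval c' i) : c = c' := by
  have e := (I.orderIsoOfFin hI)
  have h0 : (fun j => c j - c' j) = 0 := by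
    refine Matrix.eq_zero_of_forall_index_sum_mul_pow_eq_zero
      (f := fun j : Fin k => (((e j : I) : ℕ) : ZMod q)) ?_ ?_
    · intro a b hab
      simp only at hab
      have h1 := (ZMod.natCast_eq_natCast_iff' _ _ _).1 hab
      rw [Nat.mod_eq_of_lt (hIq _ (e a).2), Nat.mod_eq_of_lt (hIq _ (e b).2)] at h1
      exact e.injective (Subtype.ext h1)
    · intro j
      have h1 := h _ (e j).2
      unfold pval at h1
      simp only [sub_mul, Finset.sum_sub_distrib]
      rw [h1, sub_self]
  funext j
  have := congrFun h0 j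
  simpa [sub_eq_zero] using this

open Classical in
theorem cw_spread {q M k : ℕ} [Fact q.Prime] (hkM : k ≤ M) (hMq : M ≤ q) :
    PosSpread (cw q M k) k q := by
  intro A hA
  rw [Fintype.card_fun, ZMod.card, Fintype.card_fin]
  rcases (univ.filter fun c => A ⊆ cw q M k c).eq_empty_or_nonempty with he | ⟨c0, hc0⟩
  · rw [he]; simp
  rw [mem_filter] at hc0
  have hfst : (A.image Prod.fst).card = A.card := by
    apply card_image_of_injOn
    intro u hu v hv huv
    have h1 := (mem_cw c0 u).1 (hc0.2 hu)
    have h2 := (mem_cw c0 v).1 (hc0.2 hv)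
    refine Prod.ext huv ?_
    rw [h1, h2, huv]
  obtain ⟨I, hI1, hI2, hI3⟩ := Finset.exists_subsuperset_card_eq
    (s := A.image Prod.fst) (t := (univ : Finset (Fin M))) (subset_univ _) (n := k)
    (by rw [hfst]; exact hA) (by rw [card_univ, Fintype.card_fin]; exact hkM)
  set J := I \ A.image Prod.fst with hJ
  have hJc : J.card = k - A.card := by
    rw [hJ, card_sdiff_of_subset hI1, hI3, hfst]
  have hinj : (univ.filter fun c => A ⊆ cw q M k c).card ≤
      (univ : Finset (J → ZMod q)).card := by
    apply card_le_card_of_injOn (fun c => fun j : J => pval c ((j : Fin M) : ℕ))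
    · intro c _; simp
    · intro c hc c' hc' heq
      simp only [coe_filter, mem_univ, true_and, Set.mem_ofPred_eq] at hc hc'
      refine pval_inj c c' (I.image fun i : Fin M => (i : ℕ)) ?_ ?_ ?_
      · rw [card_image_of_injective _ Fin.val_injective, hI3]
      · intro i hi
        rw [mem_image] at hi
        obtain ⟨i', _, rfl⟩ := hi
        exact lt_of_lt_of_le i'.2 hMq
      · intro i hi
        rw [mem_image] at hi
        obtain ⟨i', hi', rfl⟩ := hi
        by_cases hiA : i' ∈ A.image Prod.fst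
        · rw [mem_image] at hiA
          obtain ⟨u, hu, rfl⟩ := hiA
          rw [← (mem_cw c u).1 (hc hu), ← (mem_cw c' u).1 (hc' hu)]
        · exact congrFun heq ⟨i', mem_sdiff.2 ⟨hi', hiA⟩⟩
  rw [card_univ, Fintype.card_fun, ZMod.card, Fintype.card_coe, hJc] at hinj
  calc q ^ A.card * (univ.filter fun c => A ⊆ cw q M k c).card
      ≤ q ^ A.card * q ^ (k - A.card) := Nat.mul_le_mul_left _ hinj
    _ = q ^ k := by rw [← pow_add]; congr 1; omega

theorem PosSpread.mono {U Po : Type} [Fintype U] [DecidableEq U] [Fintype Po]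
    {S : Po → Finset U} {c c' Q : ℕ} (h : PosSpread S c Q) (hc : c' ≤ c) : PosSpread S c' Q := by
  classical
  intro A hA
  have := h A (hA.trans hc)
  convert this

section noise

variable {U : Type} [Fintype U] [DecidableEq U]

theorem mem_noise2 {D n r : ℕ} (ω : Fin r → Fin n → U → Fin D) (e : U) :
    e ∈ noise2 ω ↔ ∃ j i, (ω j i e : ℕ) = 0 := by simp [noise2]

open Classical in
theorem good_noise {D n r c : ℕ} (hD : 1 ≤ D) (hc : c < 2 ^ n) :
    Good (fun ω : Fin r → Fin n → U → Fin D => noise2 ω) c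
      (Fintype.card (Fin r → Fin n → U → Fin D) / 4 ^ r) (16 * D) := by
  intro l hl hlc F hF hcard
  obtain ⟨T, G, hGF, hGne, hGT, hsp⟩ := link F hF hcard
  have h1 := blocks r hD rfl (lt_of_le_of_lt hlc hc) G hGne (fun A => A \ T) hsp (by
    intro A hA
    refine (card_le_card sdiff_subset).trans ?_
    rw [hF A (hGF hA)])
  obtain ⟨A0, hA0⟩ := hGne
  refine ⟨T, ⟨A0, hGF hA0, hGT A0 hA0⟩, ?_⟩
  rw [Nat.le_div_iff_mul_le (by positivity), mul_comm]
  refine le_trans (Nat.mul_le_mul_left _ (card_le_card ?_)) h1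
  intro ω hω
  rw [mem_filter] at hω ⊢
  refine ⟨mem_univ _, ?_⟩
  rintro ⟨A, hA, hsub⟩
  apply hω.2
  refine ⟨A, hGF hA, ?_⟩
  intro e he
  by_cases heT : e ∈ T
  · exact mem_union_left _ heT
  · exact mem_union_right _ (hsub (mem_sdiff.2 ⟨he, heT⟩))

theorem card_zero_at {κ : Type} [Fintype κ] [DecidableEq κ] {D : ℕ} (hD : 1 ≤ D) (x : κ) :
    (univ.filter fun v : κ → Fin D => (v x : ℕ) = 0).card * D = D ^ Fintype.card κ := by
  have h : (univ.filter fun v : κ → Fin D => (v x : ℕ) = 0) =
      Fintype.piFinset (fun y => if y = x then ({⟨0, hD⟩} : Finset (Fin D)) else univ) := by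
    ext v
    simp only [mem_filter, mem_univ, true_and, Fintype.mem_piFinset]
    constructor
    · intro hv y
      by_cases hy : y = x
      · subst hy; simp only [if_true, mem_singleton]; exact Fin.ext hv
      · simp [hy]
    · intro hv
      have := hv x
      simp only [if_true, mem_singleton] at this
      rw [this]
  rw [h, Fintype.card_piFinset, ← Finset.mul_prod_erase univ _ (mem_univ x)]
  simp only [if_true, card_singleton, one_mul]
  have h2 : ∏ y ∈ univ.erase x, (if y = x then ({⟨0, hD⟩} : Finset (Fin D)) else univ).card =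
      ∏ y ∈ univ.erase x, D := by
    refine Finset.prod_congr rfl fun y hy => ?_
    rw [mem_erase] at hy
    simp [hy.1]
  rw [h2, Finset.prod_const, card_erase_of_mem (mem_univ x), card_univ, ← pow_succ]
  congr 1
  have : 0 < Fintype.card κ := Fintype.card_pos_iff.2 ⟨x⟩
  omega

open Classical in
/-- the probability that a fixed set is contained in the noise -/
theorem card_sub_noise {D n r : ℕ} (hD : 1 ≤ D) (A : Finset U) :
    D ^ A.card * (univ.filter fun ω : Fin r → Fin n → U → Fin D => A ⊆ noise2 ω).card ≤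
      (r * n) ^ A.card * Fintype.card (Fin r → Fin n → U → Fin D) := by
  set Z : Finset (Fin r × Fin n → Fin D) := univ.filter fun v => ∃ p, (v p : ℕ) = 0 with hZ
  have hZc : Z.card * D ≤ (r * n) * D ^ (r * n) := by
    have h1 : Z ⊆ univ.biUnion fun p : Fin r × Fin n =>
        univ.filter fun v : Fin r × Fin n → Fin D => (v p : ℕ) = 0 := by
      intro v hv
      rw [hZ, mem_filter] at hv
      obtain ⟨p, hp⟩ := hv.2
      rw [mem_biUnion]
      exact ⟨p, mem_univ _, mem_filter.2 ⟨mem_univ _, hp⟩⟩
    have h2 := (card_le_card h1).trans card_biUnion_le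
    calc Z.card * D ≤ (∑ p : Fin r × Fin n,
          (univ.filter fun v : Fin r × Fin n → Fin D => (v p : ℕ) = 0).card) * D :=
          Nat.mul_le_mul_right _ h2
      _ = ∑ p : Fin r × Fin n, D ^ (r * n) := by
          rw [Finset.sum_mul]
          refine Finset.sum_congr rfl fun p _ => ?_
          rw [card_zero_at hD p, Fintype.card_prod, Fintype.card_fin, Fintype.card_fin]
      _ = _ := by
          rw [Finset.sum_const, card_univ, Fintype.card_prod, Fintype.card_fin, Fintype.card_fin,
            smul_eq_mul]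
  have hinj : (univ.filter fun ω : Fin r → Fin n → U → Fin D => A ⊆ noise2 ω).card ≤
      (Fintype.piFinset fun e : U => if e ∈ A then Z else univ).card := by
    apply card_le_card_of_injOn (fun ω => fun e => fun p => ω p.1 p.2 e)
    · intro ω hω
      simp only [coe_filter, mem_univ, true_and, Set.mem_ofPred_eq] at hω
      rw [mem_coe, Fintype.mem_piFinset]
      intro e
      by_cases he : e ∈ A
      · rw [if_pos he, hZ, mem_filter]
        obtain ⟨j, i, hji⟩ := (mem_noise2 ω e).1 (hω he)
        exact ⟨mem_univ _, (j, i), hji⟩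
      · rw [if_neg he]; exact mem_univ _
    · intro ω _ ω' _ h
      funext j i e
      exact congrFun (congrFun h e) (j, i)
  rw [Fintype.card_piFinset] at hinj
  have h3 : ∏ e : U, (if e ∈ A then Z else univ).card =
      Z.card ^ A.card * (D ^ (r * n)) ^ (Fintype.card U - A.card) := by
    have h4 : ∀ e : U, (if e ∈ A then Z else univ).card = if e ∈ A then Z.card else D ^ (r * n) := by
      intro e
      by_cases he : e ∈ A
      · simp [he]
      · simp only [he, if_false, card_univ, Fintype.card_fun, Fintype.card_prod, Fintype.card_fin]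
    rw [Finset.prod_congr rfl fun e _ => h4 e, Finset.prod_ite, Finset.prod_const,
      Finset.prod_const]
    congr 2
    · congr 1; ext e; simp
    · rw [filter_not, card_sdiff_of_subset (filter_subset _ _), card_univ]
      congr 2; ext e; simp
  rw [h3] at hinj
  calc _ ≤ D ^ A.card * (Z.card ^ A.card * (D ^ (r * n)) ^ (Fintype.card U - A.card)) :=
        Nat.mul_le_mul_left _ hinj
    _ = (Z.card * D) ^ A.card * (D ^ (r * n)) ^ (Fintype.card U - A.card) := by
        rw [mul_pow]; ring
    _ ≤ ((r * n) * D ^ (r * n)) ^ A.card * (D ^ (r * n)) ^ (Fintype.card U - A.card) :=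
        Nat.mul_le_mul_right _ (Nat.pow_le_pow_left hZc _)
    _ = (r * n) ^ A.card * ((D ^ (r * n)) ^ A.card *
          (D ^ (r * n)) ^ (Fintype.card U - A.card)) := by rw [mul_pow]; ring
    _ = (r * n) ^ A.card * (D ^ (r * n)) ^ Fintype.card U := by
        rw [← pow_add]
        congr 2
        have := card_le_univ A
        omega
    _ = _ := by
        rw [Fintype.card_fun, Fintype.card_fun, Fintype.card_fun, Fintype.card_fin,
          Fintype.card_fin, Fintype.card_fin, ← pow_mul, ← pow_mul, ← pow_mul]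
        congr 2
        ring

end noise

/-- the function: does the input contain the graph of a polynomial of degree less than `k`? -/
def HasCw (q M k : ℕ) (x : Fin M × ZMod q → Bool) : Prop :=
  ∃ c : Fin k → ZMod q, ∀ i : Fin M, x (i, pval c (i : ℕ)) = true

theorem hasCw_ind {q M k : ℕ} [Fact q.Prime] (A : Finset (Fin M × ZMod q)) :
    HasCw q M k (ind A) ↔ ∃ c : Fin k → ZMod q, cw q M k c ⊆ A := by
  unfold HasCw ind
  refine exists_congr fun c => ?_
  constructor
  · intro h u hu
    rw [mem_cw] at hu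
    have := h u.1
    rw [← hu] at this
    simpa using this
  · intro h i
    simp only [decide_eq_true_eq]
    exact h ((mem_cw c _).2 rfl)

open Classical in
/-- few noise inputs contain a codeword -/
theorem card_noise_cw {q M k D n r m : ℕ} [Fact q.Prime] (hD : 1 ≤ D)
    (hP : m * q ^ k * (r * n) ^ M ≤ D ^ M) :
    m * (univ.filter fun ω : Fin r → Fin n → (Fin M × ZMod q) → Fin D =>
      ∃ c : Fin k → ZMod q, cw q M k c ⊆ noise2 ω).card ≤
      Fintype.card (Fin r → Fin n → (Fin M × ZMod q) → Fin D) := by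
  have h1 : (univ.filter fun ω : Fin r → Fin n → (Fin M × ZMod q) → Fin D =>
      ∃ c : Fin k → ZMod q, cw q M k c ⊆ noise2 ω) ⊆
      (univ : Finset (Fin k → ZMod q)).biUnion fun c =>
        univ.filter fun ω : Fin r → Fin n → (Fin M × ZMod q) → Fin D => cw q M k c ⊆ noise2 ω := by
    intro ω hω
    rw [mem_filter] at hω
    obtain ⟨c, hc⟩ := hω.2
    rw [mem_biUnion]
    exact ⟨c, mem_univ _, mem_filter.2 ⟨mem_univ _, hc⟩⟩
  have hcw : ∀ c : Fin k → ZMod q, (cw q M k c).card = M := by
    intro c
    rw [cw, card_image_of_injective _ (by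
      intro i j h
      exact (Prod.ext_iff.1 h).1), card_univ, Fintype.card_fin]
  have h2 := (card_le_card h1).trans card_biUnion_le
  set W := Fintype.card (Fin r → Fin n → (Fin M × ZMod q) → Fin D) with hW
  have h3 : D ^ M * ∑ c : Fin k → ZMod q, (univ.filter fun ω : Fin r → Fin n →
      (Fin M × ZMod q) → Fin D => cw q M k c ⊆ noise2 ω).card ≤ q ^ k * ((r * n) ^ M * W) := by
    rw [Finset.mul_sum]
    calc _ ≤ ∑ c : Fin k → ZMod q, (r * n) ^ M * W := by
          refine Finset.sum_le_sum fun c _ => ?_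
          have := card_sub_noise (D := D) (n := n) (r := r) hD (cw q M k c)
          rw [hcw c] at this
          exact this
      _ = _ := by
          rw [Finset.sum_const, card_univ, Fintype.card_fun, ZMod.card, Fintype.card_fin,
            smul_eq_mul]
  have hDM : 0 < D ^ M := by positivity
  refine Nat.le_of_mul_le_mul_left ?_ hDM
  calc D ^ M * (m * _) ≤ D ^ M * (m * ∑ c : Fin k → ZMod q, (univ.filter fun ω : Fin r → Fin n →
      (Fin M × ZMod q) → Fin D => cw q M k c ⊆ noise2 ω).card) :=
        Nat.mul_le_mul_left _ (Nat.mul_le_mul_left _ h2)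
    _ = m * (D ^ M * ∑ c : Fin k → ZMod q, (univ.filter fun ω : Fin r → Fin n →
      (Fin M × ZMod q) → Fin D => cw q M k c ⊆ noise2 ω).card) := by ring
    _ ≤ m * (q ^ k * ((r * n) ^ M * W)) := Nat.mul_le_mul_left _ h3
    _ = (m * q ^ k * (r * n) ^ M) * W := by ring
    _ ≤ D ^ M * W := Nat.mul_le_mul_right _ hP

open Classical in
/-- The distributional lower bound with explicit parameters. -/
theorem rs_dist {q M k h n D r s : ℕ} [Fact q.Prime] (hkM : k ≤ M) (hMq : M ≤ q) (hh : 1 ≤ h)
    (hk : 2 * h ≤ k) (hn : 2 * h < 2 ^ n) (hD : 1 ≤ D) (hq : 1024 * D ≤ q)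
    (hr : (M * q + 1) ^ (2 * h) * 64 ^ h ≤ 4 ^ r) (hs : 64 * s ≤ 64 ^ h)
    {f : (Fin M × ZMod q → Bool) → Bool} (hf : MComp (VB (Fin M × ZMod q)) s f) :
    (64 * (univ.filter fun ω : Fin r → Fin n → (Fin M × ZMod q) → Fin D =>
        ¬ f (ind (noise2 ω)) = true).card ≤
      Fintype.card (Fin r → Fin n → (Fin M × ZMod q) → Fin D)) ∨
    (16 * (univ.filter fun c : Fin k → ZMod q => f (ind (cw q M k c)) = true).card ≤
      Fintype.card (Fin k → ZMod q)) := by
  rcases dichotomy (fun ω : Fin r → Fin n → (Fin M × ZMod q) → Fin D => noise2 ω) (cw q M k) h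
    (Fintype.card (Fin r → Fin n → (Fin M × ZMod q) → Fin D) / 4 ^ r) (16 * D) 64 q
    (good_noise hD hn) ((cw_spread hkM hMq).mono hk) (by norm_num) (by omega) (by omega) hh hf
    with h1 | h1
  · left
    set W := Fintype.card (Fin r → Fin n → (Fin M × ZMod q) → Fin D) with hW
    rw [Fintype.card_prod, Fintype.card_fin, ZMod.card] at h1
    calc _ ≤ 64 * (s * ((M * q + 1) ^ (2 * h) * (W / 4 ^ r))) := Nat.mul_le_mul_left _ h1
      _ = (64 * s) * ((M * q + 1) ^ (2 * h) * (W / 4 ^ r)) := by ring
      _ ≤ 64 ^ h * ((M * q + 1) ^ (2 * h) * (W / 4 ^ r)) := Nat.mul_le_mul_right _ hs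
      _ = ((M * q + 1) ^ (2 * h) * 64 ^ h) * (W / 4 ^ r) := by ring
      _ ≤ 4 ^ r * (W / 4 ^ r) := Nat.mul_le_mul_right _ hr
      _ ≤ W := Nat.mul_div_le _ _
  · right
    have hs' : (s : ℝ) / (64 : ℝ) ^ h ≤ 1 / 64 := by
      rw [div_le_div_iff₀ (by positivity) (by norm_num), one_mul]
      have : s * 64 ≤ 64 ^ h := by omega
      exact_mod_cast this
    have h2 : ((s : ℝ) / ((64 : ℕ) : ℝ) ^ h + 1 / (((64 : ℕ) : ℝ) - 1)) ≤ 1 / 16 := by
      push_cast
      linarith
    have h3 := h1.trans (mul_le_mul_of_nonneg_left h2 (by positivity))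
    have h4 : (16 : ℝ) * ((univ.filter fun c : Fin k → ZMod q =>
        f (ind (cw q M k c)) = true).card : ℝ) ≤ Fintype.card (Fin k → ZMod q) := by
      linarith
    exact_mod_cast h4

end Pool.Agent.V8H39.NP
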