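import Pool.Agent.V8H39.NP.Mux
import Pool.Agent.V8H38.NL.Net

/-!
# Substitution of inputs; windows of edge numbers
-/

set_option linter.unusedSectionVars false

namespace Pool.Agent.V8H39.NP

open Finset Pool.Agent.H520R2 Pool.Agent.V8H38.NL

variable {n n' : ℕ}

/-- replacing the inputs of a node -/
def subG (σ : Fin n → Gate n') : Gate n → Gate n'
  | .input i => σ i
  | .const b => .const b
  | .not a => .not a
  | .and a b => .and a b
  | .or a b => .or a b

/-- input nodes and constants -/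
def Leaf (g : Gate n') : Prop := (∃ i, g = .input i) ∨ ∃ b, g = .const b

theorem values_sub (σ : Fin n → Gate n') (hσ : ∀ i, Leaf (σ i)) (x : Fin n' → Bool)
    (l : List (Gate n)) :
    values x (l.map (subG σ)) = values (fun i => (σ i).eval x []) l := by
  induction l using List.reverseRecOn with
  | nil => rfl
  | append_singleton l g ih =>
    rw [List.map_append, List.map_singleton, values_append, values_append, ih]
    congr 2
    cases g with
    | input i =>
      show (σ i).eval x _ = (σ i).eval x []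
      rcases hσ i with ⟨j, hj⟩ | ⟨b, hb⟩
      · rw [hj]; rfl
      · rw [hb]; rfl
    | const b => rfl
    | not a => rfl
    | and a b => rfl
    | or a b => rfl

/-- the circuit with the inputs replaced -/
def subC (σ : Fin n → Gate n') (C : Circuit n) : Circuit n' where
  nodes := C.nodes.map (subG σ)
  out := C.out

theorem subC_eval (σ : Fin n → Gate n') (hσ : ∀ i, Leaf (σ i)) (C : Circuit n)
    (x : Fin n' → Bool) : (subC σ C).eval x = C.eval fun i => (σ i).eval x [] := by
  unfold Circuit.eval subC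
  rw [values_sub σ hσ]

theorem subC_size (σ : Fin n → Gate n') (hσ : ∀ i, Leaf (σ i)) (C : Circuit n) :
    (subC σ C).size = C.size := by
  unfold Circuit.size subC
  rw [List.countP_map]
  congr 1
  funext g
  cases g with
  | input i =>
    show Gate.isAndOr (σ i) = false
    rcases hσ i with ⟨j, hj⟩ | ⟨b, hb⟩
    · rw [hj]; rfl
    · rw [hb]; rfl
  | const b => rfl
  | not a => rfl
  | and a b => rfl
  | or a b => rfl

theorem subC_nots (σ : Fin n → Gate n') (hσ : ∀ i, Leaf (σ i)) (C : Circuit n) :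
    (subC σ C).nots = C.nots := by
  unfold Circuit.nots subC
  rw [List.countP_map]
  congr 1
  funext g
  cases g with
  | input i =>
    show Gate.isNot (σ i) = false
    rcases hσ i with ⟨j, hj⟩ | ⟨b, hb⟩
    · rw [hj]; rfl
    · rw [hb]; rfl
  | const b => rfl
  | not a => rfl
  | and a b => rfl
  | or a b => rfl

section graphs

variable {V : ℕ}

/-- the pairs of vertices -/
abbrev Pr (V : ℕ) : Type := {p : Fin V × Fin V // p.1 < p.2}

/-- the graph of a bit string -/
def toGraph (φ : Pr V ≃ Fin n) (x : Fin n → Bool) : SimpleGraph (Fin V) where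
  Adj a b := (∃ h : a < b, x (φ ⟨(a, b), h⟩) = true) ∨ ∃ h : b < a, x (φ ⟨(b, a), h⟩) = true
  symm := ⟨fun _ _ h => h.symm⟩
  loopless := ⟨fun a h => by
    rcases h with ⟨h, _⟩ | ⟨h, _⟩ <;> exact absurd h (lt_irrefl a)⟩

open Classical in
/-- the bit string of a graph -/
noncomputable def ofGraph (φ : Pr V ≃ Fin n) (G : SimpleGraph (Fin V)) : Fin n → Bool :=
  fun i => decide (G.Adj (φ.symm i).1.1 (φ.symm i).1.2)

theorem toGraph_ofGraph (φ : Pr V ≃ Fin n) (G : SimpleGraph (Fin V)) :
    toGraph φ (ofGraph φ G) = G := by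
  ext a b
  show (∃ h : a < b, ofGraph φ G (φ ⟨(a, b), h⟩) = true) ∨
    (∃ h : b < a, ofGraph φ G (φ ⟨(b, a), h⟩) = true) ↔ G.Adj a b
  unfold ofGraph
  simp only [Equiv.symm_apply_apply, decide_eq_true_eq]
  constructor
  · rintro (⟨_, h⟩ | ⟨_, h⟩)
    · exact h
    · exact h.symm
  · intro h
    rcases lt_trichotomy a b with hab | hab | hab
    · exact Or.inl ⟨hab, h⟩
    · rw [hab] at h; exact absurd h (G.loopless.1 b)
    · exact Or.inr ⟨hab, h.symm⟩

theorem wt_toGraph (φ : Pr V ≃ Fin n) (x : Fin n → Bool) :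
    (toGraph φ x).edgeSet.ncard = wt x := by
  classical
  unfold wt
  have h1 : (toGraph φ x).edgeSet =
      (((univ.filter fun i => x i = true).image fun i =>
        s((φ.symm i).1.1, (φ.symm i).1.2) : Finset (Sym2 (Fin V))) : Set (Sym2 (Fin V))) := by
    ext e
    induction e using Sym2.ind with
    | _ a b =>
      rw [SimpleGraph.mem_edgeSet, mem_coe, mem_image]
      constructor
      · rintro (⟨h, hx⟩ | ⟨h, hx⟩)
        · refine ⟨φ ⟨(a, b), h⟩, mem_filter.2 ⟨mem_univ _, hx⟩, ?_⟩
          rw [Equiv.symm_apply_apply]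
        · refine ⟨φ ⟨(b, a), h⟩, mem_filter.2 ⟨mem_univ _, hx⟩, ?_⟩
          rw [Equiv.symm_apply_apply]
          exact Sym2.eq_swap
      · rintro ⟨i, hi, hs⟩
        have hx := (mem_filter.1 hi).2
        obtain ⟨p, rfl⟩ := φ.surjective i
        rw [Equiv.symm_apply_apply] at hs
        obtain ⟨⟨c, d⟩, hcd⟩ := p
        rw [Sym2.eq_iff] at hs
        rcases hs with ⟨h1, h2⟩ | ⟨h1, h2⟩
        · simp only at h1 h2
          subst h1; subst h2
          exact Or.inl ⟨hcd, hx⟩
        · simp only at h1 h2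
          subst h1; subst h2
          exact Or.inr ⟨hcd, hx⟩
  rw [h1, Set.ncard_coe_finset, card_image_of_injOn]
  intro i _ j _ hij
  simp only at hij
  have hi := (φ.symm i).2
  have hj := (φ.symm j).2
  rw [Sym2.eq_iff] at hij
  apply φ.symm.injective
  apply Subtype.ext
  rcases hij with ⟨h1, h2⟩ | ⟨h1, h2⟩
  · exact Prod.ext h1 h2
  · rw [h1, h2] at hi
    exact absurd hi (not_lt.2 hj.le)

open Classical in
/-- **Windows of edge numbers: few NOT gates suffice.** -/
theorem graph_window (f : SimpleGraph (Fin V) → Prop) (hf : ∀ G G', G ≤ G' → f G → f G')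
    (m w c t : ℕ) (hw : w + 1 ≤ (c + 1) * 2 ^ t) (C : Circuit (V * V))
    (hC : ∀ G : SimpleGraph (Fin V), m ≤ G.edgeSet.ncard → G.edgeSet.ncard ≤ m + w →
      (C.eval (adjBits G) = true ↔ f G)) :
    ∃ D : Circuit (V * V), D.nots ≤ t ∧
      D.size ≤ 2 ^ t * (V ^ 2 + 1) ^ (c + 1) * (4 * V ^ 4 + 2 * C.size + 7) ∧
      ∀ G : SimpleGraph (Fin V), m ≤ G.edgeSet.ncard → G.edgeSet.ncard ≤ m + w →
        (D.eval (adjBits G) = true ↔ f G) := by
  set n := Fintype.card (Pr V) with hn
  set φ : Pr V ≃ Fin n := Fintype.equivFin _ with hφ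
  have hnV : n ≤ V ^ 2 := by
    rw [hn]
    refine (Fintype.card_subtype_le _).trans ?_
    rw [Fintype.card_prod, Fintype.card_fin, sq]
  -- the circuit on the pairs
  set σ : Fin (V * V) → Gate n := fun p =>
    if h : (finProdFinEquiv.symm p).1 < (finProdFinEquiv.symm p).2 then
      .input (φ ⟨finProdFinEquiv.symm p, h⟩)
    else if h : (finProdFinEquiv.symm p).2 < (finProdFinEquiv.symm p).1 then
      .input (φ ⟨(finProdFinEquiv.symm p).swap, h⟩)
    else .const false with hσ
  have hσL : ∀ i, Leaf (σ i) := by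
    intro p
    rw [hσ]
    simp only
    split_ifs
    · exact Or.inl ⟨_, rfl⟩
    · exact Or.inl ⟨_, rfl⟩
    · exact Or.inr ⟨_, rfl⟩
  have hσe : ∀ x, (fun i => (σ i).eval x []) = adjBits (toGraph φ x) := by
    intro x
    funext p
    rw [Bool.eq_iff_iff]
    unfold adjBits
    rw [decide_eq_true_eq, hσ]
    simp only
    show _ ↔ (∃ h : (finProdFinEquiv.symm p).1 < (finProdFinEquiv.symm p).2,
        x (φ ⟨((finProdFinEquiv.symm p).1, (finProdFinEquiv.symm p).2), h⟩) = true) ∨
      ∃ h : (finProdFinEquiv.symm p).2 < (finProdFinEquiv.symm p).1,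
        x (φ ⟨((finProdFinEquiv.symm p).2, (finProdFinEquiv.symm p).1), h⟩) = true
    split_ifs with h1 h2
    · constructor
      · intro h; exact Or.inl ⟨h1, h⟩
      · rintro (⟨_, h⟩ | ⟨h, _⟩)
        · exact h
        · exact absurd h1 (not_lt.2 h.le)
    · constructor
      · intro h; exact Or.inr ⟨h2, h⟩
      · rintro (⟨h, _⟩ | ⟨_, h⟩)
        · exact absurd h h1
        · exact h
    · constructor
      · intro h; exact absurd h (by simp [Gate.eval])
      · rintro (⟨h, _⟩ | ⟨h, _⟩)
        · exact absurd h h1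
        · exact absurd h h2
  have hmono : Monotone fun x : Fin n → Bool => decide (f (toGraph φ x)) := by
    intro x y hxy
    rw [Bool.le_iff_imp]
    simp only [decide_eq_true_eq]
    intro h
    refine hf _ _ ?_ h
    intro a b hab
    rcases hab with ⟨h, hx⟩ | ⟨h, hx⟩
    · exact Or.inl ⟨h, (Bool.le_iff_imp.1 (hxy _)) hx⟩
    · exact Or.inr ⟨h, (Bool.le_iff_imp.1 (hxy _)) hx⟩
  obtain ⟨D, hD1, hD2, hD3⟩ := window_upper (fun x : Fin n → Bool => decide (f (toGraph φ x)))
    hmono (subC σ C) m w c t (by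
      intro x hx1 hx2
      rw [subC_eval σ hσL, hσe, Bool.eq_iff_iff, decide_eq_true_eq]
      rw [← wt_toGraph φ] at hx1 hx2
      exact hC _ hx1 hx2) hw
  rw [subC_size σ hσL] at hD2
  set τ : Fin n → Gate (V * V) := fun i => .input (finProdFinEquiv (φ.symm i).1) with hτ
  have hτL : ∀ i, Leaf (τ i) := fun i => Or.inl ⟨_, rfl⟩
  refine ⟨subC τ D, ?_, ?_, ?_⟩
  · rw [subC_nots τ hτL]; exact hD1
  · rw [subC_size τ hτL]
    refine hD2.trans ?_
    have h1 : (n + 1) ^ (c + 1) ≤ (V ^ 2 + 1) ^ (c + 1) :=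
      Nat.pow_le_pow_left (by omega) _
    have h2 : 4 * n ^ 2 ≤ 4 * V ^ 4 := by
      have h3 : n ^ 2 ≤ (V ^ 2) ^ 2 := Nat.pow_le_pow_left hnV 2
      have h4 : (V ^ 2) ^ 2 = V ^ 4 := by ring
      omega
    refine Nat.mul_le_mul (Nat.mul_le_mul_left _ h1) (by omega)
  · intro G hG1 hG2
    rw [subC_eval τ hτL]
    have h1 : (fun i => (τ i).eval (adjBits G) []) = ofGraph φ G := by
      funext i
      show adjBits G (finProdFinEquiv (φ.symm i).1) = _
      unfold adjBits ofGraph
      rw [Equiv.symm_apply_apply]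
    have h2 : wt (ofGraph φ G) = G.edgeSet.ncard := by
      rw [← wt_toGraph φ, toGraph_ofGraph]
    rw [h1, hD3 _ (by rw [h2]; exact hG1) (by rw [h2]; exact hG2), decide_eq_true_eq,
      toGraph_ofGraph]

end graphs

end Pool.Agent.V8H39.NP
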