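import Pool.Agent.V8H39.NP.MonoVars
import Pool.Agent.V8H39.NP.Subst
import Pool.Agent.V8H38.NL.Compat
import Pool.Agent.V8H38.NL.CliqueMain

/-!
# Windows of edge numbers: lower bounds
-/

set_option linter.unusedSectionVars false

namespace Pool.Agent.V8H39.NP

open Finset Pool.Agent.H520R2 Pool.Agent.V8H38.NL

section pad

variable {V : ℕ} {T : Type} [Fintype T]

theorem edges_le (H : SimpleGraph T) : 2 * H.edgeSet.ncard ≤ Fintype.card T ^ 2 := by
  classical
  have h1 : H.edgeSet.ncard = H.edgeFinset.card := by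
    rw [← SimpleGraph.coe_edgeFinset, Set.ncard_coe_finset]
  have h2 := H.card_edgeFinset_le_card_choose_two
  rw [h1]
  have h3 : (Fintype.card T).choose 2 * 2 = Fintype.card T * (Fintype.card T - 1) := by
    rw [Nat.choose_two_right]
    exact Nat.div_mul_cancel (Nat.even_mul_pred_self _).two_dvd
  have h4 : Fintype.card T * (Fintype.card T - 1) ≤ Fintype.card T * Fintype.card T :=
    Nat.mul_le_mul_left _ (Nat.sub_le _ _)
  rw [sq]
  omega

theorem pad_exists (e : T ↪ Fin V) (K h0 m μ : ℕ) (hμ : 1 ≤ μ) (hK : 2 * μ + 1 ≤ K)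
    (hKT : K ≤ Fintype.card T) (hT : 4 * μ * Fintype.card T ≤ V)
    (hh : 2 * h0 ≤ Fintype.card T ^ 2) (hm1 : μ * V ^ 2 + 8 * V ^ 2 ≤ 8 * μ * m)
    (hm2 : 2 * μ * m + 2 * V ^ 2 ≤ μ * V ^ 2) :
    ∃ (A : Finset (Fin V)) (F : SimpleGraph (Fin V)), (∀ a, e a ∉ A) ∧
      V ≤ 2 * (A.card + K) ∧ 2 * (A.card + K) ≤ V + 1 ∧ Adm e A (K - 1) F ∧
      h0 + ((fixG e A).edgeSet.ncard + F.edgeSet.ncard) = m := by
  set T' := Fintype.card T with hT'
  have hT1 : 1 ≤ T' := by omega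
  have hTV : 4 * T' ≤ V := by
    calc 4 * T' = 4 * 1 * T' := by ring
      _ ≤ 4 * μ * T' := by gcongr
      _ ≤ V := hT
  obtain ⟨A, hA, hA1, hA2⟩ := exists_A e (by rw [← hT']; omega) hKT (by omega)
  have hA3 : 2 * A.card ≤ V := by omega
  have hfix := fix_le e A
  rw [← hT'] at hfix
  have hfix2 : 8 * (fixG e A).edgeSet.ncard ≤ (V + 2 * T') ^ 2 := by
    calc 8 * (fixG e A).edgeSet.ncard ≤ 4 * (A.card + T') ^ 2 := by omega
      _ = (2 * A.card + 2 * T') ^ 2 := by ring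
      _ ≤ (V + 2 * T') ^ 2 := Nat.pow_le_pow_left (by omega) 2
  have hle : h0 + (fixG e A).edgeSet.ncard ≤ m := by
    have h1 : 8 * (h0 + (fixG e A).edgeSet.ncard) ≤ V ^ 2 + 4 * V * T' + 8 * T' ^ 2 := by
      nlinarith
    have h2 : 8 * μ * (h0 + (fixG e A).edgeSet.ncard) ≤ 8 * μ * m := by
      calc 8 * μ * (h0 + (fixG e A).edgeSet.ncard)
          = μ * (8 * (h0 + (fixG e A).edgeSet.ncard)) := by ring
        _ ≤ μ * (V ^ 2 + 4 * V * T' + 8 * T' ^ 2) := Nat.mul_le_mul_left _ h1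
        _ = μ * V ^ 2 + V * (4 * μ * T') + 2 * T' * (4 * μ * T') := by ring
        _ ≤ μ * V ^ 2 + V * V + 2 * T' * V := by gcongr
        _ ≤ μ * V ^ 2 + 8 * V ^ 2 := by nlinarith
        _ ≤ _ := hm1
    exact Nat.le_of_mul_le_mul_left h2 (by positivity)
  have hmax := max_ge e A (K - 1)
  rw [← hT'] at hmax
  have hdiv : 2 * μ * (V / (K - 1)) ≤ V := by
    calc 2 * μ * (V / (K - 1)) ≤ (K - 1) * (V / (K - 1)) := Nat.mul_le_mul_right _ (by omega)
      _ ≤ V := Nat.mul_div_le _ _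
  have hr : m - (h0 + (fixG e A).edgeSet.ncard) ≤ (maxG e A (K - 1)).edgeSet.ncard := by
    have h1 : 2 * μ * m ≤ 2 * μ * ((fixG e A).edgeSet.ncard +
        (maxG e A (K - 1)).edgeSet.ncard) := by
      set a := V / (K - 1) with ha
      set fx := (fixG e A).edgeSet.ncard with hfx
      set mx := (maxG e A (K - 1)).edgeSet.ncard with hmx
      have h2 : μ * V ^ 2 ≤ μ * (V + 2 * fx + 2 * mx + 2 * T' * V + V * (a + 1)) :=
        Nat.mul_le_mul_left _ hmax
      have h3 : μ * (V + 2 * fx + 2 * mx + 2 * T' * V + V * (a + 1)) =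
          2 * μ * (fx + mx) + (2 * μ) * V + (2 * μ * T') * V + (μ * a) * V := by ring
      have h4 : 4 * μ ≤ V := by
        calc 4 * μ = 4 * μ * 1 := by ring
          _ ≤ 4 * μ * T' := Nat.mul_le_mul_left _ hT1
          _ ≤ V := hT
      have h5 : 2 * ((2 * μ) * V + (2 * μ * T') * V + (μ * a) * V) ≤ 3 * V ^ 2 := by
        have h6 : (4 * μ) * V ≤ V * V := Nat.mul_le_mul_right _ h4
        have h7 : (4 * μ * T') * V ≤ V * V := Nat.mul_le_mul_right _ hT
        have h8 : (2 * μ * a) * V ≤ V * V := Nat.mul_le_mul_right _ hdiv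
        calc 2 * ((2 * μ) * V + (2 * μ * T') * V + (μ * a) * V)
            = (4 * μ) * V + (4 * μ * T') * V + (2 * μ * a) * V := by ring
          _ ≤ V * V + V * V + V * V := by omega
          _ = 3 * V ^ 2 := by ring
      omega
    have h2 : m ≤ (fixG e A).edgeSet.ncard + (maxG e A (K - 1)).edgeSet.ncard :=
      Nat.le_of_mul_le_mul_left h1 (by positivity)
    omega
  obtain ⟨F, hF1, hF2⟩ := exists_adm e A (K - 1) _ hr
  exact ⟨A, F, hA, hA1, hA2, hF1, by omega⟩

open Classical in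
theorem sub_big {v : ℕ} (e : Fin v ↪ Fin V) (A : Finset (Fin V)) (F : SimpleGraph (Fin V)) (κ : ℕ)
    (hA : ∀ a, e a ∉ A) (hF : Adm e A κ F) :
    ∃ σ : Fin (V * V) → Gate (v * v), (∀ i, Leaf (σ i)) ∧ ∀ H : SimpleGraph (Fin v),
      (fun i => (σ i).eval (adjBits H) []) = adjBits (big e A F H) := by
  set σ : Fin (V * V) → Gate (v * v) := fun p =>
    if h : ∃ st : Fin v × Fin v, e st.1 = (finProdFinEquiv.symm p).1 ∧
        e st.2 = (finProdFinEquiv.symm p).2 then .input (finProdFinEquiv h.choose)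
    else .const (decide ((fixG e A).Adj (finProdFinEquiv.symm p).1 (finProdFinEquiv.symm p).2 ∨
        F.Adj (finProdFinEquiv.symm p).1 (finProdFinEquiv.symm p).2)) with hσ
  refine ⟨σ, ?_, ?_⟩
  · intro p
    rw [hσ]
    simp only
    split_ifs
    · exact Or.inl ⟨_, rfl⟩
    · exact Or.inr ⟨_, rfl⟩
  · intro H
    funext p
    rw [Bool.eq_iff_iff, hσ]
    simp only
    have hadj : adjBits (big e A F H) p = true ↔
        (big e A F H).Adj (finProdFinEquiv.symm p).1 (finProdFinEquiv.symm p).2 := by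
      unfold adjBits; rw [decide_eq_true_eq]
    rw [hadj]
    split_ifs with h
    · have hs := h.choose_spec
      set st := h.choose with hst
      rw [← hs.1, ← hs.2, big_adj_map hA hF]
      show adjBits H (finProdFinEquiv st) = true ↔ _
      unfold adjBits
      rw [Equiv.symm_apply_apply, decide_eq_true_eq]
    · show decide _ = true ↔ _
      rw [decide_eq_true_eq]
      unfold big
      simp only [SimpleGraph.sup_adj]
      constructor
      · rintro (h' | h')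
        · exact Or.inl (Or.inr h')
        · exact Or.inr h'
      · rintro ((h' | h') | h')
        · rw [SimpleGraph.map_adj] at h'
          obtain ⟨s, t, _, hs, ht⟩ := h'
          exact absurd ⟨(s, t), hs, ht⟩ h
        · exact Or.inl h'
        · exact Or.inr h'

end pad

/-- The circuit is right about the half-clique problem on all graphs with `m, ..., m + w` edges. -/
def Right {V : ℕ} (C : Circuit (V * V)) (f : SimpleGraph (Fin V) → Prop) (m w : ℕ) : Prop :=
  ∀ G : SimpleGraph (Fin V), m ≤ G.edgeSet.ncard → G.edgeSet.ncard ≤ m + w →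
    (C.eval (adjBits G) = true ↔ f G)

/-- Half of the vertices are pairwise adjacent. -/
def Half {V : ℕ} (G : SimpleGraph (Fin V)) : Prop :=
  ∃ S : Finset (Fin V), V ≤ 2 * S.card ∧ G.IsClique (S : Set (Fin V))

theorem window_nots (V m w μ : ℕ) (C : Circuit (V * V)) (hm1 : μ * V ^ 2 + 8 * V ^ 2 ≤ 8 * μ * m)
    (hm2 : 2 * μ * m + 2 * V ^ 2 ≤ μ * V ^ 2) (hw : w ≤ V ^ 2) (hμ : V ^ 2 < 2 ^ μ)
    (hlow : 2 ^ 34 * 2 ^ C.nots * μ ^ 12 ≤ w) (hV : 1 ≤ V) (hC : Right C Half m w) :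
    2 ^ μ < C.size := by
  have hμ1 : 1 ≤ μ := by
    rcases Nat.eq_zero_or_pos μ with rfl | h
    · nlinarith [Nat.one_le_pow 2 V hV]
    · exact h
  -- the small number of vertices
  set s := Nat.sqrt w with hs
  set v := s / (4 * μ) with hv
  have hv1 : 4 * μ * v ≤ s := Nat.mul_div_le _ _
  have hv2 : s + 1 ≤ 4 * μ * (v + 1) := Nat.lt_mul_div_succ s (by positivity)
  have hs1 : s ^ 2 ≤ w := Nat.sqrt_le' w
  have hs2 : w < (s + 1) ^ 2 := Nat.lt_succ_sqrt' w
  have hsV : s ≤ V := by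
    by_contra h
    push Not at h
    nlinarith
  have hbig : 2 ^ 30 * 2 ^ C.nots * μ ^ 10 ≤ (v + 1) ^ 2 := by
    have h1 : (16 * μ ^ 2) * (2 ^ 30 * 2 ^ C.nots * μ ^ 10) ≤ (16 * μ ^ 2) * (v + 1) ^ 2 := by
      calc (16 * μ ^ 2) * (2 ^ 30 * 2 ^ C.nots * μ ^ 10) = 2 ^ 34 * 2 ^ C.nots * μ ^ 12 := by ring
        _ ≤ w := hlow
        _ ≤ (s + 1) ^ 2 := hs2.le
        _ ≤ (4 * μ * (v + 1)) ^ 2 := Nat.pow_le_pow_left hv2 2
        _ = _ := by ring
    exact Nat.le_of_mul_le_mul_left h1 (by positivity)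
  have hpos : 1 ≤ 2 ^ C.nots * μ ^ 10 := Nat.one_le_iff_ne_zero.2 (by positivity)
  have hbig' : 2 ^ 30 * (2 ^ C.nots * μ ^ 10) ≤ (v + 1) ^ 2 := by rw [← mul_assoc]; exact hbig
  have hv3 : 1 ≤ v := by
    by_contra h
    have h0 : v = 0 := Nat.lt_one_iff.1 (not_le.1 h)
    rw [h0] at hbig'
    norm_num at hbig'
    omega
  have hv4 : 2 ^ 28 * 2 ^ C.nots * μ ^ 10 ≤ v ^ 2 := by
    have h1 : (v + 1) ^ 2 ≤ 4 * v ^ 2 := by nlinarith
    have h2 : 2 ^ 28 * (2 ^ C.nots * μ ^ 10) ≤ v ^ 2 := by omega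
    rw [mul_assoc]; exact h2
  have hv5 : 2 ^ 14 * μ ^ 5 ≤ v := by
    by_contra h
    push Not at h
    have h1 : v ^ 2 < (2 ^ 14 * μ ^ 5) ^ 2 := Nat.pow_lt_pow_left h (by norm_num)
    have h2 : (2 ^ 14 * μ ^ 5) ^ 2 = 2 ^ 28 * 1 * μ ^ 10 := by ring
    have h3 : 2 ^ 28 * 1 * μ ^ 10 ≤ 2 ^ 28 * 2 ^ C.nots * μ ^ 10 := by
      gcongr
      exact Nat.one_le_two_pow
    omega
  have hμ5 : μ ≤ μ ^ 5 := Nat.le_self_pow (by norm_num) _
  have hvV : v ≤ V := by
    have : v ≤ 4 * μ * v := Nat.le_mul_of_pos_left _ (by positivity)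
    omega
  set e : Fin v ↪ Fin V := Fin.castLEEmb hvV with he
  obtain ⟨A, F, hA, hA1, hA2, hF, hsum⟩ := pad_exists e (v / 2) 0 m μ hμ1 (by omega)
    (by rw [Fintype.card_fin]; omega) (by rw [Fintype.card_fin]; omega) (by omega) hm1 hm2
  obtain ⟨σ, hσ1, hσ2⟩ := sub_big e A F _ hA hF
  have hD : ∀ H : SimpleGraph (Fin v), (subC σ C).eval (adjBits H) = true ↔
      ∃ S : Finset (Fin v), v / 2 ≤ S.card ∧ H.IsClique (S : Set (Fin v)) := by
    intro H
    rw [subC_eval σ hσ1, hσ2]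
    have hedge := big_edges hA hF H
    have hH := edges_le H
    rw [Fintype.card_fin] at hH
    have hvw : v ^ 2 ≤ w := by
      have h1 : v ≤ 4 * μ * v := Nat.le_mul_of_pos_left _ (by positivity)
      calc v ^ 2 ≤ s ^ 2 := Nat.pow_le_pow_left (h1.trans hv1) 2
        _ ≤ w := hs1
    rw [hC _ (by omega) (by omega)]
    exact half_clique_iff (κ := v / 2 - 1) (K := v / 2) hA (by omega) (by omega) hF hA1 hA2 H
  have hmain := clique_lower v (v / 2) μ hv3 (subC σ C).toNet (subC σ C).notLev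
    (subC σ C).toNet_layered (by
      intro H
      rw [Circuit.toNet_eval]
      exact hD H) (lt_of_le_of_lt (Nat.pow_le_pow_left hvV 2) hμ) (by omega) (by omega) (by
      have h1 := (subC σ C).toNet_combos
      rw [subC_nots σ hσ1] at h1
      calc 2 ^ 28 * (subC σ C).toNet.combos (subC σ C).notLev * μ ^ 10
          ≤ 2 ^ 28 * 2 ^ C.nots * μ ^ 10 := by gcongr
        _ ≤ _ := hv4)
  rwa [Circuit.toNet_size, subC_size σ hσ1] at hmain

theorem gad_edges {q M k m : ℕ} {B : Type} [Fintype B] [NeZero q] (D : Side q M B m)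
    (y : Fin M × ZMod q → Bool) :
    (gad (k := k) D fun _ => false).edgeSet.ncard ≤ (gad (k := k) D y).edgeSet.ncard ∧
    (gad (k := k) D y).edgeSet.ncard ≤
      (gad (k := k) D fun _ => false).edgeSet.ncard + Fintype.card (Fin M × ZMod q) := by
  classical
  constructor
  · refine Set.ncard_le_ncard ?_ (Set.toFinite _)
    exact SimpleGraph.edgeSet_mono (gad_mono D fun _ => Bool.false_le _)
  · have hsub : (gad (k := k) D y).edgeSet ⊆ (gad (k := k) D fun _ => false).edgeSet ∪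
        (((univ : Finset (Fin M × ZMod q)).image fun u =>
          s((.inr (.inl u) : Vx q M k B), .inr (.inr (D.β u)))) : Finset _) := by
      intro x
      induction x using Sym2.ind with
      | _ s t =>
        intro h
        rw [SimpleGraph.mem_edgeSet] at h
        by_cases hv : ∃ u, (s = .inr (.inl u) ∧ t = .inr (.inr (D.β u)) ∨
          t = .inr (.inl u) ∧ s = .inr (.inr (D.β u)))
        · right
          obtain ⟨u, ⟨rfl, rfl⟩ | ⟨rfl, rfl⟩⟩ := hv
          · exact mem_coe.2 (mem_image.2 ⟨u, mem_univ _, rfl⟩)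
          · exact mem_coe.2 (mem_image.2 ⟨u, mem_univ _, Sym2.eq_swap⟩)
        · left
          rw [SimpleGraph.mem_edgeSet]
          exact (gad_agree D y _ s t hv).1 h
    refine (Set.ncard_le_ncard hsub (Set.toFinite _)).trans ((Set.ncard_union_le _ _).trans ?_)
    rw [Set.ncard_coe_finset]
    exact Nat.add_le_add_left (card_image_le.trans (by rw [card_univ])) _

theorem window_mono (ε : ℝ) (hε : 0 < ε) : ∃ μ0 : ℕ, ∀ μ : ℕ, μ0 ≤ μ →
    ∀ (V m w : ℕ) (C : Circuit (V * V)), μ * V ^ 2 + 8 * V ^ 2 ≤ 8 * μ * m →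
    2 * μ * m + 2 * V ^ 2 ≤ μ * V ^ 2 → (μ : ℝ) ^ (2 + ε) ≤ w → μ ^ 6 ≤ V → C.nots = 0 →
    Right C Half m w → 2 ^ μ < C.size := by
  classical
  set ε' : ℝ := min ε (1 / 4) with hε'
  have hε0 : 0 < ε' := lt_min hε (by norm_num)
  have hε4 : ε' ≤ 1 / 4 := min_le_right _ _
  obtain ⟨k0, hk0⟩ := base ε' hε0
  refine ⟨max k0 144, fun k hk V m w C hm1 hm2 hw hV hnot hC => ?_⟩
  obtain ⟨q, M, hq, hk1, hkM, hMq, hsz, hlow⟩ := hk0 k (le_trans (le_max_left _ _) hk)
  have hk144 : 144 ≤ k := le_trans (le_max_right _ _) hk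
  have hM1 : 1 ≤ M := hk1.trans hkM
  have hq0 : NeZero q := ⟨hq.ne_zero⟩
  have hU : Fintype.card (Fin M × ZMod q) = M * q := by
    rw [Fintype.card_prod, Fintype.card_fin, ZMod.card]
  have hkR : (1 : ℝ) ≤ k := by exact_mod_cast hk1
  have hMqw : M * q ≤ w := by
    have h1 : (((M * q : ℕ) : ℕ) : ℝ) ≤ w := by
      refine hsz.trans (le_trans ?_ hw)
      exact Real.rpow_le_rpow_of_exponent_le hkR (by linarith [min_le_left ε (1 / 4)])
    exact_mod_cast h1
  set T' := Fintype.card (Vx q M k Unit) with hT'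
  have hTc : T' = M * (k * (q * q)) + (M * q + 1) := by
    rw [hT', Fintype.card_sum, Fintype.card_sum, hU, Fintype.card_unit, Fintype.card_prod,
      Fintype.card_prod, Fintype.card_prod, Fintype.card_fin, Fintype.card_fin, ZMod.card]
  have hMq1 : 1 ≤ M * q := Nat.mul_pos hM1 hq.pos
  have hT2 : T' ≤ 3 * (M * q) ^ 2 := by
    rw [hTc]
    have h1 : M * (k * (q * q)) ≤ (M * q) ^ 2 := by
      calc M * (k * (q * q)) = (M * q) * (k * q) := by ring
        _ ≤ (M * q) * (M * q) := Nat.mul_le_mul_left _ (Nat.mul_le_mul_right _ hkM)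
        _ = _ := by ring
    nlinarith
  have hT3 : 4 * k * T' ≤ V := by
    have h1 : (T' : ℝ) ≤ 3 * (k : ℝ) ^ ((9 : ℝ) / 2) := by
      have h2 : (T' : ℝ) ≤ 3 * (((M * q : ℕ) : ℕ) : ℝ) ^ 2 := by exact_mod_cast hT2
      refine h2.trans ?_
      gcongr
      calc (((M * q : ℕ) : ℕ) : ℝ) ^ 2 ≤ ((k : ℝ) ^ (2 + ε')) ^ 2 := by gcongr
        _ = (k : ℝ) ^ ((2 + ε') * 2) := by
            rw [← Real.rpow_natCast, ← Real.rpow_mul (by positivity)]
            norm_num
        _ ≤ (k : ℝ) ^ ((9 : ℝ) / 2) := Real.rpow_le_rpow_of_exponent_le hkR (by linarith)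
    have h3 : (4 * k * T' : ℝ) ≤ (k : ℝ) ^ (6 : ℕ) := by
      have h4 : (12 : ℝ) ≤ (k : ℝ) ^ ((1 : ℝ) / 2) := by
        have h5 : ((144 : ℝ)) ^ ((1 : ℝ) / 2) = 12 := by
          rw [show (144 : ℝ) = 12 ^ (2 : ℕ) by norm_num, ← Real.rpow_natCast,
            ← Real.rpow_mul (by norm_num)]
          norm_num
        rw [← h5]
        exact Real.rpow_le_rpow (by norm_num) (by exact_mod_cast hk144) (by norm_num)
      calc (4 * k * T' : ℝ) ≤ 4 * k * (3 * (k : ℝ) ^ ((9 : ℝ) / 2)) := by gcongr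
        _ = 12 * ((k : ℝ) * (k : ℝ) ^ ((9 : ℝ) / 2)) := by ring
        _ ≤ (k : ℝ) ^ ((1 : ℝ) / 2) * ((k : ℝ) * (k : ℝ) ^ ((9 : ℝ) / 2)) := by gcongr
        _ = (k : ℝ) ^ (6 : ℕ) := by
            rw [← Real.rpow_natCast]
            nth_rewrite 2 [← Real.rpow_one (k : ℝ)]
            rw [← Real.rpow_add (by linarith), ← Real.rpow_add (by linarith)]
            norm_num
    have h6 : (4 * k * T' : ℝ) ≤ V := by
      refine h3.trans ?_
      exact_mod_cast hV
    exact_mod_cast h6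
  have hK := positions_le (k := k) (starSide (q := q) hM1) hk1
  have hTV : T' ≤ Fintype.card (Fin V) := by
    rw [Fintype.card_fin]
    have : T' ≤ 4 * k * T' := Nat.le_mul_of_pos_left _ (by positivity)
    omega
  obtain ⟨e⟩ := Function.Embedding.nonempty_of_card_le hTV
  obtain ⟨A, F, hA, hA1, hA2, hF, hsum⟩ := pad_exists e (M * k + M + 1)
    (gad (k := k) (starSide (q := q) hM1) fun _ => false).edgeSet.ncard m k hk1 (by nlinarith)
    hK hT3 (edges_le _) hm1 hm2
  set G : (Fin M × ZMod q → Bool) → SimpleGraph (Fin V) :=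
    fun y => big e A F (gad (starSide hM1) y) with hG
  have hres := restrict (fun y => adjBits (G y)) (fun p => bits_VB _ e A F _ hA hF p) C.nodes (by
    intro j a hj
    exfalso
    have h1 : Gate.not a ∈ C.nodes := List.mem_of_getElem? hj
    have h2 : 0 < C.nodes.countP Gate.isNot := List.countP_pos_iff.2 ⟨_, h1, rfl⟩
    have h3 : C.nodes.countP Gate.isNot = 0 := hnot
    omega)
  obtain ⟨L, hL1, hL2, hL3⟩ := hres
  refine hlow _ (fun y => nd (adjBits (G y)) C.nodes C.out) ⟨L, hL1, hL2, hL3 C.out⟩ ?_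
  intro y
  have h1 : nd (adjBits (G y)) C.nodes C.out = C.eval (adjBits (G y)) := rfl
  show nd (adjBits (G y)) C.nodes C.out = true ↔ _
  have hedge := big_edges hA hF (gad (starSide hM1) y)
  have hge := gad_edges (k := k) (starSide (q := q) hM1) y
  rw [hU] at hge
  rw [h1, hC (G y) (by rw [hG]; simp only; omega) (by rw [hG]; simp only; omega)]
  refine (half_clique_iff (κ := M * k + M + 1 - 1) (K := M * k + M + 1) hA (by omega)
    (by omega) hF hA1 hA2 _).trans ?_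
  exact core_clique hk1 _ y

end Pool.Agent.V8H39.NP
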